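import Mathlib
import Pool.Graph.R_seed8.W223.AK.Point
import Pool.Graph.R_seed8.W358.AK.EST1

/-!
# Elements integral outside `S`, and their number
-/

set_option autoImplicit false
set_option linter.unusedSectionVars false
set_option linter.unusedVariables false

namespace Pool.Agent.KS6_20.QB

open NumberField IsDedekindDomain Finset Pool.Agent.H691R3 Pool.Agent.W223.AK
open Pool.Agent.W358.AK (fib_bound)

variable {K : Type} [Field K] [NumberField K]

/-- the logarithmic size at a place -/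
noncomputable def ls (v : Pl K) (w : K) : ℝ := mt v * Real.log (av v w)

/-- `w` is nonzero and has the ideal `a` outside `S` -/
structure Ide (S : Finset (Pr K)) (w : K) (a : Idl K) : Prop where
  ne : w ≠ 0
  off : OffS S a
  val : ∀ v, v ∉ S → fv v w = (Nv v) ^ (-(a v : ℤ))

theorem ls_mul (v : Pl K) {a b : K} (ha : a ≠ 0) (hb : b ≠ 0) : ls v (a * b) = ls v a + ls v b := by
  unfold ls
  rw [map_mul, Real.log_mul ((av v).pos ha).ne' ((av v).pos hb).ne']
  ring

theorem ls_div (v : Pl K) {a b : K} (ha : a ≠ 0) (hb : b ≠ 0) : ls v (a / b) = ls v a - ls v b := by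
  unfold ls
  rw [map_div₀, Real.log_div ((av v).pos ha).ne' ((av v).pos hb).ne']
  ring

theorem ls_pow (v : Pl K) (a : K) (n : ℕ) : ls v (a ^ n) = n * ls v a := by
  unfold ls
  rw [map_pow, Real.log_pow]
  ring

theorem exists_ide (S : Finset (Pr K)) {w : K} (hw : w ≠ 0) (h : ∀ v, v ∉ S → fv v w ≤ 1) :
    ∃ a, Ide S w a := by
  classical
  have hex : ∀ v : Pr K, ∃ n : ℕ, v ∉ S → fv v w = (Nv v) ^ (-(n : ℤ)) := by
    intro v
    by_cases hv : v ∈ S
    · exact ⟨0, fun h' => absurd hv h'⟩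
    · obtain ⟨n, hn⟩ := fv_zpow v hw
      have h1 := h v hv
      rw [hn, zpow_le_one_iff_right₀ (Nv_one_lt v)] at h1
      refine ⟨(-n).toNat, fun _ => ?_⟩
      rw [hn, Int.toNat_of_nonneg (by omega), neg_neg]
  choose n hn using hex
  have hfin : (Function.support fun v : Pr K => if v ∈ S then 0 else n v).Finite := by
    refine (fv_support_finite hw).subset ?_
    intro v hv
    by_contra hcon
    simp only [Set.mem_ofPred_eq, not_not] at hcon
    apply hv
    show (if v ∈ S then 0 else n v) = 0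
    split_ifs with hvS
    · rfl
    · have h1 := hn v hvS
      rw [hcon, zpow_neg, zpow_natCast] at h1
      by_contra h3
      have h4 : (1 : ℝ) < (Nv v) ^ (n v) := one_lt_pow₀ (Nv_one_lt v) h3
      have h5 : ((Nv v) ^ (n v))⁻¹ < 1 := inv_lt_one_of_one_lt₀ h4
      rw [← h1] at h5
      exact lt_irrefl _ h5
  refine ⟨Finsupp.ofSupportFinite _ hfin, hw, ?_, ?_⟩
  · intro v hv
    show (if v ∈ S then 0 else n v) = 0
    rw [if_pos hv]
  · intro v hv
    have : (Finsupp.ofSupportFinite _ hfin) v = n v := by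
      show (if v ∈ S then 0 else n v) = _
      rw [if_neg hv]
    rw [this]
    exact hn v hv

section

variable {S : Finset (Pr K)} {w w' : K} {a a' : Idl K}

theorem Ide.mul (h : Ide S w a) (h' : Ide S w' a') : Ide S (w * w') (a + a') := by
  refine ⟨mul_ne_zero h.ne h'.ne, h.off.add h'.off, fun v hv => ?_⟩
  rw [map_mul, h.val v hv, h'.val v hv, ← zpow_add₀ (Nv_pos v).ne', Finsupp.add_apply]
  congr 1
  push_cast
  ring

theorem Ide.uniq (h : Ide S w a) (h' : Ide S w a') : a = a' := by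
  ext v
  by_cases hv : v ∈ S
  · rw [h.off v hv, h'.off v hv]
  · have h1 := (h.val v hv).symm.trans (h'.val v hv)
    have h2 : (-(a v : ℤ)) = -(a' v : ℤ) :=
      zpow_right_injective₀ (Nv_pos v) (Nv_one_lt v).ne' h1
    omega

theorem ide_gen {ϖ : Pr K → K} {C : ℝ} (hU : Unif S ϖ C) (ha : OffS S a) : Ide S (gen ϖ a) a :=
  ⟨gen_ne hU a, ha, fun _ hv => fv_gen hU ha hv⟩

/-- the product formula -/
theorem Ide.len_eq (h : Ide S w a) : len a = ∑ v ∈ Spl S, ls v w := by
  classical
  have hd : Disjoint S a.support := by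
    rw [Finset.disjoint_left]
    intro v hv hv'
    exact (Finsupp.mem_support_iff.mp hv') (h.off v hv)
  have h1 := product_formula S h.ne a.support (fun v hv hv' => by
    rw [h.val v hv, Finsupp.notMem_support_iff.mp hv']
    simp) hd
  have h2 : ∑ v ∈ a.support, Real.log (fv v w) = - len a := by
    unfold len
    rw [← Finset.sum_neg_distrib]
    refine Finset.sum_congr rfl fun v hv => ?_
    have hvS : v ∉ S := fun h' => (Finsupp.mem_support_iff.mp hv) (h.off v h')
    rw [h.val v hvS, Real.log_zpow]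
    push_cast
    ring
  unfold ls
  linarith

theorem Ide.le (h : Ide S w a) {J : Idl K} (hJ : OffS S J)
    (hle : ∀ v, v ∉ S → fv v w ≤ (Nv v) ^ (-(J v : ℤ))) : J ≤ a := by
  intro v
  by_cases hv : v ∈ S
  · rw [hJ v hv]
    exact Nat.zero_le _
  · have h1 := hle v hv
    rw [h.val v hv, zpow_le_zpow_iff_right₀ (Nv_one_lt v)] at h1
    omega

end

theorem len_sub {c d : Idl K} (h : d ≤ c) : len (c - d) = len c - len d := by
  have e1 : c - d + d = c := tsub_add_cancel_of_le h
  have e2 := congrArg len e1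
  rw [len_add] at e2
  linarith

/-- the number of elements with the same ideal and bounded sizes -/
theorem count_same (hSU : StmtSU K) (S : Finset (Pr K)) (A ε : ℝ) (hA : 0 ≤ A) (hε : 0 < ε) :
    ∃ D : ℝ, 0 < D ∧ ∀ (X : ℝ) (E : Finset K) (a : Idl K), 0 ≤ X →
      (∀ w ∈ E, Ide S w a ∧ ∀ v ∈ Spl S, |ls v w| ≤ A * X) →
      (E.card : ℝ) ≤ D * Real.exp (ε * X) := by
  classical
  obtain ⟨D, hD, h⟩ := hSU S (ε / (2 * A + 1)) (by positivity)
  refine ⟨D, hD, fun X E a hX hE => ?_⟩
  rcases E.eq_empty_or_nonempty with rfl | ⟨w₀, hw₀⟩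
  · rw [Finset.card_empty, Nat.cast_zero]
    positivity
  have h0 := (hE w₀ hw₀).1.ne
  have hinj : Set.InjOn (fun w : K => w / w₀) E := by
    intro w _ w' _ hww
    simp only at hww
    rw [div_left_inj' h0] at hww
    exact hww
  rw [← Finset.card_image_of_injOn hinj]
  refine (h (2 * A * X) _ (by positivity) ?_).trans ?_
  · intro y hy
    rw [Finset.mem_image] at hy
    obtain ⟨w, hw, rfl⟩ := hy
    obtain ⟨h1, h2⟩ := hE w hw
    obtain ⟨h3, h4⟩ := hE w₀ hw₀
    refine ⟨div_ne_zero h1.ne h0, fun v hv => ?_, fun v hv => ?_⟩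
    · rw [map_div₀, h1.val v hv, h3.val v hv, div_self (zpow_pos (Nv_pos v) _).ne']
    · have e1 := ls_div v h1.ne h0
      unfold ls at e1
      rw [e1]
      have e2 := h2 v hv
      have e3 := h4 v hv
      unfold ls at e2 e3
      rw [abs_le] at e2 e3 ⊢
      constructor <;> linarith [e2.1, e2.2, e3.1, e3.2]
  · refine mul_le_mul_of_nonneg_left (Real.exp_le_exp.mpr ?_) hD.le
    rw [div_mul_eq_mul_div, div_le_iff₀ (by positivity)]
    nlinarith [mul_nonneg hε.le hX]

/-- the number of integral elements divisible by `J` and of bounded sizes -/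
theorem count_int (hCNT : StmtCNT K) (hSU : StmtSU K) (S : Finset (Pr K)) (A ε : ℝ) (hA : 0 ≤ A)
    (hε : 0 < ε) :
    ∃ D : ℝ, 0 < D ∧ ∀ (X lam : ℝ) (J : Idl K) (E : Finset K), 0 ≤ X → OffS S J →
      (∀ w ∈ E, w ≠ 0 ∧ (∀ v, v ∉ S → fv v w ≤ (Nv v) ^ (-(J v : ℤ))) ∧
        (∀ v ∈ Spl S, |ls v w| ≤ A * X) ∧ ∑ v ∈ Spl S, ls v w ≤ lam) →
      (E.card : ℝ) ≤ D * Real.exp (ε * X + (lam - len J)) := by
  classical
  set B : ℝ := ((Spl S).card : ℝ) * A with hB
  have hB0 : 0 ≤ B := by positivity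
  obtain ⟨D1, hD1, h1⟩ := hCNT (ε / (2 * (B + 1))) (by positivity)
  obtain ⟨D2, hD2, h2⟩ := count_same hSU S A (ε / 2) hA (by positivity)
  refine ⟨D1 * D2, by positivity, fun X lam J E hX hJ hE => ?_⟩
  have hint : ∀ w ∈ E, ∀ v, v ∉ S → fv v w ≤ 1 := by
    intro w hw v hv
    refine ((hE w hw).2.1 v hv).trans ?_
    rw [zpow_le_one_iff_right₀ (Nv_one_lt v)]
    omega
  have hex : ∀ w : K, ∃ a : Idl K, w ∈ E → Ide S w a := by
    intro w
    by_cases hw : w ∈ E
    · obtain ⟨a, ha⟩ := exists_ide S (hE w hw).1 (hint w hw)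
      exact ⟨a, fun _ => ha⟩
    · exact ⟨0, fun h => absurd h hw⟩
  choose f hf using hex
  have hlen : ∀ w ∈ E, len (f w) ≤ B * X := by
    intro w hw
    rw [(hf w hw).len_eq]
    have h3 : ∑ v ∈ Spl S, ls v w ≤ ∑ v ∈ Spl S, A * X :=
      Finset.sum_le_sum fun v hv => (abs_le.mp ((hE w hw).2.2.1 v hv)).2
    rw [Finset.sum_const, nsmul_eq_mul] at h3
    rw [hB]
    linarith
  have hJle : ∀ w ∈ E, J ≤ f w := fun w hw => (hf w hw).le hJ (hE w hw).2.1
  have h3 := fib_bound E f (D2 * Real.exp (ε / 2 * X)) ?_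
  · refine h3.trans ?_
    have hinj : Set.InjOn (fun b : Idl K => b - J) (E.image f) := by
      intro b hb b' hb' hbb
      rw [Finset.mem_coe, Finset.mem_image] at hb hb'
      obtain ⟨w, hw, rfl⟩ := hb
      obtain ⟨w', hw', rfl⟩ := hb'
      have e1 : f w - J + J = f w := tsub_add_cancel_of_le (hJle w hw)
      have e2 : f w' - J + J = f w' := tsub_add_cancel_of_le (hJle w' hw')
      have e3 : f w - J = f w' - J := hbb
      rw [← e1, ← e2, e3]
    have h4 : ((E.image f).card : ℝ) ≤ D1 * Real.exp ((lam - len J) +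
        ε / (2 * (B + 1)) * (B * X)) := by
      rw [← Finset.card_image_of_injOn hinj]
      refine h1 (B * X) (lam - len J) _ (by positivity) ?_
      intro b hb
      rw [Finset.mem_image] at hb
      obtain ⟨b', hb', rfl⟩ := hb
      rw [Finset.mem_image] at hb'
      obtain ⟨w, hw, rfl⟩ := hb'
      have e1 := len_sub (hJle w hw)
      have e2 : len (f w) ≤ lam := by
        rw [(hf w hw).len_eq]
        exact (hE w hw).2.2.2
      have e3 := hlen w hw
      have e4 := len_nonneg J
      refine ⟨(rl_le_len _).trans ?_, ?_⟩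
      · rw [e1]; linarith
      · rw [e1]; linarith
    have h5 : ε / (2 * (B + 1)) * (B * X) ≤ ε / 2 * X := by
      rw [div_mul_eq_mul_div, div_le_iff₀ (by positivity)]
      have := mul_nonneg hε.le hX
      nlinarith
    have h6 : D1 * Real.exp ((lam - len J) + ε / (2 * (B + 1)) * (B * X)) ≤
        D1 * Real.exp ((lam - len J) + ε / 2 * X) :=
      mul_le_mul_of_nonneg_left (Real.exp_le_exp.mpr (by linarith)) hD1.le
    calc ((E.image f).card : ℝ) * (D2 * Real.exp (ε / 2 * X))
        ≤ (D1 * Real.exp ((lam - len J) + ε / 2 * X)) * (D2 * Real.exp (ε / 2 * X)) :=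
          mul_le_mul_of_nonneg_right (h4.trans h6) (by positivity)
      _ = D1 * D2 * Real.exp (ε * X + (lam - len J)) := by
          rw [mul_mul_mul_comm, ← Real.exp_add]
          congr 2
          ring
  · intro b hb
    rw [Finset.mem_image] at hb
    obtain ⟨w₀, hw₀, rfl⟩ := hb
    refine h2 X _ (f w₀) hX ?_
    intro w hw
    rw [Finset.mem_filter] at hw
    have e1 := hf w hw.1
    rw [hw.2] at e1
    exact ⟨e1, (hE w hw.1).2.2.1⟩

end Pool.Agent.KS6_20.QB
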