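import Mathlib
import Pool.Agent.KS6_20.QB.Base

/-!
# The number of `m` with `n = m ^ 2 + G * k ^ 2`, for given `n` and `k`
-/

set_option autoImplicit false
set_option linter.unusedSectionVars false
set_option linter.unusedVariables false

namespace Pool.Agent.KS6_20.QB

open NumberField IsDedekindDomain Finset Pool.Agent.H691R3 Pool.Agent.W223.AK
open Pool.Agent.W358.AK (fib_bound)

variable {K : Type} [Field K] [NumberField K]

theorem Ide.abs_le {S : Finset (Pr K)} {w : K} {a : Idl K} (h : Ide S w a) {B : ℝ}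
    (hw : ∀ v ∈ Spl S, ls v w ≤ B) {v : Pl K} (hv : v ∈ Spl S) :
    |ls v w| ≤ ((Spl S).card : ℝ) * B := by
  classical
  have h1 := h.len_eq
  have h2 := len_nonneg a
  have hc : (1 : ℝ) ≤ ((Spl S).card : ℝ) := by
    exact_mod_cast Finset.card_pos.mpr ⟨v, hv⟩
  have h3 : ∑ u ∈ (Spl S).erase v, ls u w ≤ ∑ u ∈ (Spl S).erase v, B :=
    Finset.sum_le_sum fun u hu => hw u (Finset.mem_of_mem_erase hu)
  rw [Finset.sum_const, nsmul_eq_mul, Finset.card_erase_of_mem hv,
    Nat.cast_sub (Finset.card_pos.mpr ⟨v, hv⟩)] at h3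
  have h4 := Finset.add_sum_erase (Spl S) (fun u => ls u w) hv
  have h5 : ∑ u ∈ Spl S, ls u w ≤ ∑ u ∈ Spl S, B := Finset.sum_le_sum hw
  rw [Finset.sum_const, nsmul_eq_mul] at h5
  have hB : 0 ≤ B := by
    by_contra hcon
    push Not at hcon
    nlinarith
  have h6 := hw v hv
  rw [_root_.abs_le]
  push_cast at h3
  constructor <;> nlinarith

/-- a difference or a sum is small -/
theorem fv_or {S : Finset (Pr K)} {v : Pr K} (h2 : fv v (2 : K) = 1) {m m' : K} {J b : ℕ}
    (hm : fv v m = (Nv v) ^ (-(J : ℤ)))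
    (hd : fv v (m ^ 2 - m' ^ 2) ≤ (Nv v) ^ (-(2 * (J + b) : ℤ))) :
    fv v (m - m') ≤ (Nv v) ^ (-((J + 2 * b : ℕ) : ℤ)) ∨
      fv v (m + m') ≤ (Nv v) ^ (-((J + 2 * b : ℕ) : ℤ)) := by
  have hN := Nv_pos v
  have h3 : m ^ 2 - m' ^ 2 = (m - m') * (m + m') := by ring
  rw [h3, map_mul] at hd
  have h4 := fv_na v (m - m') (m + m')
  have h5 : m - m' + (m + m') = 2 * m := by ring
  rw [h5, map_mul, h2, one_mul, hm] at h4
  have hJ : (0 : ℝ) < (Nv v) ^ (-(J : ℤ)) := zpow_pos hN _
  have e1 : (Nv v) ^ (-(2 * (J + b) : ℤ)) =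
      (Nv v) ^ (-((J + 2 * b : ℕ) : ℤ)) * (Nv v) ^ (-(J : ℤ)) := by
    rw [← zpow_add₀ hN.ne']
    congr 1
    push_cast
    ring
  rw [e1] at hd
  have hpos : (0 : ℝ) < (Nv v) ^ (-((J + 2 * b : ℕ) : ℤ)) := zpow_pos hN _
  rcases le_max_iff.mp h4 with h6 | h6
  · right
    by_contra hcon
    push Not at hcon
    have := mul_lt_mul' h6 hcon hpos.le (lt_of_lt_of_le hJ h6)
    rw [mul_comm ((Nv v) ^ (-(J : ℤ)))] at this
    linarith
  · left
    by_contra hcon
    push Not at hcon
    have := mul_lt_mul' h6 hcon hpos.le (lt_of_lt_of_le hJ h6)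
    rw [mul_comm ((Nv v) ^ (-(J : ℤ))), mul_comm (fv v (m + m'))] at this
    linarith

theorem fv_two {S : Finset (Pr K)} (hS : SGood S 2) {v : Pr K} (hv : v ∉ S) :
    fv v (2 : K) = 1 := by
  have := hS 2 (by norm_num) le_rfl v hv
  exact_mod_cast this

theorem m_count (hCNT : StmtCNT K) (hSU : StmtSU K) (hOMG : StmtOMG K) (S : Finset (Pr K))
    (hS : SGood S 2) (A ε : ℝ) (hA : 0 ≤ A) (hε : 0 < ε) :
    ∃ D : ℝ, 0 < D ∧ ∀ (X c : ℝ) (n k : K) (J b : Idl K) (γ : Pl K → ℝ) (M : Finset K), 0 ≤ X →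
      Ide S k (J + b) → OffS S J → OffS S b → (∀ v ∈ Spl S, ls v k ≤ A * X) →
      (∀ v ∈ Spl S, γ v ≤ A * X + 1) → ∑ v ∈ Spl S, γ v ≤ c →
      (∀ m ∈ M, (∀ v, v ∉ S → fv v m ≤ (Nv v) ^ (-(J v : ℤ))) ∧
        (∀ v, v ∉ S → b v ≠ 0 → fv v m = (Nv v) ^ (-(J v : ℤ))) ∧
        (∃ a, Ide S ((n - m ^ 2) / k ^ 2) a) ∧
        (∀ v ∈ Spl S, |ls v ((n - m ^ 2) / k ^ 2) - γ v| ≤ 1)) →
      (M.card : ℝ) ≤ D * Real.exp (ε * X) * (1 + Real.exp (c / 2 - len b)) := by
  classical
  set s : ℝ := ((Spl S).card : ℝ) with hs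
  have hs0 : 0 ≤ s := by positivity
  obtain ⟨D1, hD1, h1⟩ := count_int hCNT hSU S (s * (2 * A + 4)) (ε / 2) (by positivity)
    (by positivity)
  obtain ⟨D2, hD2, h2⟩ := hOMG 2 (ε / (2 * (s * A + 1))) (by norm_num) (by positivity)
  refine ⟨D2 * 2 ^ (Spl S).card * (1 + D1 * Real.exp (ε / 2 + 3 * s)), by positivity, ?_⟩
  intro X c n k J b γ M hX hk hJ hb hkA hγA hγc hM
  rcases M.eq_empty_or_nonempty with rfl | ⟨m₀, hm₀⟩
  · rw [Finset.card_empty, Nat.cast_zero]
    positivity
  have hk0 := hk.ne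
  have hk20 : k ^ 2 ≠ 0 := pow_ne_zero 2 hk0
  -- the bound for the sizes
  set T : Pl K → ℝ := fun v => Real.sqrt (2 * (av v k) ^ 2 * Real.exp ((γ v + 1) / mt v)) with hT
  have havk : ∀ v : Pl K, 0 < av v k := fun v => (av v).pos hk0
  have hT0 : ∀ v : Pl K, 0 < T v := fun v => Real.sqrt_pos.mpr (by
    have := havk v
    positivity)
  have hTsq : ∀ v : Pl K, T v * T v = 2 * (av v k) ^ 2 * Real.exp ((γ v + 1) / mt v) := fun v =>
    Real.mul_self_sqrt (by
      have := havk v
      positivity)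
  have hlogT : ∀ v : Pl K, mt v * Real.log (T v) = ls v k + (γ v + 1) / 2 + mt v * Real.log 2 / 2 := by
    intro v
    have hmt := mt_pos v
    have e1 : Real.log (T v) = (1 / 2) * Real.log (2 * (av v k) ^ 2 *
        Real.exp ((γ v + 1) / mt v)) := by
      rw [hT]
      simp only
      rw [Real.log_sqrt (by have := havk v; positivity)]
      ring
    rw [e1, Real.log_mul (by have := havk v; positivity) (Real.exp_pos _).ne',
      Real.log_mul (by norm_num) (pow_ne_zero 2 (havk v).ne'), Real.log_exp, Real.log_pow]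
    unfold ls
    field_simp
    push_cast
    ring
  -- differences of squares
  have hG : ∀ m ∈ M, n - m ^ 2 = (n - m ^ 2) / k ^ 2 * k ^ 2 := fun m _ =>
    (div_mul_cancel₀ _ hk20).symm
  have hsq : ∀ m ∈ M, ∀ m' ∈ M, m ^ 2 - m' ^ 2 =
      ((n - m' ^ 2) / k ^ 2 - (n - m ^ 2) / k ^ 2) * k ^ 2 := by
    intro m hm m' hm'
    rw [sub_mul, ← hG m hm, ← hG m' hm']
    ring
  have hfd : ∀ m ∈ M, ∀ m' ∈ M, ∀ v, v ∉ S →
      fv v (m ^ 2 - m' ^ 2) ≤ (Nv v) ^ (-(2 * (J v + b v) : ℤ)) := by
    intro m hm m' hm' v hv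
    rw [hsq m hm m' hm', map_mul, map_pow, hk.val v hv]
    have e1 : fv v ((n - m' ^ 2) / k ^ 2 - (n - m ^ 2) / k ^ 2) ≤ 1 := by
      obtain ⟨a, ha⟩ := (hM m hm).2.2.1
      obtain ⟨a', ha'⟩ := (hM m' hm').2.2.1
      rw [sub_eq_add_neg]
      refine (fv_na v _ _).trans (max_le ?_ ?_)
      · rw [ha'.val v hv, zpow_le_one_iff_right₀ (Nv_one_lt v)]
        omega
      · rw [map_neg_eq_map, ha.val v hv, zpow_le_one_iff_right₀ (Nv_one_lt v)]
        omega
    have e2 : ((Nv v) ^ (-((J + b : Idl K) v : ℤ))) ^ 2 = (Nv v) ^ (-(2 * (J v + b v) : ℤ)) := by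
      rw [← zpow_natCast, ← zpow_mul, Finsupp.add_apply]
      congr 1
      push_cast
      ring
    rw [e2]
    have e3 : (0 : ℝ) < (Nv v) ^ (-(2 * (J v + b v) : ℤ)) := zpow_pos (Nv_pos v) _
    nlinarith
  have hor : ∀ m ∈ M, ∀ m' ∈ M, ∀ v, v ∉ S → b v ≠ 0 →
      fv v (m - m') ≤ (Nv v) ^ (-((J v + 2 * b v : ℕ) : ℤ)) ∨
      fv v (m + m') ≤ (Nv v) ^ (-((J v + 2 * b v : ℕ) : ℤ)) := by
    intro m hm m' hm' v hv hbv
    exact fv_or (S := S) (fv_two hS hv) ((hM m hm).2.1 v hv hbv) (hfd m hm m' hm' v hv)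
  have hord : ∀ m ∈ M, ∀ m' ∈ M, ∀ v ∈ Spl S, av v (m - m') ≤ T v ∨ av v (m + m') ≤ T v := by
    intro m hm m' hm' v hv
    have hmt := mt_pos v
    have e0 : ∀ m ∈ M, av v ((n - m ^ 2) / k ^ 2) ≤ Real.exp ((γ v + 1) / mt v) := by
      intro m hm
      obtain ⟨a, ha⟩ := (hM m hm).2.2.1
      have e1 := (_root_.abs_le.mp ((hM m hm).2.2.2 v hv)).2
      unfold ls at e1
      rw [← Real.log_le_iff_le_exp ((av v).pos ha.ne), le_div_iff₀ hmt]
      linarith
    have e1 : av v (m - m') * av v (m + m') ≤ T v * T v := by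
      rw [← map_mul]
      have e2 : (m - m') * (m + m') = m ^ 2 - m' ^ 2 := by ring
      rw [e2, hsq m hm m' hm', map_mul, map_pow, hTsq]
      have e3 : av v ((n - m' ^ 2) / k ^ 2 - (n - m ^ 2) / k ^ 2) ≤
          2 * Real.exp ((γ v + 1) / mt v) := by
        rw [sub_eq_add_neg]
        refine ((av v).add_le _ _).trans ?_
        rw [map_neg_eq_map]
        linarith [e0 m hm, e0 m' hm']
      have e4 := pow_pos (havk v) 2
      nlinarith
    by_contra hcon
    push Not at hcon
    have := mul_lt_mul'' hcon.1 hcon.2 (hT0 v).le (hT0 v).le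
    linarith
  -- the patterns
  set sF : K → Finset (Pr K) := fun m => b.support.filter
    (fun v => fv v (m - m₀) ≤ (Nv v) ^ (-((J v + 2 * b v : ℕ) : ℤ))) with hsF
  set sP : K → Finset (Pl K) := fun m => (Spl S).filter (fun v => av v (m - m₀) ≤ T v) with hsP
  have hfib := fib_bound M (fun m => (sF m, sP m))
    (1 + D1 * Real.exp (ε / 2 * (X + 1) + (c / 2 - len b + 3 * s))) ?_
  · refine hfib.trans ?_
    have e1 : ((M.image (fun m => (sF m, sP m))).card : ℝ) ≤
        (2 : ℝ) ^ b.support.card * (2 : ℝ) ^ (Spl S).card := by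
      have e2 : (M.image (fun m => (sF m, sP m))) ⊆ b.support.powerset ×ˢ (Spl S).powerset := by
        intro z hz
        rw [Finset.mem_image] at hz
        obtain ⟨m, _, rfl⟩ := hz
        rw [Finset.mem_product, Finset.mem_powerset, Finset.mem_powerset]
        exact ⟨Finset.filter_subset _ _, Finset.filter_subset _ _⟩
      have e3 := Finset.card_le_card e2
      rw [Finset.card_product, Finset.card_powerset, Finset.card_powerset] at e3
      exact_mod_cast e3
    have e2 : (2 : ℝ) ^ b.support.card ≤ D2 * Real.exp (ε / 2 * X) := by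
      refine (h2 b).trans (mul_le_mul_of_nonneg_left (Real.exp_le_exp.mpr ?_) hD2.le)
      have e3 : len b ≤ s * A * X := by
        have e4 := hk.len_eq
        rw [len_add] at e4
        have e5 : ∑ v ∈ Spl S, ls v k ≤ ∑ v ∈ Spl S, A * X := Finset.sum_le_sum hkA
        rw [Finset.sum_const, nsmul_eq_mul] at e5
        have e6 := len_nonneg J
        rw [hs]
        linarith
      rw [div_mul_eq_mul_div, div_le_iff₀ (by positivity)]
      have := mul_nonneg hε.le hX
      nlinarith
    have e3 : 1 + D1 * Real.exp (ε / 2 * (X + 1) + (c / 2 - len b + 3 * s)) ≤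
        (1 + D1 * Real.exp (ε / 2 + 3 * s)) * Real.exp (ε / 2 * X) *
          (1 + Real.exp (c / 2 - len b)) := by
      have e4 : Real.exp (ε / 2 * (X + 1) + (c / 2 - len b + 3 * s)) =
          Real.exp (ε / 2 + 3 * s) * Real.exp (ε / 2 * X) * Real.exp (c / 2 - len b) := by
        rw [← Real.exp_add, ← Real.exp_add]
        congr 1
        ring
      rw [e4]
      have e5 : 1 ≤ Real.exp (ε / 2 * X) := Real.one_le_exp (by positivity)
      have e6 := Real.exp_pos (ε / 2 + 3 * s)
      have e7 := Real.exp_pos (c / 2 - len b)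
      have e8 := Real.exp_pos (ε / 2 * X)
      have e9 : 0 < D1 * Real.exp (ε / 2 + 3 * s) := by positivity
      have e10 : 0 < Real.exp (ε / 2 * X) * Real.exp (c / 2 - len b) := by positivity
      nlinarith [mul_pos e9 e8]
    calc ((M.image (fun m => (sF m, sP m))).card : ℝ) *
          (1 + D1 * Real.exp (ε / 2 * (X + 1) + (c / 2 - len b + 3 * s)))
        ≤ ((D2 * Real.exp (ε / 2 * X)) * (2 : ℝ) ^ (Spl S).card) *
          ((1 + D1 * Real.exp (ε / 2 + 3 * s)) * Real.exp (ε / 2 * X) *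
          (1 + Real.exp (c / 2 - len b))) := by
          refine mul_le_mul (e1.trans (mul_le_mul_of_nonneg_right e2 (by positivity))) e3
            (by positivity) (by positivity)
      _ = D2 * 2 ^ (Spl S).card * (1 + D1 * Real.exp (ε / 2 + 3 * s)) *
          (Real.exp (ε / 2 * X) * Real.exp (ε / 2 * X)) * (1 + Real.exp (c / 2 - len b)) := by ring
      _ = _ := by
          rw [← Real.exp_add]
          congr 3
          ring
  · intro z hz
    rw [Finset.mem_image] at hz
    obtain ⟨m₁, hm₁, rfl⟩ := hz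
    set Fb := M.filter (fun m => (sF m, sP m) = (sF m₁, sP m₁)) with hFb
    have hFbM : ∀ m ∈ Fb, m ∈ M ∧ sF m = sF m₁ ∧ sP m = sP m₁ := by
      intro m hm
      rw [hFb, Finset.mem_filter, Prod.mk.injEq] at hm
      exact hm
    have hinj : Set.InjOn (fun m : K => m - m₁) (Fb.erase m₁) := by
      intro m _ m' _ h
      simpa using h
    have hcard : (Fb.card : ℝ) ≤ 1 + ((Fb.erase m₁).card : ℝ) := by
      have := Finset.pred_card_le_card_erase (s := Fb) (a := m₁)
      have h' : Fb.card ≤ (Fb.erase m₁).card + 1 := by omega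
      have h'' : (Fb.card : ℝ) ≤ (Fb.erase m₁).card + 1 := by exact_mod_cast h'
      linarith
    refine hcard.trans (add_le_add le_rfl ?_)
    rw [← Finset.card_image_of_injOn hinj]
    have hJb : OffS S (J + 2 • b) := by
      intro v hv
      rw [Finsupp.add_apply, Finsupp.smul_apply, hJ v hv, hb v hv]
      rfl
    have hlenk := hk.len_eq
    rw [len_add] at hlenk
    have hgoal := h1 (X + 1) (∑ v ∈ Spl S, (ls v k + γ v / 2 + 3)) (J + 2 • b)
      ((Fb.erase m₁).image (fun m : K => m - m₁)) (by linarith) hJb ?_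
    · refine hgoal.trans (mul_le_mul_of_nonneg_left (Real.exp_le_exp.mpr ?_) hD1.le)
      rw [Finset.sum_add_distrib, Finset.sum_add_distrib, Finset.sum_const, nsmul_eq_mul,
        ← Finset.sum_div, len_add, len_nsmul]
      push_cast
      rw [← hs]
      linarith
    · intro w hw
      rw [Finset.mem_image] at hw
      obtain ⟨m, hm, rfl⟩ := hw
      rw [Finset.mem_erase] at hm
      obtain ⟨hmM, hmF, hmP⟩ := hFbM m hm.2
      have hne : m - m₁ ≠ 0 := sub_ne_zero.mpr hm.1
      have hfin : ∀ v, v ∉ S → fv v (m - m₁) ≤ (Nv v) ^ (-((J + 2 • b : Idl K) v : ℤ)) := by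
        intro v hv
        have e0 : (J + 2 • b : Idl K) v = J v + 2 * b v := by
          rw [Finsupp.add_apply, Finsupp.smul_apply, smul_eq_mul]
        rw [e0]
        by_cases hbv : b v = 0
        · rw [hbv, mul_zero, add_zero, sub_eq_add_neg]
          refine (fv_na v _ _).trans (max_le ((hM m hmM).1 v hv) ?_)
          rw [map_neg_eq_map]
          exact (hM m₁ hm₁).1 v hv
        · have hbs : v ∈ b.support := Finsupp.mem_support_iff.mpr hbv
          by_cases hvF : v ∈ sF m₁
          · have e1 : v ∈ sF m := by rw [hmF]; exact hvF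
            rw [hsF, Finset.mem_filter] at e1 hvF
            have e2 : m - m₁ = (m - m₀) + -(m₁ - m₀) := by ring
            rw [e2]
            refine (fv_na v _ _).trans (max_le e1.2 ?_)
            rw [map_neg_eq_map]
            exact hvF.2
          · have e1 : v ∉ sF m := by rw [hmF]; exact hvF
            rw [hsF, Finset.mem_filter] at e1 hvF
            have e3 := (hor m hmM m₀ hm₀ v hv hbv).resolve_left fun h => e1 ⟨hbs, h⟩
            have e4 := (hor m₁ hm₁ m₀ hm₀ v hv hbv).resolve_left fun h => hvF ⟨hbs, h⟩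
            have e2 : m - m₁ = (m + m₀) + -(m₁ + m₀) := by ring
            rw [e2]
            refine (fv_na v _ _).trans (max_le e3 ?_)
            rw [map_neg_eq_map]
            exact e4
      have hinf : ∀ v ∈ Spl S, ls v (m - m₁) ≤ ls v k + γ v / 2 + 3 := by
        intro v hv
        have e1 : av v (m - m₁) ≤ 2 * T v := by
          by_cases hvP : v ∈ sP m₁
          · have e1 : v ∈ sP m := by rw [hmP]; exact hvP
            rw [hsP, Finset.mem_filter] at e1 hvP
            have e2 : m - m₁ = (m - m₀) + -(m₁ - m₀) := by ring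
            rw [e2]
            refine ((av v).add_le _ _).trans ?_
            rw [map_neg_eq_map]
            linarith [e1.2, hvP.2]
          · have e1 : v ∉ sP m := by rw [hmP]; exact hvP
            rw [hsP, Finset.mem_filter] at e1 hvP
            have e3 := (hord m hmM m₀ hm₀ v hv).resolve_left fun h => e1 ⟨hv, h⟩
            have e4 := (hord m₁ hm₁ m₀ hm₀ v hv).resolve_left fun h => hvP ⟨hv, h⟩
            have e2 : m - m₁ = (m + m₀) + -(m₁ + m₀) := by ring
            rw [e2]
            refine ((av v).add_le _ _).trans ?_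
            rw [map_neg_eq_map]
            linarith
        have e2 : Real.log (av v (m - m₁)) ≤ Real.log 2 + Real.log (T v) := by
          rw [← Real.log_mul (by norm_num) (hT0 v).ne']
          exact Real.log_le_log ((av v).pos hne) e1
        have hmt := mt_pos v
        have hmt2 := mt_le_two v
        have e3 := hlogT v
        have e4 : ls v (m - m₁) ≤ mt v * Real.log 2 + mt v * Real.log (T v) := by
          unfold ls
          have := mul_le_mul_of_nonneg_left e2 hmt.le
          linarith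
        have e5 : Real.log 2 ≤ 0.7 := by
          have := Real.log_two_lt_d9
          linarith
        have e6 : 0 < Real.log 2 := Real.log_pos (by norm_num)
        rw [e3] at e4
        nlinarith
      obtain ⟨aw, haw⟩ := exists_ide S hne (fun v hv => (hfin v hv).trans (by
        rw [zpow_le_one_iff_right₀ (Nv_one_lt v)]
        omega))
      refine ⟨hne, hfin, fun v hv => ?_, Finset.sum_le_sum hinf⟩
      have e1 : ∀ v ∈ Spl S, ls v (m - m₁) ≤ (2 * A + 4) * (X + 1) := by
        intro v hv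
        have e2 := hinf v hv
        have e3 := hkA v hv
        have e4 := hγA v hv
        nlinarith [mul_nonneg hA hX]
      have e2 := haw.abs_le e1 hv
      rw [← hs] at e2
      linarith

end Pool.Agent.KS6_20.QB
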