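import Mathlib
import Pool.Agent.KS6_20.QB.MC

/-!
# The number of pairs `(k, m)` with `n = m ^ 2 + G * k ^ 2`, for given `n`
-/

set_option autoImplicit false
set_option linter.unusedSectionVars false
set_option linter.unusedVariables false

namespace Pool.Agent.KS6_20.QB

open NumberField IsDedekindDomain Finset Pool.Agent.H691R3 Pool.Agent.W223.AK
open Pool.Agent.W358.AK (fib_bound)

variable {K : Type} [Field K] [NumberField K]

/-- the common part of `m` and `k` -/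
theorem exists_common {S : Finset (Pr K)} {n k m : K} {ν a g : Idl K} (hk : Ide S k a)
    (hn : Ide S n ν) (hg : Ide S ((n - m ^ 2) / k ^ 2) g) :
    ∃ J : Idl K, J ≤ a ∧ J + J ≤ ν ∧ (∀ v, v ∉ S → fv v m ≤ (Nv v) ^ (-(J v : ℤ))) ∧
      (∀ v, v ∉ S → (a - J : Idl K) v ≠ 0 → fv v m = (Nv v) ^ (-(J v : ℤ))) := by
  classical
  have hk20 : k ^ 2 ≠ 0 := pow_ne_zero 2 hk.ne
  have hG : n - m ^ 2 = (n - m ^ 2) / k ^ 2 * k ^ 2 := (div_mul_cancel₀ _ hk20).symm
  have hGk : ∀ v, v ∉ S → fv v (n - m ^ 2) ≤ ((Nv v) ^ (-(a v : ℤ))) ^ 2 := by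
    intro v hv
    rw [hG, map_mul, map_pow, hk.val v hv, hg.val v hv]
    have h1 : (Nv v) ^ (-(g v : ℤ)) ≤ 1 := by
      rw [zpow_le_one_iff_right₀ (Nv_one_lt v)]
      omega
    have h2 : (0 : ℝ) < ((Nv v) ^ (-(a v : ℤ))) ^ 2 := by
      have := zpow_pos (Nv_pos v) (-(a v : ℤ))
      positivity
    nlinarith
  have hm1 : ∀ v, v ∉ S → fv v m ≤ 1 := by
    intro v hv
    have h1 : m ^ 2 = n + -(n - m ^ 2) := by ring
    have h2 : fv v (m ^ 2) ≤ 1 := by
      rw [h1]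
      refine (fv_na v _ _).trans (max_le ?_ ?_)
      · rw [hn.val v hv, zpow_le_one_iff_right₀ (Nv_one_lt v)]
        omega
      · rw [map_neg_eq_map]
        refine (hGk v hv).trans (pow_le_one₀ (zpow_pos (Nv_pos v) _).le ?_)
        rw [zpow_le_one_iff_right₀ (Nv_one_lt v)]
        omega
    rw [map_pow] at h2
    by_contra hcon
    push Not at hcon
    have := one_lt_pow₀ hcon (two_ne_zero)
    linarith
  have hmain : ∃ J : Idl K, J ≤ a ∧ (∀ v, v ∉ S → fv v m ≤ (Nv v) ^ (-(J v : ℤ))) ∧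
      (∀ v, v ∉ S → (a - J : Idl K) v ≠ 0 → fv v m = (Nv v) ^ (-(J v : ℤ))) := by
    by_cases hm : m = 0
    · refine ⟨a, le_rfl, fun v hv => ?_, fun v hv h => ?_⟩
      · rw [hm, map_zero]
        exact (zpow_pos (Nv_pos v) _).le
      · exfalso
        apply h
        rw [tsub_self]
        rfl
    · obtain ⟨am, ham⟩ := exists_ide S hm hm1
      refine ⟨a ⊓ am, inf_le_left, fun v hv => ?_, fun v hv h => ?_⟩
      · rw [ham.val v hv, zpow_le_zpow_iff_right₀ (Nv_one_lt v), Finsupp.inf_apply]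
        omega
      · rw [ham.val v hv]
        congr 2
        rw [Finsupp.inf_apply]
        have h1 : (a - a ⊓ am : Idl K) v = a v - min (a v) (am v) := by
          rw [Finsupp.tsub_apply, Finsupp.inf_apply]
        rw [h1] at h
        omega
  obtain ⟨J, hJa, hJ1, hJ2⟩ := hmain
  refine ⟨J, hJa, ?_, hJ1, hJ2⟩
  have hJo : OffS S J := hk.off.mono hJa
  refine hn.le (hJo.add hJo) fun v hv => ?_
  have e1 : n = m ^ 2 + (n - m ^ 2) := by ring
  have e2 : (Nv v) ^ (-((J + J : Idl K) v : ℤ)) = ((Nv v) ^ (-(J v : ℤ))) ^ 2 := by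
    rw [← zpow_natCast, ← zpow_mul, Finsupp.add_apply]
    congr 1
    push_cast
    ring
  rw [e1, e2]
  refine (fv_na v _ _).trans (max_le ?_ ?_)
  · rw [map_pow]
    exact pow_le_pow_left₀ ((fv v).nonneg _) (hJ1 v hv) 2
  · refine (hGk v hv).trans (pow_le_pow_left₀ (zpow_pos (Nv_pos v) _).le ?_ 2)
    rw [zpow_le_zpow_iff_right₀ (Nv_one_lt v)]
    have := hJa v
    omega

/-- the number of ideals `J` with `J + J ≤ ν` -/
theorem count_div (hFAC : StmtFAC K) (ε : ℝ) (hε : 0 < ε) : ∃ D : ℝ, 0 < D ∧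
    ∀ (ν : Idl K) (E : Finset (Idl K)), (∀ J ∈ E, J ≤ ν) →
    (E.card : ℝ) ≤ D * Real.exp (ε * len ν) := by
  classical
  obtain ⟨D, hD, h⟩ := hFAC 2 ε hε
  refine ⟨D, hD, fun ν E hE => ?_⟩
  have hinj : Set.InjOn (fun J : Idl K => (![J, ν - J] : Fin 2 → Idl K)) E := by
    intro J _ J' _ hJ
    have := congrFun hJ 0
    simpa using this
  rw [← Finset.card_image_of_injOn hinj]
  refine h ν _ ?_
  intro x hx
  rw [Finset.mem_image] at hx
  obtain ⟨J, hJ, rfl⟩ := hx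
  rw [Fin.sum_univ_two]
  simp only [Matrix.cons_val_zero, Matrix.cons_val_one]
  exact add_tsub_cancel_of_le (hE J hJ)

theorem km (hCNT : StmtCNT K) (hSU : StmtSU K) (hFAC : StmtFAC K) (hGCD : StmtGCD K)
    (hOMG : StmtOMG K) (S : Finset (Pr K)) (hS : SGood S 2) (A ε : ℝ) (hA : 0 ≤ A) (hε : 0 < ε) :
    ∃ D : ℝ, 0 < D ∧ ∀ (X κ c : ℝ) (n : K) (ν : Idl K) (γ : Pl K → ℝ) (Q : Finset (K × K)),
      0 ≤ X → Ide S n ν → len ν ≤ A * X → (∀ v ∈ Spl S, γ v ≤ A * X + 1) →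
      ∑ v ∈ Spl S, γ v ≤ c →
      (∀ q ∈ Q, q.1 ≠ 0 ∧ (∀ v, v ∉ S → fv v q.1 ≤ 1) ∧ (∀ v ∈ Spl S, |ls v q.1| ≤ A * X) ∧
        ∑ v ∈ Spl S, ls v q.1 ≤ κ ∧ (∃ g, Ide S ((n - q.2 ^ 2) / q.1 ^ 2) g) ∧
        (∀ v ∈ Spl S, |ls v ((n - q.2 ^ 2) / q.1 ^ 2) - γ v| ≤ 1)) →
      (Q.card : ℝ) ≤ D * Real.exp (ε * X) * (Real.exp κ + Real.exp (c / 2)) := by
  classical
  set s : ℝ := ((Spl S).card : ℝ) with hs
  have hs0 : 0 ≤ s := by positivity
  set ε' : ℝ := ε / (4 * (A + s * A + 1)) with hε'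
  have hε'0 : 0 < ε' := by positivity
  obtain ⟨D1, hD1, h1⟩ := count_div hFAC ε' hε'0
  obtain ⟨D2, hD2, h2⟩ := count_same hSU S A (ε / 4) hA (by positivity)
  obtain ⟨D3, hD3, h3⟩ := m_count hCNT hSU hOMG S hS A (ε / 4) hA (by positivity)
  obtain ⟨D4, hD4, h4⟩ := hCNT ε' hε'0
  obtain ⟨D5, hD5, h5⟩ := hGCD ε' hε'0
  refine ⟨D1 * (D2 * D3 * (D4 + D5)), by positivity, ?_⟩
  intro X κ c n ν γ Q hX hn hlν hγA hγc hQ
  have hex : ∀ q : K × K, ∃ (a J : Idl K), q ∈ Q → (Ide S q.1 a ∧ J ≤ a ∧ J + J ≤ ν ∧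
      (∀ v, v ∉ S → fv v q.2 ≤ (Nv v) ^ (-(J v : ℤ))) ∧
      (∀ v, v ∉ S → (a - J : Idl K) v ≠ 0 → fv v q.2 = (Nv v) ^ (-(J v : ℤ)))) := by
    intro q
    by_cases hq : q ∈ Q
    · obtain ⟨g1, g2, g3, g4, ⟨g, g5⟩, g6⟩ := hQ q hq
      obtain ⟨a, ha⟩ := exists_ide S g1 g2
      obtain ⟨J, hJ⟩ := exists_common ha hn g5
      exact ⟨a, J, fun _ => ⟨ha, hJ⟩⟩
    · exact ⟨0, 0, fun h => absurd h hq⟩
  choose a J haJ using hex
  have hlena : ∀ q ∈ Q, len (a q) ≤ s * A * X ∧ len (a q) ≤ κ := by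
    intro q hq
    obtain ⟨g1, g2, g3, g4, _, _⟩ := hQ q hq
    rw [(haJ q hq).1.len_eq]
    refine ⟨?_, g4⟩
    have e1 : ∑ v ∈ Spl S, ls v q.1 ≤ ∑ v ∈ Spl S, A * X :=
      Finset.sum_le_sum fun v hv => (_root_.abs_le.mp (g3 v hv)).2
    rw [Finset.sum_const, nsmul_eq_mul] at e1
    rw [hs]
    linarith
  have hAX := mul_nonneg hA hX
  have hεX := mul_nonneg hε.le hX
  have hε'X : ε' * (s * A * X) ≤ ε / 4 * X := by
    rw [hε', div_mul_eq_mul_div, div_le_iff₀ (by positivity)]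
    have e1 : 0 ≤ ε * A * X := by positivity
    nlinarith
  have hε'X2 : ε' * (A * X) ≤ ε / 4 * X := by
    rw [hε', div_mul_eq_mul_div, div_le_iff₀ (by positivity)]
    have e1 : 0 ≤ ε * (s * A * X) := by positivity
    nlinarith
  have hfib := fib_bound Q J ((D2 * Real.exp (ε / 4 * X)) * (D3 * Real.exp (ε / 4 * X)) *
    ((D4 + D5) * Real.exp (ε / 4 * X) * (Real.exp κ + Real.exp (c / 2)))) ?_
  · refine hfib.trans ?_
    have e1 : ((Q.image J).card : ℝ) ≤ D1 * Real.exp (ε / 4 * X) := by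
      refine (h1 ν _ ?_).trans (mul_le_mul_of_nonneg_left (Real.exp_le_exp.mpr ?_) hD1.le)
      · intro b hb
        rw [Finset.mem_image] at hb
        obtain ⟨q, hq, rfl⟩ := hb
        exact le_trans le_self_add (haJ q hq).2.2.1
      · exact (mul_le_mul_of_nonneg_left hlν hε'0.le).trans hε'X2
    calc ((Q.image J).card : ℝ) * ((D2 * Real.exp (ε / 4 * X)) * (D3 * Real.exp (ε / 4 * X)) *
          ((D4 + D5) * Real.exp (ε / 4 * X) * (Real.exp κ + Real.exp (c / 2))))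
        ≤ (D1 * Real.exp (ε / 4 * X)) * ((D2 * Real.exp (ε / 4 * X)) *
          (D3 * Real.exp (ε / 4 * X)) *
          ((D4 + D5) * Real.exp (ε / 4 * X) * (Real.exp κ + Real.exp (c / 2)))) :=
          mul_le_mul_of_nonneg_right e1 (by positivity)
      _ = D1 * (D2 * D3 * (D4 + D5)) * (Real.exp (ε / 4 * X) * Real.exp (ε / 4 * X) *
          (Real.exp (ε / 4 * X) * Real.exp (ε / 4 * X))) * (Real.exp κ + Real.exp (c / 2)) := by
          ring
      _ = _ := by
          rw [← Real.exp_add, ← Real.exp_add]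
          congr 3
          ring
  · intro J₀ hJ₀
    rw [Finset.mem_image] at hJ₀
    obtain ⟨q₀, hq₀, rfl⟩ := hJ₀
    set Q' := Q.filter (fun q => J q = J q₀) with hQ'
    have hQ'1 : ∀ q ∈ Q', q ∈ Q ∧ J q = J q₀ := fun q hq => Finset.mem_filter.mp hq
    have hJ0 : OffS S (J q₀) := (haJ q₀ hq₀).1.off.mono (haJ q₀ hq₀).2.1
    have hsum : (Q'.card : ℝ) = ∑ b ∈ Q'.image (fun q => a q - J q),
        ((Q'.filter (fun q => a q - J q = b)).card : ℝ) := by
      exact_mod_cast Finset.card_eq_sum_card_image (fun q => a q - J q) Q'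
    have hfb : ∀ b ∈ Q'.image (fun q => a q - J q),
        ((Q'.filter (fun q => a q - J q = b)).card : ℝ) ≤
        (D2 * Real.exp (ε / 4 * X)) * (D3 * Real.exp (ε / 4 * X) *
          (1 + Real.exp (c / 2 - len b))) := by
      intro b hb
      set Q2 := Q'.filter (fun q => a q - J q = b) with hQ2
      have hQ2' : ∀ q ∈ Q2, q ∈ Q ∧ J q = J q₀ ∧ a q = J q₀ + b := by
        intro q hq
        obtain ⟨e1, e2⟩ := Finset.mem_filter.mp hq
        obtain ⟨e3, e4⟩ := hQ'1 q e1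
        refine ⟨e3, e4, ?_⟩
        rw [← e2, ← e4]
        exact (add_tsub_cancel_of_le (haJ q e3).2.1).symm
      have hboff : OffS S b := by
        rw [Finset.mem_image] at hb
        obtain ⟨q, hq, rfl⟩ := hb
        exact (haJ q (hQ'1 q hq).1).1.off.mono tsub_le_self
      have e1 := fib_bound Q2 (fun q => q.1) (D3 * Real.exp (ε / 4 * X) *
          (1 + Real.exp (c / 2 - len b))) ?_
      · refine e1.trans (mul_le_mul_of_nonneg_right ?_ (by positivity))
        refine h2 X _ (J q₀ + b) hX ?_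
        intro w hw
        rw [Finset.mem_image] at hw
        obtain ⟨q, hq, rfl⟩ := hw
        obtain ⟨e2, e3, e4⟩ := hQ2' q hq
        rw [← e4]
        exact ⟨(haJ q e2).1, (hQ q e2).2.2.1⟩
      · intro k hk
        rw [Finset.mem_image] at hk
        obtain ⟨q₁, hq₁, rfl⟩ := hk
        obtain ⟨e2, e3, e4⟩ := hQ2' q₁ hq₁
        have hinj : Set.InjOn (fun q : K × K => q.2) (Q2.filter (fun q => q.1 = q₁.1)) := by
          intro q hq q' hq' h
          rw [Finset.mem_coe, Finset.mem_filter] at hq hq'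
          exact Prod.ext (hq.2.trans hq'.2.symm) h
        rw [← Finset.card_image_of_injOn hinj]
        refine h3 X c n q₁.1 (J q₀) b γ _ hX ?_ hJ0 hboff ?_ hγA hγc ?_
        · rw [← e4]; exact (haJ q₁ e2).1
        · exact fun v hv => (_root_.abs_le.mp ((hQ q₁ e2).2.2.1 v hv)).2
        · intro m hm
          rw [Finset.mem_image] at hm
          obtain ⟨q, hq, rfl⟩ := hm
          obtain ⟨hq2, hqq⟩ := Finset.mem_filter.mp hq
          obtain ⟨f2, f3, f4⟩ := hQ2' q hq2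
          obtain ⟨g1, g2, g3, g4, g5⟩ := haJ q f2
          obtain ⟨_, _, _, _, k5, k6⟩ := hQ q f2
          rw [hqq] at k5 k6
          refine ⟨fun v hv => ?_, fun v hv hbv => ?_, k5, k6⟩
          · rw [← f3]; exact g4 v hv
          · rw [← f3]
            refine g5 v hv ?_
            rw [f4, f3, add_tsub_cancel_left]
            exact hbv
    have hsum2 : (Q'.card : ℝ) ≤ (D2 * Real.exp (ε / 4 * X)) * (D3 * Real.exp (ε / 4 * X)) *
        (((Q'.image (fun q => a q - J q)).card : ℝ) + Real.exp (c / 2) *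
          ∑ b ∈ Q'.image (fun q => a q - J q), Real.exp (-len b)) := by
      rw [hsum]
      refine (Finset.sum_le_sum hfb).trans (le_of_eq ?_)
      rw [← Finset.mul_sum, ← Finset.mul_sum, Finset.sum_add_distrib, Finset.sum_const,
        nsmul_eq_mul, mul_one, Finset.mul_sum]
      have e1 : ∀ b : Idl K, Real.exp (c / 2 - len b) = Real.exp (c / 2) * Real.exp (-len b) := by
        intro b
        rw [← Real.exp_add]
        congr 1
      simp only [e1]
      ring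
    refine hsum2.trans (mul_le_mul_of_nonneg_left ?_ (by positivity))
    have hb1 : ∀ b ∈ Q'.image (fun q => a q - J q), len b ≤ s * A * X ∧ len b ≤ κ := by
      intro b hb
      rw [Finset.mem_image] at hb
      obtain ⟨q, hq, rfl⟩ := hb
      have e1 := len_mono (show a q - J q ≤ a q from tsub_le_self)
      have e2 := hlena q (hQ'1 q hq).1
      exact ⟨e1.trans e2.1, e1.trans e2.2⟩
    have e1 : ((Q'.image (fun q => a q - J q)).card : ℝ) ≤
        D4 * Real.exp (ε / 4 * X) * Real.exp κ := by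
      have e2 := h4 (s * A * X) κ (Q'.image (fun q => a q - J q)) (by positivity)
        (fun b hb => ⟨(rl_le_len _).trans (hb1 b hb).2, (hb1 b hb).1⟩)
      refine e2.trans ?_
      rw [mul_assoc D4 (Real.exp (ε / 4 * X)) (Real.exp κ), ← Real.exp_add]
      refine mul_le_mul_of_nonneg_left (Real.exp_le_exp.mpr ?_) hD4.le
      linarith
    have e2 : ∑ b ∈ Q'.image (fun q => a q - J q), Real.exp (-len b) ≤
        D5 * Real.exp (ε / 4 * X) := by
      refine (h5 (s * A * X) _ (by positivity) fun b hb => (hb1 b hb).1).trans ?_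
      exact mul_le_mul_of_nonneg_left (Real.exp_le_exp.mpr hε'X) hD5.le
    have e3 := mul_le_mul_of_nonneg_left e2 (Real.exp_pos (c / 2)).le
    have e4 : 0 < Real.exp (ε / 4 * X) := Real.exp_pos _
    have e5 : 0 < Real.exp κ := Real.exp_pos _
    have e6 : 0 < Real.exp (c / 2) := Real.exp_pos _
    have e7 : 0 < D4 * Real.exp (ε / 4 * X) * Real.exp (c / 2) := by positivity
    have e8 : 0 < D5 * Real.exp (ε / 4 * X) * Real.exp κ := by positivity
    nlinarith

end Pool.Agent.KS6_20.QB
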