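import Mathlib
import Pool.Agent.KS6_20.QB.KM
import Pool.Graph.R_seed8.W108.AK.Cls

/-!
# The number of pairs of ideals joined by a norm form identity
-/

set_option autoImplicit false
set_option linter.unusedSectionVars false
set_option linter.unusedVariables false

namespace Pool.Agent.KS6_20.QB

open NumberField IsDedekindDomain Finset Pool.Agent.H691R3 Pool.Agent.W223.AK
open Pool.Agent.W358.AK (fib_bound)
open Pool.Agent.W108.AK (cells)

variable {K : Type} [Field K] [NumberField K]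

/-- the ideals `a`, `a'` are joined through the norm form with coefficient of ideal `p + q` -/
def Joined (S : Finset (Pr K)) (B κ : ℝ) (ω : (Idl K × Idl K) × (Idl K × Idl K)) : Prop :=
  ∃ n k m : K, k ≠ 0 ∧ (∀ v, v ∉ S → fv v k ≤ 1) ∧ (∀ v ∈ Spl S, |ls v k| ≤ B) ∧
    ∑ v ∈ Spl S, ls v k ≤ κ ∧ Ide S n (ω.2.1 + ω.2.2) ∧ (∀ v ∈ Spl S, |ls v n| ≤ B) ∧
    Ide S ((n - m ^ 2) / k ^ 2) (ω.1.1 + ω.1.2) ∧
    (∀ v ∈ Spl S, |ls v ((n - m ^ 2) / k ^ 2)| ≤ B)

theorem fib_le {α β : Type*} [DecidableEq β] (s : Finset α) (f : α → β) (M B : ℝ) (hB : 0 ≤ B)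
    (hM : ((s.image f).card : ℝ) ≤ M)
    (h : ∀ b ∈ s.image f, ((s.filter (fun a => f a = b)).card : ℝ) ≤ B) :
    (s.card : ℝ) ≤ M * B :=
  (fib_bound s f B h).trans (mul_le_mul_of_nonneg_right hM hB)

/-- ordered pairs of ideals with given sum -/
theorem count_sum (hFAC : StmtFAC K) (ε : ℝ) (hε : 0 < ε) : ∃ D : ℝ, 0 < D ∧
    ∀ (ν : Idl K) (E : Finset (Idl K × Idl K)), (∀ x ∈ E, x.1 + x.2 = ν) →
    (E.card : ℝ) ≤ D * Real.exp (ε * len ν) := by
  classical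
  obtain ⟨D, hD, h⟩ := hFAC 2 ε hε
  refine ⟨D, hD, fun ν E hE => ?_⟩
  have hinj : Set.InjOn (fun x : Idl K × Idl K => (![x.1, x.2] : Fin 2 → Idl K)) E := by
    intro x _ x' _ hx
    have h0 := congrFun hx 0
    have h1 := congrFun hx 1
    simp only [Matrix.cons_val_zero, Matrix.cons_val_one] at h0 h1
    exact Prod.ext h0 h1
  rw [← Finset.card_image_of_injOn hinj]
  refine h ν _ ?_
  intro x hx
  rw [Finset.mem_image] at hx
  obtain ⟨J, hJ, rfl⟩ := hx
  rw [Fin.sum_univ_two]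
  simp only [Matrix.cons_val_zero, Matrix.cons_val_one]
  exact hE J hJ

/-- pairs of ideals with small radicals -/
theorem count_two (hCNT : StmtCNT K) (ε : ℝ) (hε : 0 < ε) : ∃ D : ℝ, 0 < D ∧
    ∀ (X c : ℝ) (E : Finset (Idl K × Idl K)), 0 ≤ X →
    (∀ x ∈ E, (rl x.1 ≤ c ∧ len x.1 ≤ X) ∧ (rl x.2 ≤ c ∧ len x.2 ≤ X)) →
    (E.card : ℝ) ≤ D * Real.exp (2 * c + ε * X) := by
  classical
  obtain ⟨D, hD, h⟩ := hCNT (ε / 2) (by positivity)
  refine ⟨D * D, by positivity, fun X c E hX hE => ?_⟩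
  have hsub : E ⊆ (E.image Prod.fst) ×ˢ (E.image Prod.snd) := by
    intro x hx
    rw [Finset.mem_product]
    exact ⟨Finset.mem_image_of_mem _ hx, Finset.mem_image_of_mem _ hx⟩
  have h1 := Finset.card_le_card hsub
  rw [Finset.card_product] at h1
  have h2 : (E.card : ℝ) ≤ ((E.image Prod.fst).card : ℝ) * ((E.image Prod.snd).card : ℝ) := by
    exact_mod_cast h1
  have h3 := h X c (E.image Prod.fst) hX fun a ha => by
    rw [Finset.mem_image] at ha
    obtain ⟨x, hx, rfl⟩ := ha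
    exact (hE x hx).1
  have h4 := h X c (E.image Prod.snd) hX fun a ha => by
    rw [Finset.mem_image] at ha
    obtain ⟨x, hx, rfl⟩ := ha
    exact (hE x hx).2
  calc (E.card : ℝ) ≤ (D * Real.exp (c + ε / 2 * X)) * (D * Real.exp (c + ε / 2 * X)) :=
        h2.trans (mul_le_mul h3 h4 (Nat.cast_nonneg _) (by positivity))
    _ = D * D * Real.exp (2 * c + ε * X) := by
        rw [mul_mul_mul_comm, ← Real.exp_add]
        congr 2
        ring

theorem pairs (hCNT : StmtCNT K) (hSU : StmtSU K) (hFAC : StmtFAC K) (hGCD : StmtGCD K)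
    (hOMG : StmtOMG K) (S : Finset (Pr K)) (hS : SGood S 2) (A ε : ℝ) (hA : 0 ≤ A) (hε : 0 < ε) :
    ∃ D : ℝ, 0 < D ∧ ∀ (X κ c cA : ℝ) (Ω : Finset ((Idl K × Idl K) × (Idl K × Idl K))),
      0 ≤ X →
      (∀ ω ∈ Ω, Joined S (A * X) κ ω ∧ (rl ω.2.1 ≤ cA ∧ len ω.2.1 ≤ A * X) ∧
        (rl ω.2.2 ≤ cA ∧ len ω.2.2 ≤ A * X) ∧ len (ω.1.1 + ω.1.2) ≤ c) →
      (Ω.card : ℝ) ≤ D * Real.exp (ε * X + 2 * cA) * (Real.exp κ + Real.exp (c / 2)) := by
  classical
  set s : ℝ := ((Spl S).card : ℝ) with hs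
  have hs0 : 0 ≤ s := by positivity
  set ε' : ℝ := ε / (5 * (2 * A + s * A + 1)) with hε'
  have hε'0 : 0 < ε' := by positivity
  obtain ⟨D0, hD0, h0⟩ := cells {v // v ∈ Spl S} 0 ε' le_rfl hε'0
  obtain ⟨D1, hD1, h1⟩ := count_two hCNT ε' hε'0
  obtain ⟨D2, hD2, h2⟩ := count_same hSU S A (ε / 5) hA (by positivity)
  obtain ⟨D3, hD3, h3⟩ := km hCNT hSU hFAC hGCD hOMG S hS (2 * A) (ε / 5) (by positivity)
    (by positivity)
  obtain ⟨D4, hD4, h4⟩ := count_sum hFAC ε' hε'0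
  refine ⟨D0 * (D1 * (D2 * (D3 * D4))), by positivity, ?_⟩
  intro X κ c cA Ω hX hΩ
  have hAX := mul_nonneg hA hX
  have hε1 : ε' * (2 * A * X) ≤ ε / 5 * X := by
    rw [hε', div_mul_eq_mul_div, div_le_iff₀ (by positivity)]
    have e1 : 0 ≤ ε * (s * A * X) := by positivity
    have e2 := mul_nonneg hε.le hX
    nlinarith
  have hε2 : ε' * (A * X) ≤ ε / 5 * X := by
    have e1 : ε' * (A * X) ≤ ε' * (2 * A * X) :=
      mul_le_mul_of_nonneg_left (by linarith) hε'0.le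
    linarith
  have hε3 : ε' * (s * (A * X)) ≤ ε / 5 * X := by
    rw [hε', div_mul_eq_mul_div, div_le_iff₀ (by positivity)]
    have e1 : 0 ≤ ε * (A * X) := by positivity
    have e2 := mul_nonneg hε.le hX
    nlinarith
  have hex : ∀ ω : (Idl K × Idl K) × (Idl K × Idl K), ∃ n k m : K, ω ∈ Ω →
      (k ≠ 0 ∧ (∀ v, v ∉ S → fv v k ≤ 1) ∧ (∀ v ∈ Spl S, |ls v k| ≤ A * X) ∧
    ∑ v ∈ Spl S, ls v k ≤ κ ∧ Ide S n (ω.2.1 + ω.2.2) ∧ (∀ v ∈ Spl S, |ls v n| ≤ A * X) ∧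
    Ide S ((n - m ^ 2) / k ^ 2) (ω.1.1 + ω.1.2) ∧
    (∀ v ∈ Spl S, |ls v ((n - m ^ 2) / k ^ 2)| ≤ A * X)) := by
    intro ω
    by_cases hω : ω ∈ Ω
    · obtain ⟨n, k, m, h⟩ := (hΩ ω hω).1
      exact ⟨n, k, m, fun _ => h⟩
    · exact ⟨0, 0, 0, fun h => absurd h hω⟩
  choose n k m hnkm using hex
  set G : (Idl K × Idl K) × (Idl K × Idl K) → K := fun ω => (n ω - m ω ^ 2) / k ω ^ 2 with hG
  have hmain := h0 ((Idl K × Idl K) × (Idl K × Idl K))
    (fun v ω => ls v.1 (G ω) + A * X) (2 * A * X) Ω (by positivity) ?_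
    ((D1 * Real.exp (2 * cA + ε / 5 * X)) * ((D2 * Real.exp (ε / 5 * X)) *
      ((D3 * Real.exp (ε / 5 * X) * (Real.exp κ + Real.exp (c / 2))) *
        (D4 * Real.exp (ε / 5 * X))))) (by positivity) ?_
  · refine hmain.trans ?_
    have e1 : Real.exp (ε' * (2 * A * X)) ≤ Real.exp (ε / 5 * X) := Real.exp_le_exp.mpr hε1
    calc D0 * Real.exp (ε' * (2 * A * X)) * ((D1 * Real.exp (2 * cA + ε / 5 * X)) *
          ((D2 * Real.exp (ε / 5 * X)) *
          ((D3 * Real.exp (ε / 5 * X) * (Real.exp κ + Real.exp (c / 2))) *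
          (D4 * Real.exp (ε / 5 * X)))))
        ≤ D0 * Real.exp (ε / 5 * X) * ((D1 * Real.exp (2 * cA + ε / 5 * X)) *
          ((D2 * Real.exp (ε / 5 * X)) *
          ((D3 * Real.exp (ε / 5 * X) * (Real.exp κ + Real.exp (c / 2))) *
          (D4 * Real.exp (ε / 5 * X))))) :=
          mul_le_mul_of_nonneg_right (mul_le_mul_of_nonneg_left e1 hD0.le) (by positivity)
      _ = D0 * (D1 * (D2 * (D3 * D4))) * (Real.exp (ε / 5 * X) *
          Real.exp (2 * cA + ε / 5 * X) * (Real.exp (ε / 5 * X) * Real.exp (ε / 5 * X) *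
          Real.exp (ε / 5 * X))) * (Real.exp κ + Real.exp (c / 2)) := by ring
      _ = _ := by
          rw [← Real.exp_add, ← Real.exp_add, ← Real.exp_add, ← Real.exp_add]
          congr 3
          ring
  · intro ω hω v
    obtain ⟨_, _, _, _, _, _, _, g8⟩ := hnkm ω hω
    have := _root_.abs_le.mp (g8 v.1 v.2)
    constructor <;> linarith [this.1, this.2]
  · intro Ω' hΩ' hcell
    rcases Ω'.eq_empty_or_nonempty with rfl | ⟨ω₀, hω₀⟩
    · rw [Finset.card_empty, Nat.cast_zero]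
      positivity
    have hγ : ∀ ω ∈ Ω', ∀ v ∈ Spl S, |ls v (G ω) - ls v (G ω₀)| ≤ 1 := by
      intro ω hω v hv
      have := hcell ⟨v, hv⟩ ω hω ω₀ hω₀
      simp only [add_sub_add_right_eq_sub] at this
      exact this
    have hω0 := hnkm ω₀ (hΩ' hω₀)
    refine fib_le Ω' (fun ω => ω.2) _ _ (by positivity) ?_ ?_
    · have e1 := h1 (A * X) cA (Ω'.image (fun ω => ω.2)) hAX (fun x hx => by
        rw [Finset.mem_image] at hx
        obtain ⟨ω, hω, rfl⟩ := hx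
        exact ⟨(hΩ ω (hΩ' hω)).2.1, (hΩ ω (hΩ' hω)).2.2.1⟩)
      refine e1.trans (mul_le_mul_of_nonneg_left (Real.exp_le_exp.mpr ?_) hD1.le)
      linarith
    · intro aa haa
      set Ω2 := Ω'.filter (fun ω => ω.2 = aa) with hΩ2
      have hm2 : ∀ ω ∈ Ω2, ω ∈ Ω' ∧ ω.2 = aa := fun ω hω => Finset.mem_filter.mp hω
      refine fib_le Ω2 n _ _ (by positivity) ?_ ?_
      · refine h2 X (Ω2.image n) (aa.1 + aa.2) hX ?_
        intro w hw
        rw [Finset.mem_image] at hw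
        obtain ⟨ω, hω, rfl⟩ := hw
        obtain ⟨g1, g2⟩ := hm2 ω hω
        obtain ⟨_, _, _, _, g5, g6, _, _⟩ := hnkm ω (hΩ' g1)
        rw [← g2]
        exact ⟨g5, g6⟩
      · intro n₀ hn₀
        rw [Finset.mem_image] at hn₀
        obtain ⟨ω₁, hω₁, rfl⟩ := hn₀
        obtain ⟨f1, f2⟩ := hm2 ω₁ hω₁
        set Ω3 := Ω2.filter (fun ω => n ω = n ω₁) with hΩ3
        have hm3 : ∀ ω ∈ Ω3, ω ∈ Ω' ∧ ω.2 = aa ∧ n ω = n ω₁ := by
          intro ω hω
          obtain ⟨g1, g2⟩ := Finset.mem_filter.mp hω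
          exact ⟨(hm2 ω g1).1, (hm2 ω g1).2, g2⟩
        refine fib_le Ω3 (fun ω => (k ω, m ω)) _ _ (by positivity) ?_ ?_
        · have hω1 := hnkm ω₁ (hΩ' f1)
          have e1 := h3 X κ c (n ω₁) (ω₁.2.1 + ω₁.2.2) (fun v => ls v (G ω₀))
            (Ω3.image (fun ω => (k ω, m ω))) hX hω1.2.2.2.2.1 ?_ ?_ ?_ ?_
          · exact e1
          · rw [len_add]
            have e2 := (hΩ ω₁ (hΩ' f1)).2.1.2
            have e3 := (hΩ ω₁ (hΩ' f1)).2.2.1.2
            linarith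
          · intro v hv
            have := (_root_.abs_le.mp (hω0.2.2.2.2.2.2.2 v hv)).2
            simp only [hG]
            linarith
          · have e2 := hω0.2.2.2.2.2.2.1.len_eq
            simp only [hG]
            rw [← e2]
            exact (hΩ ω₀ (hΩ' hω₀)).2.2.2
          · intro q hq
            rw [Finset.mem_image] at hq
            obtain ⟨ω, hω, rfl⟩ := hq
            obtain ⟨g1, g2, g3⟩ := hm3 ω hω
            obtain ⟨k1, k2, k3, k4, k5, k6, k7, k8⟩ := hnkm ω (hΩ' g1)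
            refine ⟨k1, k2, fun v hv => (k3 v hv).trans (by linarith), k4, ?_, ?_⟩
            · rw [← g3]; exact ⟨_, k7⟩
            · rw [← g3]
              exact hγ ω g1
        · intro km hkm
          rw [Finset.mem_image] at hkm
          obtain ⟨ω₂, hω₂, rfl⟩ := hkm
          obtain ⟨f3, f4, f5⟩ := hm3 ω₂ hω₂
          set Ω4 := Ω3.filter (fun ω => (k ω, m ω) = (k ω₂, m ω₂)) with hΩ4
          have hinj : Set.InjOn (fun ω : (Idl K × Idl K) × (Idl K × Idl K) => ω.1) Ω4 := by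
            intro ω hω ω' hω' h
            rw [Finset.mem_coe, hΩ4, Finset.mem_filter] at hω hω'
            exact Prod.ext h ((hm3 ω hω.1).2.1.trans (hm3 ω' hω'.1).2.1.symm)
          rw [← Finset.card_image_of_injOn hinj]
          have hk2 := hnkm ω₂ (hΩ' f3)
          refine (h4 (ω₂.1.1 + ω₂.1.2) _ ?_).trans ?_
          · intro x hx
            rw [Finset.mem_image] at hx
            obtain ⟨ω, hω, rfl⟩ := hx
            rw [hΩ4, Finset.mem_filter, Prod.mk.injEq] at hω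
            obtain ⟨g1, g2, g3⟩ := hω
            obtain ⟨g4, g5, g6⟩ := hm3 ω g1
            have e1 := (hnkm ω (hΩ' g4)).2.2.2.2.2.2.1
            have e2 := hk2.2.2.2.2.2.2.1
            rw [g2, g3, g6, ← f5] at e1
            exact e1.uniq e2
          · refine mul_le_mul_of_nonneg_left (Real.exp_le_exp.mpr ?_) hD4.le
            have e1 := hk2.2.2.2.2.2.2.1.len_eq
            have e2 : ∑ v ∈ Spl S, ls v ((n ω₂ - m ω₂ ^ 2) / k ω₂ ^ 2) ≤
                ∑ v ∈ Spl S, A * X :=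
              Finset.sum_le_sum fun v hv => (_root_.abs_le.mp (hk2.2.2.2.2.2.2.2 v hv)).2
            rw [Finset.sum_const, nsmul_eq_mul, ← hs] at e2
            rw [e1]
            exact (mul_le_mul_of_nonneg_left e2 hε'0.le).trans hε3

end Pool.Agent.KS6_20.QB
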