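import Mathlib
import Pool.Agent.KS6_20.QB.Pair
import Pool.Graph.R_seed8.H691R3.PowColor
import Pool.Graph.R_seed8.W108.AK.MB

/-!
# Classes modulo squares
-/

set_option autoImplicit false
set_option linter.unusedSectionVars false
set_option linter.unusedVariables false

namespace Pool.Agent.KS6_20.QB

open NumberField IsDedekindDomain Finset Pool.Agent.H691R3 Pool.Agent.W223.AK

variable {K : Type} [Field K] [NumberField K]

/-- the primes with odd exponent -/
noncomputable def od (a : Idl K) : Idl K := a.mapRange (fun m => m % 2) (by simp)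

/-- half of the exponents -/
noncomputable def hf (a : Idl K) : Idl K := a.mapRange (fun m => m / 2) (by simp)

theorem od_apply (a : Idl K) (v : Pr K) : od a v = a v % 2 := by
  unfold od
  rw [Finsupp.mapRange_apply]

theorem hf_apply (a : Idl K) (v : Pr K) : hf a v = a v / 2 := by
  unfold hf
  rw [Finsupp.mapRange_apply]

theorem od_add (a : Idl K) : od a + 2 • hf a = a := by
  ext v
  rw [Finsupp.add_apply, Finsupp.smul_apply, od_apply, hf_apply, smul_eq_mul]
  omega

theorem len_od (a : Idl K) : len (od a) + 2 * len (hf a) = len a := by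
  have h := congrArg len (od_add a)
  rw [len_add, len_nsmul] at h
  push_cast at h
  exact h

theorem OffS.od' {S : Finset (Pr K)} {a : Idl K} (h : OffS S a) : OffS S (od a) := by
  intro v hv
  rw [od_apply, h v hv]

theorem OffS.hf' {S : Finset (Pr K)} {a : Idl K} (h : OffS S a) : OffS S (hf a) := by
  intro v hv
  rw [hf_apply, h v hv]

theorem hf_le (a : Idl K) : hf a ≤ a := by
  intro v
  rw [hf_apply]
  exact Nat.div_le_self _ _

theorem od_le (a : Idl K) : od a ≤ a := by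
  intro v
  rw [od_apply]
  exact Nat.mod_le _ _

/-- orders of the quotient -/
theorem fv_yy {S : Finset (Pr K)} {x : K} {P : Fin 3 → Idl K} (hP : IsP S x P) (p q : Fin 3)
    {v : Pr K} (hv : v ∉ S) :
    fv v (yy p q x) = (Nv v) ^ ((P q v : ℤ) - (P p v : ℤ)) := by
  unfold yy
  have hm : (0 : ℝ) < max (fv v x) 1 := lt_max_of_lt_right one_pos
  have hN := Nv_pos v
  rw [map_mul, map_neg_eq_map, map_mul, abv_sgn, abv_sgn, map_div₀, hP.val p v hv, hP.val q v hv,
    one_mul, one_mul, mul_div_mul_left _ _ hm.ne', ← zpow_sub₀ hN.ne']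
  congr 1
  ring

theorem ls_yy {x : K} (hx : Pt x) (p q : Fin 3) (v : Pl K) :
    ls v (yy p q x) = lm v q x - lm v p x := by
  unfold ls yy
  rw [map_mul, map_neg_eq_map, map_mul, abv_sgn, abv_sgn, map_div₀, one_mul, one_mul,
    Real.log_div ((av v).pos (L_ne hx p)).ne' ((av v).pos (L_ne hx q)).ne', lm_eq hx, lm_eq hx]
  ring

theorem ls_yy_sub {x : K} (hx : Pt x) {p q r : Fin 3} (hpq : p ≠ q) (hqr : q ≠ r) (hpr : p ≠ r)
    (v : Pl K) : ls v (yy p q x - 1) = lm v q x - lm v r x := by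
  unfold ls
  rw [abv_yy_sub_one _ hx hpq hqr hpr,
    Real.log_div ((av v).pos (L_ne hx r)).ne' ((av v).pos (L_ne hx q)).ne', lm_eq hx, lm_eq hx]
  ring

theorem fv_yy_sub {S : Finset (Pr K)} {x : K} {P : Fin 3 → Idl K} (hx : Pt x) (hP : IsP S x P)
    {p q r : Fin 3} (hpq : p ≠ q) (hqr : q ≠ r) (hpr : p ≠ r) {v : Pr K} (hv : v ∉ S) :
    fv v (yy p q x - 1) = (Nv v) ^ ((P q v : ℤ) - (P r v : ℤ)) := by
  have hm : (0 : ℝ) < max (fv v x) 1 := lt_max_of_lt_right one_pos
  have hN := Nv_pos v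
  rw [abv_yy_sub_one _ hx hpq hqr hpr, hP.val r v hv, hP.val q v hv,
    mul_div_mul_left _ _ hm.ne', ← zpow_sub₀ hN.ne']
  congr 1
  ring

theorem yy_sub_ne {x : K} (hx : Pt x) {p q r : Fin 3} (hpq : p ≠ q) (hqr : q ≠ r) (hpr : p ≠ r) :
    yy p q x - 1 ≠ 0 := by
  rw [yy_sub_one hx hpq hqr hpr]
  exact mul_ne_zero (mul_ne_zero (sgn_ne r) (sgn_ne q)) (div_ne_zero (L_ne hx r) (L_ne hx q))

theorem yy_inj {x x' : K} (hx : Pt x) (hx' : Pt x') {p q : Fin 3} (hpq : p ≠ q)
    (h : yy p q x = yy p q x') : x = x' := by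
  unfold yy at h
  exact L_quot_inj hx hx' hpq (mul_left_cancel₀
    (neg_ne_zero.mpr (mul_ne_zero (sgn_ne p) (sgn_ne q))) h)

theorem sqrt_zpow {a N : ℝ} {n : ℤ} (ha : 0 ≤ a) (hN : 0 < N) (h : a ^ 2 = N ^ (2 * n)) :
    a = N ^ n := by
  have h1 : N ^ (2 * n) = (N ^ n) ^ 2 := by
    rw [← zpow_natCast (N ^ n) 2, ← zpow_mul]
    congr 1
    push_cast
    ring
  rw [h1] at h
  exact (pow_left_inj₀ ha (zpow_pos hN n).le two_ne_zero).mp h

/-- the data of a class -/
structure Dat (S : Finset (Pr K)) (P : Fin 3 → Idl K) (p q : Fin 3) (A : ℝ) (x g t : K) : Prop where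
  gne : g ≠ 0
  tne : t ≠ 0
  eq : yy p q x = g * t ^ 2
  tv : ∀ v, v ∉ S → fv v t = (Nv v) ^ ((hf (P q) v : ℤ) - (hf (P p) v : ℤ))
  tl : ∀ v ∈ Spl S, |ls v t| ≤ A

theorem classes {S : Finset (Pr K)} {ϖ : Pr K → K} {C : ℝ} (hU : Unif S ϖ C) (p q : Fin 3) :
    ∃ (M : ℕ) (A : ℝ), 0 ≤ A ∧ ∀ (X : ℝ) (E : Finset K) (P : K → Fin 3 → Idl K), 0 ≤ X →
      (∀ x ∈ E, Pt x ∧ IsP S x (P x) ∧ ht x ≤ X) →
      ∃ (col : K → Fin M) (g t : K → K), (∀ x ∈ E, Dat S (P x) p q (A * (X + 1)) x (g x) (t x)) ∧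
        (∀ x ∈ E, ∀ x' ∈ E, od (P x p) = od (P x' p) → od (P x q) = od (P x' q) →
          col x = col x' → g x = g x') := by
  classical
  obtain ⟨N, c, hc⟩ := power_coloring (K := K) (k := 2) two_pos
  set T := {s // s ∈ S.powerset} × Fin N with hT
  have hfin : Fintype T := inferInstance
  have hcS := cS_nonneg S
  refine ⟨Fintype.card T, (2 + 2 * C) * (1 + cS S), by
    have := hU.one_le
    positivity, ?_⟩
  intro X E P hX hE
  -- parity at the places of `S`
  set par : K → {s // s ∈ S.powerset} := fun x => ⟨S.filter (fun v =>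
    ∃ n : ℤ, fv v (yy p q x) = (Nv v) ^ (2 * n)), Finset.mem_powerset.mpr (Finset.filter_subset _ _)⟩
    with hpar
  set key : K → (Idl K × Idl K) × {s // s ∈ S.powerset} :=
    fun x => ((od (P x p), od (P x q)), par x) with hkey
  have hrep : ∀ b : (Idl K × Idl K) × {s // s ∈ S.powerset}, ∃ y : K,
      (∃ x ∈ E, key x = b) → (y ∈ E ∧ key y = b) := by
    intro b
    by_cases h : ∃ x ∈ E, key x = b
    · obtain ⟨x, hx, hxb⟩ := h
      exact ⟨x, fun _ => ⟨hx, hxb⟩⟩
    · exact ⟨0, fun h' => absurd h' h⟩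
  choose rep hrep using hrep
  have hrep' : ∀ x ∈ E, rep (key x) ∈ E ∧ key (rep (key x)) = key x := fun x hx =>
    hrep (key x) ⟨x, hx, rfl⟩
  have heven : ∀ x ∈ E, ∀ x' ∈ E, key x = key x' → PowIdeal 2 (yy p q x / yy p q x') := by
    intro x hx x' hx' h v
    rw [hkey, Prod.mk.injEq, Prod.mk.injEq] at h
    obtain ⟨⟨h1, h2⟩, h3⟩ := h
    have hne := yy_ne (hE x hx).1 p q
    have hne' := yy_ne (hE x' hx').1 p q
    by_cases hv : v ∈ S
    · obtain ⟨n, hn⟩ := fv_zpow v hne
      obtain ⟨n', hn'⟩ := fv_zpow v hne'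
      have h4 : (∃ m : ℤ, fv v (yy p q x) = (Nv v) ^ (2 * m)) ↔
          (∃ m : ℤ, fv v (yy p q x') = (Nv v) ^ (2 * m)) := by
        have h5 : (par x).1 = (par x').1 := congrArg _ h3
        have h6 : v ∈ (par x).1 ↔ v ∈ (par x').1 := by rw [h5]
        rw [hpar] at h6
        simp only [Finset.mem_filter, hv, true_and] at h6
        exact h6
      have h5 : (∃ m : ℤ, n = 2 * m) ↔ (∃ m : ℤ, n' = 2 * m) := by
        constructor
        · rintro ⟨m, hm⟩
          obtain ⟨m', hm'⟩ := h4.mp ⟨m, by rw [hn, hm]⟩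
          exact ⟨m', Nv_zpow_inj v (hn'.symm.trans hm')⟩
        · rintro ⟨m, hm⟩
          obtain ⟨m', hm'⟩ := h4.mpr ⟨m, by rw [hn', hm]⟩
          exact ⟨m', Nv_zpow_inj v (hn.symm.trans hm')⟩
      have h6 : ∃ m : ℤ, n - n' = 2 * m := by
        by_cases h7 : ∃ m : ℤ, n = 2 * m
        · obtain ⟨m, hm⟩ := h7
          obtain ⟨m', hm'⟩ := h5.mp ⟨m, hm⟩
          exact ⟨m - m', by rw [hm, hm']; ring⟩
        · have h8 : ¬ ∃ m : ℤ, n' = 2 * m := fun h => h7 (h5.mpr h)
          refine ⟨(n - n') / 2, ?_⟩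
          have h9 : n % 2 = 1 := by
            by_contra hcon
            exact h7 ⟨n / 2, by omega⟩
          have h10 : n' % 2 = 1 := by
            by_contra hcon
            exact h8 ⟨n' / 2, by omega⟩
          omega
      obtain ⟨m, hm⟩ := h6
      refine ⟨m, ?_⟩
      rw [map_div₀, hn, hn', ← zpow_sub₀ (Nv_pos v).ne', hm]
      norm_num
    · refine ⟨((hf (P x q) v : ℤ) - hf (P x p) v) - ((hf (P x' q) v : ℤ) - hf (P x' p) v), ?_⟩
      rw [map_div₀, fv_yy (hE x hx).2.1 p q hv, fv_yy (hE x' hx').2.1 p q hv,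
        ← zpow_sub₀ (Nv_pos v).ne']
      congr 1
      have e1 := congrArg (fun a : Idl K => a v) h1
      have e2 := congrArg (fun a : Idl K => a v) h2
      simp only [od_apply] at e1 e2
      simp only [hf_apply]
      push_cast
      omega
  set col : K → T := fun x => (par x, c (yy p q x / yy p q (rep (key x)))) with hcol
  -- representatives of the full classes
  set fk : K → (Idl K × Idl K) × T := fun x => ((od (P x p), od (P x q)), col x) with hfk
  have hbase : ∀ b : (Idl K × Idl K) × T, ∃ y : K, (∃ x ∈ E, fk x = b) → (y ∈ E ∧ fk y = b) := by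
    intro b
    by_cases h : ∃ x ∈ E, fk x = b
    · obtain ⟨x, hx, hxb⟩ := h
      exact ⟨x, fun _ => ⟨hx, hxb⟩⟩
    · exact ⟨0, fun h' => absurd h' h⟩
  choose base hbase using hbase
  have hbase' : ∀ x ∈ E, base (fk x) ∈ E ∧ fk (base (fk x)) = fk x := fun x hx =>
    hbase (fk x) ⟨x, hx, rfl⟩
  have hroot : ∀ x : K, ∃ y : K, x ∈ E → y ^ 2 * yy p q (base (fk x)) = yy p q x := by
    intro x
    by_cases hx : x ∈ E
    · obtain ⟨h1, h2⟩ := hbase' x hx
      set x₁ := base (fk x) with hx₁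
      have h3 : key x₁ = key x := by
        rw [hfk, Prod.mk.injEq] at h2
        obtain ⟨h4, h5⟩ := h2
        rw [hcol, Prod.mk.injEq] at h5
        rw [hkey, Prod.mk.injEq]
        exact ⟨h4, h5.1⟩
      have h4 : c (yy p q x / yy p q (rep (key x))) = c (yy p q x₁ / yy p q (rep (key x))) := by
        rw [hfk, Prod.mk.injEq] at h2
        obtain ⟨_, h5⟩ := h2
        rw [hcol, Prod.mk.injEq] at h5
        rw [← h5.2, h3]
      obtain ⟨h5, h6⟩ := hrep' x hx
      have hn0 := yy_ne (hE _ h5).1 p q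
      obtain ⟨y, hy⟩ := hc _ _ (div_ne_zero (yy_ne (hE x hx).1 p q) hn0)
        (div_ne_zero (yy_ne (hE x₁ h1).1 p q) hn0) (heven x hx _ h5 h6.symm)
        (heven x₁ h1 _ h5 (h3.trans h6.symm)) h4
      refine ⟨y, fun _ => ?_⟩
      field_simp at hy
      exact hy
    · exact ⟨0, fun h => absurd h hx⟩
  choose y hy using hroot
  set E1 : K → K := fun x => gen ϖ (hf (P (base (fk x)) p)) / gen ϖ (hf (P (base (fk x)) q)) with hE1
  have hE1ne : ∀ x, E1 x ≠ 0 := fun x => div_ne_zero (gen_ne hU _) (gen_ne hU _)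
  refine ⟨fun x => Fintype.equivFin T (col x), fun x => yy p q (base (fk x)) / E1 x ^ 2,
    fun x => y x * E1 x, ?_, ?_⟩
  · intro x hx
    obtain ⟨h1, h2⟩ := hbase' x hx
    set x₁ := base (fk x) with hx₁
    have hyx := hy x hx
    rw [← hx₁] at hyx
    have hne := yy_ne (hE x hx).1 p q
    have hne₁ := yy_ne (hE x₁ h1).1 p q
    have hy0 : y x ≠ 0 := by
      intro h
      rw [h] at hyx
      apply hne
      rw [← hyx]
      ring
    have hod : od (P x₁ p) = od (P x p) ∧ od (P x₁ q) = od (P x q) := by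
      rw [hfk, Prod.mk.injEq, Prod.mk.injEq] at h2
      exact h2.1
    refine ⟨div_ne_zero hne₁ (pow_ne_zero 2 (hE1ne x)), mul_ne_zero hy0 (hE1ne x), ?_, ?_, ?_⟩
    · rw [mul_pow, ← hyx, div_mul_eq_mul_div, eq_div_iff (pow_ne_zero 2 (hE1ne x))]
      ring
    · intro v hv
      have e1 : (fv v (y x)) ^ 2 = (Nv v) ^ (2 * (((hf (P x q) v : ℤ) - hf (P x p) v) -
          ((hf (P x₁ q) v : ℤ) - hf (P x₁ p) v))) := by
        have e2 : y x ^ 2 = yy p q x / yy p q x₁ := by
          rw [eq_div_iff hne₁]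
          exact hyx
        rw [← map_pow, e2, map_div₀, fv_yy (hE x hx).2.1 p q hv, fv_yy (hE x₁ h1).2.1 p q hv,
          ← zpow_sub₀ (Nv_pos v).ne']
        congr 1
        have e3 := congrArg (fun a : Idl K => a v) hod.1
        have e4 := congrArg (fun a : Idl K => a v) hod.2
        simp only [od_apply] at e3 e4
        simp only [hf_apply]
        push_cast
        omega
      rw [map_mul, sqrt_zpow ((fv v).nonneg _) (Nv_pos v) e1, hE1]
      simp only
      rw [← hx₁, map_div₀, fv_gen hU (OffS.hf' ((hE x₁ h1).2.1.off p)) hv,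
        fv_gen hU (OffS.hf' ((hE x₁ h1).2.1.off q)) hv, ← zpow_sub₀ (Nv_pos v).ne',
        ← zpow_add₀ (Nv_pos v).ne']
      congr 1
      ring
    · intro v hv
      have e1 := ls_mul v hy0 (hE1ne x)
      have e2 : 2 * ls v (y x) + ls v (yy p q x₁) = ls v (yy p q x) := by
        have e3 := ls_mul v (pow_ne_zero 2 hy0) hne₁
        rw [hyx, ls_pow] at e3
        push_cast at e3
        linarith
      have e3 : ls v (E1 x) = ls v (gen ϖ (hf (P x₁ p))) - ls v (gen ϖ (hf (P x₁ q))) := by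
        rw [hE1]
        simp only
        rw [← hx₁]
        exact ls_div v (gen_ne hU _) (gen_ne hU _)
      have hb : ∀ x ∈ E, |ls v (yy p q x)| ≤ 2 * (X + cS S) := by
        intro x hx
        obtain ⟨g1, g2, g3⟩ := hE x hx
        rw [ls_yy g1]
        have k1 := lm_ge g1 v p
        have k2 := lm_ge g1 v q
        have k3 := lm_le g1 hv p
        have k4 := lm_le g1 hv q
        have k5 : mt v * Real.log 2 ≤ cS S :=
          Finset.single_le_sum (f := fun u : Pl K => mt u * Real.log 2)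
            (fun u _ => mul_nonneg (mt_pos u).le (Real.log_nonneg (by norm_num))) hv
        rw [_root_.abs_le]
        constructor <;> linarith
      have hgl : ∀ l : Fin 3, |ls v (gen ϖ (hf (P x₁ l)))| ≤ C * (X + cS S) := by
        intro l
        have k1 := spec_gen hU (OffS.hf' ((hE x₁ h1).2.1.off l)) hv
        refine k1.trans (mul_le_mul_of_nonneg_left ?_ (by linarith [hU.one_le]))
        have k2 := len_mono (hf_le (P x₁ l))
        have k3 := len_le (hE x₁ h1).1 (hE x₁ h1).2.1 l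
        linarith [(hE x₁ h1).2.2]
      have k1 := _root_.abs_le.mp (hb x hx)
      have k2 := _root_.abs_le.mp (hb x₁ h1)
      have k3 := _root_.abs_le.mp (hgl p)
      have k4 := _root_.abs_le.mp (hgl q)
      have hC := hU.one_le
      have k5 : X + cS S ≤ (1 + cS S) * (X + 1) := by nlinarith [mul_nonneg hcS hX]
      have k6 : (2 + 2 * C) * (X + cS S) ≤ (2 + 2 * C) * ((1 + cS S) * (X + 1)) :=
        mul_le_mul_of_nonneg_left k5 (by linarith)
      rw [e1, e3, _root_.abs_le]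
      constructor <;> nlinarith [k1.1, k1.2, k2.1, k2.2, k3.1, k3.2, k4.1, k4.2]
  · intro x hx x' hx' h1 h2 h3
    have h4 : fk x = fk x' := by
      rw [hfk, Prod.mk.injEq, Prod.mk.injEq]
      exact ⟨⟨h1, h2⟩, (Fintype.equivFin T).injective h3⟩
    simp only [hE1]
    rw [h4]

end Pool.Agent.KS6_20.QB
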