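import Mathlib
import Pool.Agent.KS6_20.QB.Cls

/-!
# Two points of a class: closeness, and the norm form identity
-/

set_option autoImplicit false
set_option linter.unusedSectionVars false
set_option linter.unusedVariables false

namespace Pool.Agent.KS6_20.QB

open NumberField IsDedekindDomain Finset Pool.Agent.H691R3 Pool.Agent.W223.AK
open Pool.Agent.W108.AK (nearest lm_other)

variable {K : Type} [Field K] [NumberField K]

theorem av_eq_exp (v : Pl K) {a : K} (ha : a ≠ 0) : av v a = Real.exp (ls v a / mt v) := by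
  unfold ls
  rw [mul_div_cancel_left₀ _ (mt_pos v).ne', Real.exp_log ((av v).pos ha)]

theorem ls_le_of (v : Pl K) {a : K} (ha : a ≠ 0) {b : ℝ} (h : av v a ≤ Real.exp (b / mt v)) :
    ls v a ≤ b := by
  have hmt := mt_pos v
  unfold ls
  have h1 := Real.log_le_log ((av v).pos ha) h
  rw [Real.log_exp, le_div_iff₀ hmt] at h1
  linarith

theorem near_aux (v : Pl K) {a b : K} (h : av v (a - b) ≤ av v (a + b)) :
    av v (2 : K) / 2 * (av v (a - b) * av v a) ≤ av v (a ^ 2 - b ^ 2) := by
  have h1 : a ^ 2 - b ^ 2 = (a - b) * (a + b) := by ring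
  have h2 : (2 : K) * a = (a + b) + (a - b) := by ring
  have h3 := (av v).add_le (a + b) (a - b)
  rw [← h2, map_mul] at h3
  rw [h1, map_mul]
  have h4 := (av v).nonneg (a - b)
  nlinarith

/-- a constant of a place -/
noncomputable def kc (v : Pl K) : ℝ := loss v + 3 * mt v * Real.log 2 + |ls v (2 : K)| + 5

theorem close_two {S : Finset (Pr K)} {p q r : Fin 3} (hpq : p ≠ q) (hqr : q ≠ r) (hpr : p ≠ r)
    {P P' P₀ : Fin 3 → Idl K} {A : ℝ} {x x' x₀ g t t' t₀ : K}
    (hx : Pt x) (hx' : Pt x') (hx₀ : Pt x₀) (hd : Dat S P p q A x g t)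
    (hd' : Dat S P' p q A x' g t') (hd₀ : Dat S P₀ p q A x₀ g t₀) (htt : t ≠ t') {v : Pl K}
    (h1 : ∀ l, |lm v l x - lm v l x'| ≤ 1) (h2 : ∀ l, |lm v l x - lm v l x₀| ≤ 1)
    (h3 : ∀ l, |lm v l x' - lm v l x₀| ≤ 1)
    (hs : av v (t - t₀) ≤ av v (t + t₀) ↔ av v (t' - t₀) ≤ av v (t' + t₀)) :
    ls v (t - t') ≤ ls v t - lm v r x + kc v := by
  have hmt := mt_pos v
  have hlog2 : 0 < Real.log 2 := Real.log_pos (by norm_num)
  have hlt : ∀ {x₁ t₁ : K} {P₁ : Fin 3 → Idl K}, Pt x₁ → Dat S P₁ p q A x₁ g t₁ →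
      ls v g + 2 * ls v t₁ = lm v q x₁ - lm v p x₁ := by
    intro x₁ t₁ P₁ hx₁ hd₁
    have e1 := ls_mul v hd₁.gne (pow_ne_zero 2 hd₁.tne)
    rw [← hd₁.eq, ls_pow, ls_yy hx₁] at e1
    push_cast at e1
    linarith
  have k1 := hlt hx hd
  have k2 := hlt hx' hd'
  have k3 := hlt hx₀ hd₀
  have a1p := _root_.abs_le.mp (h1 p)
  have a1q := _root_.abs_le.mp (h1 q)
  have a1r := _root_.abs_le.mp (h1 r)
  have a2q := _root_.abs_le.mp (h2 q)
  have a2r := _root_.abs_le.mp (h2 r)
  have a3q := _root_.abs_le.mp (h3 q)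
  have a3r := _root_.abs_le.mp (h3 r)
  have hloss := loss_nonneg v
  have habs := abs_nonneg (ls v (2 : K))
  have hne : t - t' ≠ 0 := sub_ne_zero.mpr htt
  by_cases hr : r = nearest x v
  · -- `r` is the nearest form, so `p` is not
    have hp : lm v p x ≤ loss v := lm_other hx v (by rw [← hr]; exact hpr)
    have key : ∀ {x₁ t₁ u : K} {P₁ : Fin 3 → Idl K}, Pt x₁ → Dat S P₁ p q A x₁ g t₁ →
        lm v q x₁ - lm v r x₁ ≤ lm v q x - lm v r x + 2 →
        lm v q x₀ - lm v r x₀ ≤ lm v q x - lm v r x + 2 →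
        ls v t - 1 ≤ ls v t₁ →
        u ^ 2 = t₀ ^ 2 → av v (t₁ - u) ≤ av v (t₁ + u) →
        av v (t₁ - u) ≤ Real.exp ((ls v t - lm v r x + lm v p x + 3 + 2 * (mt v * Real.log 2) +
          |ls v (2 : K)|) / mt v) := by
      intro x₁ t₁ u P₁ hx₁ hd₁ g1 g2 g3 hu hle
      have e1 := near_aux v hle
      have e2 : t₁ ^ 2 - u ^ 2 = ((yy p q x₁ - 1) - (yy p q x₀ - 1)) / g := by
        rw [hd₁.eq, hd₀.eq, hu]
        have := hd₁.gne
        field_simp
        ring
      have e3 : av v (t₁ ^ 2 - u ^ 2) ≤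
          2 * Real.exp ((lm v q x - lm v r x + 2 - ls v g) / mt v) := by
        rw [e2, map_div₀, div_le_iff₀ ((av v).pos hd₁.gne)]
        have e4 : av v (yy p q x₁ - 1) ≤ Real.exp ((lm v q x - lm v r x + 2) / mt v) := by
          rw [av_eq_exp v (yy_sub_ne hx₁ hpq hqr hpr), ls_yy_sub hx₁ hpq hqr hpr]
          exact Real.exp_le_exp.mpr (div_le_div_of_nonneg_right (by linarith) hmt.le)
        have e5 : av v (yy p q x₀ - 1) ≤ Real.exp ((lm v q x - lm v r x + 2) / mt v) := by
          rw [av_eq_exp v (yy_sub_ne hx₀ hpq hqr hpr), ls_yy_sub hx₀ hpq hqr hpr]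
          exact Real.exp_le_exp.mpr (div_le_div_of_nonneg_right (by linarith) hmt.le)
        have e6 : 2 * Real.exp ((lm v q x - lm v r x + 2 - ls v g) / mt v) * av v g =
            2 * Real.exp ((lm v q x - lm v r x + 2) / mt v) := by
          rw [av_eq_exp v hd₁.gne, mul_assoc, ← Real.exp_add, ← add_div]
          congr 3
          ring
        rw [e6]
        have e7 := (av v).add_le (yy p q x₁ - 1) (-(yy p q x₀ - 1))
        rw [map_neg_eq_map, ← sub_eq_add_neg] at e7
        linarith
      have h20 : (2 : K) ≠ 0 := two_ne_zero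
      have e8 : av v t₁ = Real.exp (ls v t₁ / mt v) := av_eq_exp v hd₁.tne
      have e9 : av v (2 : K) = Real.exp (ls v (2 : K) / mt v) := av_eq_exp v h20
      have e10 : (0 : ℝ) < av v (2 : K) / 2 * av v t₁ := by
        have := (av v).pos h20
        have := (av v).pos hd₁.tne
        positivity
      have e11 : av v (t₁ - u) * (av v (2 : K) / 2 * av v t₁) ≤
          2 * Real.exp ((lm v q x - lm v r x + 2 - ls v g) / mt v) := by
        have : av v (t₁ - u) * (av v (2 : K) / 2 * av v t₁) =
          av v (2 : K) / 2 * (av v (t₁ - u) * av v t₁) := by ring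
        rw [this]
        linarith
      refine le_of_mul_le_mul_right (e11.trans ?_) e10
      rw [e8, e9]
      have e12 : (2 : ℝ) = Real.exp ((mt v * Real.log 2) / mt v) := by
        rw [mul_div_cancel_left₀ _ hmt.ne', Real.exp_log (by norm_num)]
      have e13 : Real.exp ((ls v t - lm v r x + lm v p x + 3 + 2 * (mt v * Real.log 2) +
          |ls v (2 : K)|) / mt v) * (Real.exp (ls v (2 : K) / mt v) / 2 *
          Real.exp (ls v t₁ / mt v)) = Real.exp ((ls v t - lm v r x + lm v p x + 3 +
          2 * (mt v * Real.log 2) + |ls v (2 : K)| + ls v (2 : K) - mt v * Real.log 2 +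
          ls v t₁) / mt v) := by
        have e14 : Real.exp (ls v (2 : K) / mt v) / 2 =
            Real.exp ((ls v (2 : K) - mt v * Real.log 2) / mt v) := by
          conv_lhs => rw [e12]
          rw [← Real.exp_sub, ← sub_div]
        rw [e14, ← Real.exp_add, ← Real.exp_add, ← add_div, ← add_div]
        congr 2
        ring
      rw [e13]
      conv_lhs => rw [e12]
      rw [← Real.exp_add, ← add_div]
      refine Real.exp_le_exp.mpr (div_le_div_of_nonneg_right ?_ hmt.le)
      have e15 := neg_abs_le (ls v (2 : K))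
      linarith
    have hmain : av v (t - t') ≤ 2 * Real.exp ((ls v t - lm v r x + lm v p x + 3 +
        2 * (mt v * Real.log 2) + |ls v (2 : K)|) / mt v) := by
      have g1 : lm v q x₀ - lm v r x₀ ≤ lm v q x - lm v r x + 2 := by linarith [a2q.1, a2r.2]
      have g2 : lm v q x' - lm v r x' ≤ lm v q x - lm v r x + 2 := by linarith [a1q.1, a1r.2]
      have g3 : ls v t - 1 ≤ ls v t' := by linarith [a1q.2, a1p.1]
      by_cases hc : av v (t - t₀) ≤ av v (t + t₀)
      · have hc' := hs.mp hc
        have f1 := key hx hd (by linarith) g1 (by linarith) rfl hc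
        have f2 := key hx' hd' g2 g1 g3 rfl hc'
        have f3 : t - t' = (t - t₀) + -(t' - t₀) := by ring
        rw [f3]
        refine ((av v).add_le _ _).trans ?_
        rw [map_neg_eq_map]
        linarith
      · have hc' : ¬ av v (t' - t₀) ≤ av v (t' + t₀) := fun h => hc (hs.mpr h)
        push Not at hc hc'
        have f1 := key (u := -t₀) hx hd (by linarith) g1 (by linarith) (by ring)
          (by rw [sub_neg_eq_add, ← sub_eq_add_neg]; exact hc.le)
        have f2 := key (u := -t₀) hx' hd' g2 g1 g3 (by ring)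
          (by rw [sub_neg_eq_add, ← sub_eq_add_neg]; exact hc'.le)
        have f3 : t - t' = (t - -t₀) + -(t' - -t₀) := by ring
        rw [f3]
        refine ((av v).add_le _ _).trans ?_
        rw [map_neg_eq_map]
        linarith
    refine ls_le_of v hne (hmain.trans ?_)
    have e12 : (2 : ℝ) = Real.exp ((mt v * Real.log 2) / mt v) := by
      rw [mul_div_cancel_left₀ _ hmt.ne', Real.exp_log (by norm_num)]
    conv_lhs => rw [e12]
    rw [← Real.exp_add, ← add_div]
    refine Real.exp_le_exp.mpr (div_le_div_of_nonneg_right ?_ hmt.le)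
    unfold kc
    rw [← e12]
    nlinarith
  · have hr' : lm v r x ≤ loss v := lm_other hx v hr
    have g3 : ls v t' ≤ ls v t + 1 := by linarith [a1q.1, a1p.2]
    have f1 : av v (t - t') ≤ 2 * Real.exp ((ls v t + 1) / mt v) := by
      have f2 := (av v).add_le t (-t')
      rw [map_neg_eq_map, ← sub_eq_add_neg] at f2
      have f3 : av v t ≤ Real.exp ((ls v t + 1) / mt v) := by
        rw [av_eq_exp v hd.tne]
        exact Real.exp_le_exp.mpr (div_le_div_of_nonneg_right (by linarith) hmt.le)
      have f4 : av v t' ≤ Real.exp ((ls v t + 1) / mt v) := by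
        rw [av_eq_exp v hd'.tne]
        exact Real.exp_le_exp.mpr (div_le_div_of_nonneg_right (by linarith) hmt.le)
      linarith
    refine ls_le_of v hne (f1.trans ?_)
    have e12 : (2 : ℝ) = Real.exp ((mt v * Real.log 2) / mt v) := by
      rw [mul_div_cancel_left₀ _ hmt.ne', Real.exp_log (by norm_num)]
    conv_lhs => rw [e12]
    rw [← Real.exp_add, ← add_div]
    refine Real.exp_le_exp.mpr (div_le_div_of_nonneg_right ?_ hmt.le)
    unfold kc
    nlinarith [mul_pos hmt hlog2]

end Pool.Agent.KS6_20.QB
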