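import Mathlib
import Pool.Agent.KS6_20.QB.Geo

/-!
# The norm form identity of two points of a class
-/

set_option autoImplicit false
set_option linter.unusedSectionVars false
set_option linter.unusedVariables false

namespace Pool.Agent.KS6_20.QB

open NumberField IsDedekindDomain Finset Pool.Agent.H691R3 Pool.Agent.W223.AK
open Pool.Agent.W108.AK (nearest lm_other)

variable {K : Type} [Field K] [NumberField K]

theorem kc_nonneg (v : Pl K) : 0 ≤ kc v := by
  unfold kc
  have h1 := loss_nonneg v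
  have h2 := mt_pos v
  have h3 : 0 < Real.log 2 := Real.log_pos (by norm_num)
  have h4 := abs_nonneg (ls v (2 : K))
  positivity

/-- the sum of the constants -/
noncomputable def kS (S : Finset (Pr K)) : ℝ := ∑ v ∈ Spl S, kc v

theorem kS_nonneg (S : Finset (Pr K)) : 0 ≤ kS S := Finset.sum_nonneg fun v _ => kc_nonneg v

theorem kc_le {S : Finset (Pr K)} {v : Pl K} (hv : v ∈ Spl S) : kc v ≤ kS S :=
  Finset.single_le_sum (f := fun v => kc v) (fun u _ => kc_nonneg u) hv

theorem mt_log_le {S : Finset (Pr K)} {v : Pl K} (hv : v ∈ Spl S) : mt v * Real.log 2 ≤ cS S :=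
  Finset.single_le_sum (f := fun u : Pl K => mt u * Real.log 2)
    (fun u _ => mul_nonneg (mt_pos u).le (Real.log_nonneg (by norm_num))) hv

/-- the bound for the sizes -/
noncomputable def BB (S : Finset (Pr K)) (C A X : ℝ) : ℝ :=
  (((Spl S).card : ℝ) + 2) * (2 * A + kS S + (8 + 8 * C) * (X + cS S))

theorem core {S : Finset (Pr K)} {ϖ : Pr K → K} {C : ℝ} (hU : Unif S ϖ C) {p q r : Fin 3}
    (hpq : p ≠ q) (hqr : q ≠ r) (hpr : p ≠ r) {P P' : Fin 3 → Idl K} {A X : ℝ}
    {x x' g t t' : K} (hx : Pt x) (hx' : Pt x') (hP : IsP S x P) (hP' : IsP S x' P')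
    (hd : Dat S P p q A x g t) (hd' : Dat S P' p q A x' g t') (hop : od (P p) = od (P' p))
    (hoq : od (P q) = od (P' q)) (htt : t ≠ t') {f : Idl K} (hfr : f ≤ P r) (hfr' : f ≤ P' r)
    (hcong : ∀ v, f v ≠ 0 → fv v (t - t') ≤ (Nv v) ^ (-(f v : ℤ)))
    (hclose : ∀ v ∈ Spl S, ls v (t - t') ≤ ls v t - lm v r x + kc v)
    (hX : ht x ≤ X) (hX' : ht x' ≤ X) {u o k m n : K}
    (hu : u = gen ϖ (hf (P q)) * gen ϖ (hf (P' q)) / gen ϖ f) (ho : o = gen ϖ (od (P q)))
    (hk : k = (t - t') * u) (hm : m = (g * t * t' - 1) * (o * u))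
    (hn : n = ((yy p q x - 1) * (yy p q x' - 1)) * (o * u) ^ 2) :
    k ≠ 0 ∧ (∀ v, v ∉ S → fv v k ≤ 1) ∧ (∀ v ∈ Spl S, |ls v k| ≤ BB S C A X) ∧
    ∑ v ∈ Spl S, ls v k ≤ len (hf (P p)) + len (hf (P' q)) - ∑ v ∈ Spl S, lm v r x - len f +
      kS S ∧ Ide S n ((P r - f) + (P' r - f)) ∧ (∀ v ∈ Spl S, |ls v n| ≤ BB S C A X) ∧
    (n - m ^ 2) / k ^ 2 = -g * o ^ 2 ∧ Ide S (-g * o ^ 2) (od (P p) + od (P q)) ∧
    (∀ v ∈ Spl S, |ls v (-g * o ^ 2)| ≤ BB S C A X) := by
  classical
  have hC := hU.one_le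
  have hfo : OffS S f := (hP.off r).mono hfr
  have hg0 := hd.gne
  have ht0 := hd.tne
  have ht0' := hd'.tne
  have hqf := gen_ne hU (hf (P q))
  have hqf' := gen_ne hU (hf (P' q))
  have hgf := gen_ne hU f
  have hu0 : u ≠ 0 := by
    rw [hu]
    exact div_ne_zero (mul_ne_zero hqf hqf') hgf
  have ho0 : o ≠ 0 := by rw [ho]; exact gen_ne hU _
  have hne : t - t' ≠ 0 := sub_ne_zero.mpr htt
  have hk0 : k ≠ 0 := by rw [hk]; exact mul_ne_zero hne hu0
  have hz := yy_sub_ne hx hpq hqr hpr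
  have hz' := yy_sub_ne hx' hpq hqr hpr
  have hcs := cS_nonneg S
  have hks := kS_nonneg S
  have hh := ht_nonneg x
  set s : ℝ := ((Spl S).card : ℝ) with hs
  have hs0 : 0 ≤ s := Nat.cast_nonneg _
  set U : ℝ := X + cS S with hUU
  have hU0 : 0 ≤ U := by rw [hUU]; linarith
  -- sizes of the ideals
  have hlq : len (hf (P q)) ≤ U := by
    have h1 := len_mono (hf_le (P q))
    have h2 := len_le hx hP q
    rw [hUU]; linarith
  have hlq' : len (hf (P' q)) ≤ U := by
    have h1 := len_mono (hf_le (P' q))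
    have h2 := len_le hx' hP' q
    rw [hUU]; linarith
  have hlf : len f ≤ U := by
    have h1 := len_mono hfr
    have h2 := len_le hx hP r
    rw [hUU]; linarith
  have hlo : len (od (P q)) ≤ U := by
    have h1 := len_mono (od_le (P q))
    have h2 := len_le hx hP q
    rw [hUU]; linarith
  have hsu : ∀ v ∈ Spl S, ls v u = ls v (gen ϖ (hf (P q))) + ls v (gen ϖ (hf (P' q))) -
      ls v (gen ϖ f) := by
    intro v _
    rw [hu, ls_div v (mul_ne_zero hqf hqf') hgf, ls_mul v hqf hqf']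
  have hgen : ∀ {a : Idl K}, OffS S a → len a ≤ U → ∀ v ∈ Spl S, |ls v (gen ϖ a)| ≤ C * U := by
    intro a ha hl v hv
    exact (spec_gen hU ha hv).trans (mul_le_mul_of_nonneg_left hl (by linarith))
  have hsub : ∀ v ∈ Spl S, |ls v u| ≤ 3 * (C * U) := by
    intro v hv
    have h1 := _root_.abs_le.mp (hgen (OffS.hf' (hP.off q)) hlq v hv)
    have h2 := _root_.abs_le.mp (hgen (OffS.hf' (hP'.off q)) hlq' v hv)
    have h3 := _root_.abs_le.mp (hgen hfo hlf v hv)
    rw [hsu v hv, _root_.abs_le]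
    constructor <;> linarith [h1.1, h1.2, h2.1, h2.2, h3.1, h3.2]
  have hso : ∀ v ∈ Spl S, |ls v o| ≤ C * U := by
    intro v hv
    rw [ho]
    exact hgen (OffS.od' (hP.off q)) hlo v hv
  have hCU : 0 ≤ C * U := mul_nonneg (by linarith) hU0
  have hA0 : 0 ≤ A := by
    by_cases he : (Spl S).Nonempty
    · obtain ⟨v, hv⟩ := he
      exact (abs_nonneg _).trans (hd.tl v hv)
    · exfalso
      obtain ⟨w⟩ : Nonempty (InfinitePlace K) := inferInstance
      exact he ⟨_, mem_Spl_inl S w⟩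
  have hBge : ∀ y : ℝ, y ≤ 2 * A + kS S + (8 + 8 * C) * U → y ≤ BB S C A X := by
    intro y hy
    unfold BB
    rw [← hs, ← hUU]
    have h1 : 0 ≤ 2 * A + kS S + (8 + 8 * C) * U := by
      have : 0 ≤ (8 + 8 * C) * U := mul_nonneg (by linarith) hU0
      linarith
    nlinarith
  -- integrality of `k`
  have hki : ∀ v, v ∉ S → fv v k ≤ 1 := by
    intro v hv
    have hN := Nv_pos v
    have e1 : fv v u = (Nv v) ^ ((f v : ℤ) - hf (P q) v - hf (P' q) v) := by
      rw [hu, map_div₀, map_mul, fv_gen hU (OffS.hf' (hP.off q)) hv,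
        fv_gen hU (OffS.hf' (hP'.off q)) hv, fv_gen hU hfo hv, ← zpow_add₀ hN.ne',
        ← zpow_sub₀ hN.ne']
      congr 1
      ring
    rw [hk, map_mul, e1]
    by_cases hfv : f v = 0
    · have e2 : fv v (t - t') ≤ (Nv v) ^ ((hf (P q) v : ℤ) + hf (P' q) v) := by
        rw [sub_eq_add_neg]
        refine (fv_na v _ _).trans (max_le ?_ ?_)
        · rw [hd.tv v hv, zpow_le_zpow_iff_right₀ (Nv_one_lt v)]
          omega
        · rw [map_neg_eq_map, hd'.tv v hv, zpow_le_zpow_iff_right₀ (Nv_one_lt v)]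
          omega
      refine (mul_le_mul_of_nonneg_right e2 (zpow_pos hN _).le).trans (le_of_eq ?_)
      rw [← zpow_add₀ hN.ne', hfv]
      have : (hf (P q) v : ℤ) + (hf (P' q) v : ℤ) + (((0 : ℕ) : ℤ) - (hf (P q) v : ℤ) -
        (hf (P' q) v : ℤ)) = 0 := by push_cast; ring
      rw [this, zpow_zero]
    · have e2 := hcong v hfv
      have e3 : P r v ≠ 0 := by
        have := hfr v
        omega
      have e4 : P' r v ≠ 0 := by
        have := hfr' v
        omega
      have e5 : P q v = 0 := (hP.cop hqr v).resolve_right e3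
      have e6 : P' q v = 0 := (hP'.cop hqr v).resolve_right e4
      have e7 : hf (P q) v = 0 := by rw [hf_apply, e5]
      have e8 : hf (P' q) v = 0 := by rw [hf_apply, e6]
      refine (mul_le_mul_of_nonneg_right e2 (zpow_pos hN _).le).trans (le_of_eq ?_)
      rw [← zpow_add₀ hN.ne', e7, e8]
      have : -(f v : ℤ) + ((f v : ℤ) - ((0 : ℕ) : ℤ) - ((0 : ℕ) : ℤ)) = 0 := by push_cast; ring
      rw [this, zpow_zero]
  have hlsk : ∀ v ∈ Spl S, ls v k ≤ 2 * A + kS S + (8 + 8 * C) * U := by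
    intro v hv
    have e1 := hclose v hv
    have e2 := _root_.abs_le.mp (hd.tl v hv)
    have e3 := lm_ge hx v r
    have e4 := kc_le hv
    have e5 := _root_.abs_le.mp (hsub v hv)
    have e6 := mt_log_le hv
    rw [hk, ls_mul v hne hu0]
    have e7 : cS S ≤ U := by rw [hUU]; linarith
    nlinarith
  obtain ⟨ak, hak⟩ := exists_ide S hk0 hki
  refine ⟨hk0, hki, ?_, ?_, ?_, ?_, ?_, ?_, ?_⟩
  · intro v hv
    refine (hak.abs_le hlsk hv).trans ?_
    unfold BB
    rw [← hs, ← hUU]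
    have h1 : 0 ≤ 2 * A + kS S + (8 + 8 * C) * U := by
      have : 0 ≤ (8 + 8 * C) * U := mul_nonneg (by linarith) hU0
      linarith
    nlinarith
  · have e1 : ∑ v ∈ Spl S, ls v k ≤ ∑ v ∈ Spl S, (ls v t - lm v r x + kc v +
        (ls v (gen ϖ (hf (P q))) + ls v (gen ϖ (hf (P' q))) - ls v (gen ϖ f))) := by
      refine Finset.sum_le_sum fun v hv => ?_
      rw [hk, ls_mul v hne hu0, hsu v hv]
      linarith [hclose v hv]
    refine e1.trans (le_of_eq ?_)
    rw [Finset.sum_add_distrib, Finset.sum_add_distrib, Finset.sum_sub_distrib,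
      Finset.sum_sub_distrib, Finset.sum_add_distrib,
      ← (ide_gen hU (OffS.hf' (hP.off q))).len_eq, ← (ide_gen hU (OffS.hf' (hP'.off q))).len_eq,
      ← (ide_gen hU hfo).len_eq]
    have e2 : Ide S (t * gen ϖ (hf (P q))) (hf (P p)) := by
      refine ⟨mul_ne_zero ht0 hqf, OffS.hf' (hP.off p), fun v hv => ?_⟩
      rw [map_mul, hd.tv v hv, fv_gen hU (OffS.hf' (hP.off q)) hv, ← zpow_add₀ (Nv_pos v).ne']
      congr 1
      ring
    have e3 := e2.len_eq
    have e4 : ∑ v ∈ Spl S, ls v (t * gen ϖ (hf (P q))) =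
        ∑ v ∈ Spl S, ls v t + len (hf (P q)) := by
      rw [(ide_gen hU (OffS.hf' (hP.off q))).len_eq, ← Finset.sum_add_distrib]
      exact Finset.sum_congr rfl fun v _ => ls_mul v ht0 hqf
    rw [e4] at e3
    unfold kS
    linarith
  · have hpf : P r - f + f = P r := tsub_add_cancel_of_le hfr
    have hpf' : P' r - f + f = P' r := tsub_add_cancel_of_le hfr'
    refine ⟨?_, ?_, fun v hv => ?_⟩
    · rw [hn]
      exact mul_ne_zero (mul_ne_zero hz hz') (pow_ne_zero 2 (mul_ne_zero ho0 hu0))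
    · exact ((hP.off r).mono tsub_le_self).add ((hP'.off r).mono tsub_le_self)
    · have hN := Nv_pos v
      rw [hn, ho, hu, map_mul, map_mul, map_pow, map_mul, map_div₀, map_mul,
        fv_yy_sub hx hP hpq hqr hpr hv, fv_yy_sub hx' hP' hpq hqr hpr hv,
        fv_gen hU (OffS.od' (hP.off q)) hv, fv_gen hU (OffS.hf' (hP.off q)) hv,
        fv_gen hU (OffS.hf' (hP'.off q)) hv, fv_gen hU hfo hv, ← zpow_add₀ hN.ne',
        ← zpow_add₀ hN.ne', ← zpow_sub₀ hN.ne', ← zpow_add₀ hN.ne', ← zpow_natCast,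
        ← zpow_mul, ← zpow_add₀ hN.ne']
      congr 1
      have e1 : (P r - f : Idl K) v + f v = P r v := by rw [← Finsupp.add_apply, hpf]
      have e2 : (P' r - f : Idl K) v + f v = P' r v := by rw [← Finsupp.add_apply, hpf']
      have e3 : P q v % 2 = P' q v % 2 := by rw [← od_apply, ← od_apply, hoq]
      rw [Finsupp.add_apply, od_apply, hf_apply, hf_apply]
      generalize (P r - f : Idl K) v = y1 at e1 ⊢
      generalize (P' r - f : Idl K) v = y2 at e2 ⊢
      push_cast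
      omega
  · intro v hv
    refine (?_ : _ ≤ 2 * A + kS S + (8 + 8 * C) * U).trans (hBge _ le_rfl)
    have e1 : ls v n = (ls v (yy p q x - 1) + ls v (yy p q x' - 1)) + 2 * (ls v o + ls v u) := by
      rw [hn, ls_mul v (mul_ne_zero hz hz') (pow_ne_zero 2 (mul_ne_zero ho0 hu0)),
        ls_mul v hz hz', ls_pow, ls_mul v ho0 hu0]
      push_cast
      ring
    rw [e1, ls_yy_sub hx hpq hqr hpr, ls_yy_sub hx' hpq hqr hpr]
    have f1 := lm_ge hx v q
    have f2 := lm_ge hx v r
    have f3 := lm_ge hx' v q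
    have f4 := lm_ge hx' v r
    have f5 := lm_le hx hv q
    have f6 := lm_le hx hv r
    have f7 := lm_le hx' hv q
    have f8 := lm_le hx' hv r
    have f9 := mt_log_le hv
    have g1 := _root_.abs_le.mp (hso v hv)
    have g2 := _root_.abs_le.mp (hsub v hv)
    rw [_root_.abs_le]
    constructor <;> nlinarith [g1.1, g1.2, g2.1, g2.2]
  · rw [hn, hm, hk, hd.eq, hd'.eq]
    field_simp
    ring
  · refine ⟨mul_ne_zero (neg_ne_zero.mpr hg0) (pow_ne_zero 2 ho0), ?_, fun v hv => ?_⟩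
    · exact (OffS.od' (hP.off p)).add (OffS.od' (hP.off q))
    · have hN := Nv_pos v
      have e1 : fv v g = (Nv v) ^ ((od (P q) v : ℤ) - od (P p) v) := by
        have e2 : fv v (yy p q x) = fv v (g * t ^ 2) := congrArg (fun y => fv v y) hd.eq
        rw [fv_yy hP p q hv, map_mul, map_pow, hd.tv v hv, ← zpow_natCast, ← zpow_mul] at e2
        have e3 : (Nv v) ^ (((hf (P q) v : ℤ) - hf (P p) v) * ((2 : ℕ) : ℤ)) ≠ 0 :=
          (zpow_pos hN _).ne'
        have e4 := (eq_div_iff e3).mpr e2.symm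
        rw [e4, ← zpow_sub₀ hN.ne']
        congr 1
        simp only [od_apply, hf_apply]
        push_cast
        omega
      rw [ho, map_mul, map_neg_eq_map, map_pow, e1, fv_gen hU (OffS.od' (hP.off q)) hv,
        ← zpow_natCast, ← zpow_mul, ← zpow_add₀ hN.ne']
      congr 1
      rw [Finsupp.add_apply]
      push_cast
      ring
  · intro v hv
    refine (?_ : _ ≤ 2 * A + kS S + (8 + 8 * C) * U).trans (hBge _ le_rfl)
    have e1 : ls v (-g * o ^ 2) = ls v (yy p q x) - 2 * ls v t + 2 * ls v o := by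
      have e2 := ls_mul v hg0 (pow_ne_zero 2 ht0)
      rw [← hd.eq, ls_pow] at e2
      have e3 : ls v (-g * o ^ 2) = ls v g + 2 * ls v o := by
        rw [ls_mul v (neg_ne_zero.mpr hg0) (pow_ne_zero 2 ho0), ls_pow]
        unfold ls
        rw [map_neg_eq_map]
        push_cast
        ring
      push_cast at e2
      linarith
    rw [e1, ls_yy hx]
    have f1 := lm_ge hx v q
    have f2 := lm_ge hx v p
    have f5 := lm_le hx hv q
    have f6 := lm_le hx hv p
    have f9 := mt_log_le hv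
    have g1 := _root_.abs_le.mp (hso v hv)
    have g2 := _root_.abs_le.mp (hd.tl v hv)
    rw [_root_.abs_le]
    constructor <;> nlinarith [g1.1, g1.2, g2.1, g2.2]

end Pool.Agent.KS6_20.QB
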