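import Mathlib
import Pool.Agent.KS6_20.QB.Core

/-!
# Signs of the roots in a family of points
-/

set_option autoImplicit false
set_option linter.unusedSectionVars false
set_option linter.unusedVariables false

namespace Pool.Agent.KS6_20.QB

open NumberField IsDedekindDomain Finset Pool.Agent.H691R3 Pool.Agent.W223.AK

variable {K : Type} [Field K] [NumberField K]

theorem exists_rep {α β : Type*} [Nonempty α] (E : Finset α) (f : α → β) :
    ∃ rep : β → α, ∀ x ∈ E, rep (f x) ∈ E ∧ f (rep (f x)) = f x := by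
  classical
  have h : ∀ b : β, ∃ y : α, (∃ x ∈ E, f x = b) → (y ∈ E ∧ f y = b) := by
    intro b
    by_cases h : ∃ x ∈ E, f x = b
    · obtain ⟨x, hx, hxb⟩ := h
      exact ⟨x, fun _ => ⟨hx, hxb⟩⟩
    · exact ⟨Classical.arbitrary α, fun h' => absurd h' h⟩
  choose rep hrep using h
  exact ⟨rep, fun x hx => hrep (f x) ⟨x, hx, rfl⟩⟩

theorem root_or {S : Finset (Pr K)} (hS : SGood S 2) {p q r : Fin 3} (hpq : p ≠ q) (hqr : q ≠ r)
    (hpr : p ≠ r) {P P₁ : Fin 3 → Idl K} {A : ℝ} {x x₁ g t t₁ : K} (hx : Pt x) (hx₁ : Pt x₁)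
    (hP : IsP S x P) (hP₁ : IsP S x₁ P₁) (hd : Dat S P p q A x g t) (hd₁ : Dat S P₁ p q A x₁ g t₁)
    {v : Pr K} {m : ℕ} (hv : v ∉ S) (hm : m ≠ 0) (h1 : P r v = m) (h2 : P₁ r v = m) :
    fv v (t - t₁) ≤ (Nv v) ^ (-(m : ℤ)) ∨ fv v (t + t₁) ≤ (Nv v) ^ (-(m : ℤ)) := by
  have hN := Nv_pos v
  have hq : P q v = 0 := (hP.cop hqr v).resolve_right (by omega)
  have hp : P p v = 0 := (hP.cop hpr v).resolve_right (by omega)
  have hq₁ : P₁ q v = 0 := (hP₁.cop hqr v).resolve_right (by omega)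
  have ht : fv v t = 1 := by
    rw [hd.tv v hv, hf_apply, hf_apply, hq, hp]
    simp
  have hy : fv v (yy p q x) = 1 := by
    rw [fv_yy hP p q hv, hq, hp]
    simp
  have hg : fv v g = 1 := by
    have e : fv v (yy p q x) = fv v g * fv v t ^ 2 := by rw [hd.eq, map_mul, map_pow]
    rw [hy, ht] at e
    simpa using e.symm
  have h3 : t ^ 2 - t₁ ^ 2 = ((yy p q x - 1) + -(yy p q x₁ - 1)) / g := by
    rw [hd.eq, hd₁.eq]
    have := hd.gne
    field_simp
    ring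
  have h4 : fv v (t ^ 2 - t₁ ^ 2) ≤ (Nv v) ^ (-(m : ℤ)) := by
    rw [h3, map_div₀, hg, div_one]
    refine (fv_na v _ _).trans (max_le ?_ ?_)
    · rw [fv_yy_sub hx hP hpq hqr hpr hv, hq, h1]
      simp
    · rw [map_neg_eq_map, fv_yy_sub hx₁ hP₁ hpq hqr hpr hv, hq₁, h2]
      simp
  have h5 : (t - t₁) * (t + t₁) = t ^ 2 - t₁ ^ 2 := by ring
  have h6 : fv v (t - t₁) * fv v (t + t₁) ≤ (Nv v) ^ (-(m : ℤ)) := by
    rw [← map_mul, h5]
    exact h4
  have h7 : (t - t₁) + (t + t₁) = (2 : K) * t := by ring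
  have h8 : 1 ≤ max (fv v (t - t₁)) (fv v (t + t₁)) := by
    have := fv_na v (t - t₁) (t + t₁)
    rw [h7, map_mul, fv_two hS hv, ht, one_mul] at this
    exact this
  rcases le_max_iff.mp h8 with h9 | h9
  · right
    have := (fv v).nonneg (t + t₁)
    nlinarith
  · left
    have := (fv v).nonneg (t - t₁)
    nlinarith

/-- the class of a point -/
noncomputable def ck0 (P : K → Fin 3 → Idl K) (p q : Fin 3) {M : ℕ} (col : K → Fin M) (x : K) :
    (Idl K × Idl K) × Fin M := ((od (P x p), od (P x q)), col x)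

/-- the data of a family of points -/
structure Fam (S : Finset (Pr K)) (P : K → Fin 3 → Idl K) (p q r : Fin 3) (A X : ℝ) {M : ℕ}
    (E : Finset K) (col : K → Fin M) (g t : K → K) : Prop where
  pq : p ≠ q
  qr : q ≠ r
  pr : p ≠ r
  pt : ∀ x ∈ E, Pt x ∧ IsP S x (P x) ∧ ht x ≤ X
  dat : ∀ x ∈ E, Dat S (P x) p q A x (g x) (t x)
  same : ∀ x ∈ E, ∀ x' ∈ E, od (P x p) = od (P x' p) → od (P x q) = od (P x' q) →
    col x = col x' → g x = g x'
  clm : ∀ x ∈ E, ∀ y ∈ E, ∀ l, ∀ v ∈ Spl S, |lm v l x - lm v l y| ≤ 1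

section

variable {S : Finset (Pr K)} {P : K → Fin 3 → Idl K} {p q r : Fin 3} {A X : ℝ} {M : ℕ}
  {E : Finset K} {col : K → Fin M} {g t : K → K}

theorem Fam.mono (F : Fam S P p q r A X E col g t) {E' : Finset K} (h : E' ⊆ E) :
    Fam S P p q r A X E' col g t :=
  ⟨F.pq, F.qr, F.pr, fun x hx => F.pt x (h hx), fun x hx => F.dat x (h hx),
    fun x hx x' hx' => F.same x (h hx) x' (h hx'), fun x hx y hy => F.clm x (h hx) y (h hy)⟩

theorem Fam.g_eq (F : Fam S P p q r A X E col g t) {x x' : K} (hx : x ∈ E) (hx' : x' ∈ E)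
    (h : ck0 P p q col x = ck0 P p q col x') : g x = g x' := by
  unfold ck0 at h
  rw [Prod.mk.injEq, Prod.mk.injEq] at h
  exact F.same x hx x' hx' h.1.1 h.1.2 h.2

theorem Fam.dat' (F : Fam S P p q r A X E col g t) {x x' : K} (hx : x ∈ E) (hx' : x' ∈ E)
    (h : ck0 P p q col x = ck0 P p q col x') : Dat S (P x') p q A x' (g x) (t x') := by
  rw [F.g_eq hx hx' h]
  exact F.dat x' hx'

theorem Fam.inj (F : Fam S P p q r A X E col g t) {x x' : K} (hx : x ∈ E) (hx' : x' ∈ E)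
    (h : ck0 P p q col x = ck0 P p q col x') (ht : t x = t x') : x = x' := by
  have h1 := (F.dat x hx).eq
  have h2 := (F.dat' hx hx' h).eq
  rw [ht, ← h2] at h1
  exact yy_inj (F.pt x hx).1 (F.pt x' hx').1 F.pq h1

theorem exists_sp (F : Fam S P p q r A X E col g t) : ∃ sp : K → Finset (Pl K),
    (∀ x, sp x ⊆ Spl S) ∧ ∀ x ∈ E, ∀ x' ∈ E, ck0 P p q col x = ck0 P p q col x' →
      sp x = sp x' → t x ≠ t x' →
      ∀ v ∈ Spl S, ls v (t x - t x') ≤ ls v (t x) - lm v r x + kc v := by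
  classical
  obtain ⟨rep, hrep⟩ := exists_rep E (ck0 P p q col)
  refine ⟨fun x => (Spl S).filter (fun v => av v (t x - t (rep (ck0 P p q col x))) ≤
    av v (t x + t (rep (ck0 P p q col x)))), fun x => Finset.filter_subset _ _, ?_⟩
  intro x hx x' hx' hck hsp htt v hv
  obtain ⟨h0, h0'⟩ := hrep x hx
  simp only [← hck] at hsp
  set x₀ := rep (ck0 P p q col x) with hx₀
  have hs : av v (t x - t x₀) ≤ av v (t x + t x₀) ↔ av v (t x' - t x₀) ≤ av v (t x' + t x₀) := by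
    have h1 : v ∈ (Spl S).filter (fun v => av v (t x - t x₀) ≤ av v (t x + t x₀)) ↔
        v ∈ (Spl S).filter (fun v => av v (t x' - t x₀) ≤ av v (t x' + t x₀)) := by rw [hsp]
    simp only [Finset.mem_filter, hv, true_and] at h1
    exact h1
  exact close_two F.pq F.qr F.pr (F.pt x hx).1 (F.pt x' hx').1 (F.pt x₀ h0).1 (F.dat x hx)
    (F.dat' hx hx' hck) (F.dat' hx h0 h0'.symm) htt (fun l => F.clm x hx x' hx' l v hv)
    (fun l => F.clm x hx x₀ h0 l v hv) (fun l => F.clm x' hx' x₀ h0 l v hv) hs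

theorem ex_eq_of_ne {a : Idl K} {I : Set ℕ} {v : Pr K} (h : ex a I v ≠ 0) : ex a I v = a v := by
  classical
  rw [ex_apply] at h ⊢
  split_ifs at h ⊢ with h1
  · rfl
  · exact absurd rfl h

theorem exists_sg (hS : SGood S 2) (F : Fam S P p q r A X E col g t) (I : Set ℕ) :
    ∃ sg : K → Finset (Pr K), (∀ x, sg x ⊆ (ex (P x r) I).support) ∧
      ∀ x ∈ E, ∀ x' ∈ E, ck0 P p q col x = ck0 P p q col x' → ex (P x r) I = ex (P x' r) I →
      sg x = sg x' → ∀ v, ex (P x r) I v ≠ 0 →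
      fv v (t x - t x') ≤ (Nv v) ^ (-(ex (P x r) I v : ℤ)) := by
  classical
  obtain ⟨rep, hrep⟩ := exists_rep E (fun x => (ck0 P p q col x, ex (P x r) I))
  refine ⟨fun x => (ex (P x r) I).support.filter (fun v =>
    fv v (t x - t (rep (ck0 P p q col x, ex (P x r) I))) ≤ (Nv v) ^ (-(ex (P x r) I v : ℤ))),
    fun x => Finset.filter_subset _ _, ?_⟩
  intro x hx x' hx' hck hex hsg v hv
  obtain ⟨h0, h0'⟩ := hrep x hx
  simp only [← hck, ← hex] at hsg
  set x₁ := rep (ck0 P p q col x, ex (P x r) I) with hx₁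
  rw [Prod.mk.injEq] at h0'
  have hvS : v ∉ S := by
    intro h
    apply hv
    have := (F.pt x hx).2.1.off r v h
    have h2 := ex_le (P x r) I v
    omega
  have hs : fv v (t x - t x₁) ≤ (Nv v) ^ (-(ex (P x r) I v : ℤ)) ↔
      fv v (t x' - t x₁) ≤ (Nv v) ^ (-(ex (P x r) I v : ℤ)) := by
    have h1 : v ∈ (ex (P x r) I).support.filter (fun v =>
        fv v (t x - t x₁) ≤ (Nv v) ^ (-(ex (P x r) I v : ℤ))) ↔
        v ∈ (ex (P x r) I).support.filter (fun v =>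
        fv v (t x' - t x₁) ≤ (Nv v) ^ (-(ex (P x r) I v : ℤ))) := by rw [hsg]
    simp only [Finset.mem_filter, Finsupp.mem_support_iff, hv, ne_eq, not_false_eq_true,
      true_and] at h1
    exact h1
  have e1 : P x r v = ex (P x r) I v := (ex_eq_of_ne hv).symm
  have e2 : P x' r v = ex (P x r) I v := by
    have hv' : ex (P x' r) I v ≠ 0 := by rw [← hex]; exact hv
    rw [← ex_eq_of_ne hv', hex]
  have e3 : P x₁ r v = ex (P x r) I v := by
    have hv' : ex (P x₁ r) I v ≠ 0 := by rw [h0'.2]; exact hv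
    rw [← ex_eq_of_ne hv', h0'.2]
  have k1 := root_or hS F.pq F.qr F.pr (F.pt x hx).1 (F.pt x₁ h0).1 (F.pt x hx).2.1
    (F.pt x₁ h0).2.1 (F.dat x hx) (F.dat' hx h0 h0'.1.symm) hvS hv e1 e3
  have k2 := root_or hS F.pq F.qr F.pr (F.pt x' hx').1 (F.pt x₁ h0).1 (F.pt x' hx').2.1
    (F.pt x₁ h0).2.1 (F.dat' hx hx' hck) (F.dat' hx h0 h0'.1.symm) hvS hv e2 e3
  by_cases hc : fv v (t x - t x₁) ≤ (Nv v) ^ (-(ex (P x r) I v : ℤ))
  · have hc' := hs.mp hc
    have e4 : t x - t x' = (t x - t x₁) + -(t x' - t x₁) := by ring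
    rw [e4]
    refine (fv_na v _ _).trans (max_le hc ?_)
    rw [map_neg_eq_map]
    exact hc'
  · have hc' : ¬ fv v (t x' - t x₁) ≤ (Nv v) ^ (-(ex (P x r) I v : ℤ)) := fun h => hc (hs.mpr h)
    have e4 : t x - t x' = (t x + t x₁) + -(t x' + t x₁) := by ring
    rw [e4]
    refine (fv_na v _ _).trans (max_le (k1.resolve_left hc) ?_)
    rw [map_neg_eq_map]
    exact k2.resolve_left hc'

end

end Pool.Agent.KS6_20.QB
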