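import Mathlib
import Pool.Agent.KS6_20.QB.Root

/-!
# The number of points of a class with the same third ideal
-/

set_option autoImplicit false
set_option linter.unusedSectionVars false
set_option linter.unusedVariables false

namespace Pool.Agent.KS6_20.QB

open NumberField IsDedekindDomain Finset Pool.Agent.H691R3 Pool.Agent.W223.AK

variable {K : Type} [Field K] [NumberField K]

/-- a bound for all sizes, in units of `X + 1` -/
noncomputable def BA (S : Finset (Pr K)) (C A : ℝ) : ℝ :=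
  (((Spl S).card : ℝ) + 2) * (2 * A + kS S + (8 + 8 * C) * (1 + cS S)) + (1 + cS S)

theorem BA_nonneg (S : Finset (Pr K)) {C A : ℝ} (hC : 1 ≤ C) (hA : 0 ≤ A) : 0 ≤ BA S C A := by
  have h1 := kS_nonneg S
  have h2 := cS_nonneg S
  unfold BA
  positivity

theorem BB_le_BA (S : Finset (Pr K)) {C A X : ℝ} (hC : 1 ≤ C) (hX : 0 ≤ X) :
    BB S C (A * (X + 1)) X ≤ BA S C A * (X + 1) := by
  have h1 := kS_nonneg S
  have h2 := cS_nonneg S
  have h3 : (0 : ℝ) ≤ ((Spl S).card : ℝ) + 2 := by positivity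
  have h4 : kS S ≤ kS S * (X + 1) := by nlinarith
  have h5 : X + cS S ≤ (1 + cS S) * (X + 1) := by nlinarith [mul_nonneg h2 hX]
  have h6 : (8 + 8 * C) * (X + cS S) ≤ (8 + 8 * C) * ((1 + cS S) * (X + 1)) :=
    mul_le_mul_of_nonneg_left h5 (by linarith)
  have h7 : 2 * (A * (X + 1)) + kS S + (8 + 8 * C) * (X + cS S) ≤
      (2 * A + kS S + (8 + 8 * C) * (1 + cS S)) * (X + 1) := by linarith
  have h8 := mul_le_mul_of_nonneg_left h7 h3
  have h9 : 0 ≤ (1 + cS S) * (X + 1) := by positivity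
  unfold BB BA
  linarith

theorem len_hf_le (a : Idl K) : len (hf a) ≤ len a / 2 := by
  have h1 := len_od a
  have h2 := len_nonneg (od a)
  linarith

theorem mult (hCNT : StmtCNT K) (hSU : StmtSU K) {S : Finset (Pr K)} {ϖ : Pr K → K} {C : ℝ}
    (hU : Unif S ϖ C) (A ε : ℝ) (hA : 0 ≤ A) (hε : 0 < ε) :
    ∃ D : ℝ, 0 < D ∧ ∀ (X : ℝ) (P : K → Fin 3 → Idl K) (p q r : Fin 3) (M : ℕ) (E : Finset K)
      (col : K → Fin M) (g t : K → K), 0 ≤ X → Fam S P p q r (A * (X + 1)) X E col g t →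
      (∀ x ∈ E, ∀ y ∈ E, |ht x - ht y| ≤ 1) →
      (∀ x ∈ E, ∀ y ∈ E, ck0 P p q col x = ck0 P p q col y ∧ P x r = P y r) →
      (∀ x ∈ E, ∀ y ∈ E, ∀ v, P x r v ≠ 0 → fv v (t x - t y) ≤ (Nv v) ^ (-(P x r v : ℤ))) →
      (∀ x ∈ E, ∀ y ∈ E, t x ≠ t y → ∀ v ∈ Spl S,
        ls v (t x - t y) ≤ ls v (t x) - lm v r x + kc v) →
      (E.card : ℝ) ≤ D * Real.exp (ε * (X + 1)) := by
  classical
  have hC := hU.one_le
  have hBA := BA_nonneg S hC hA
  obtain ⟨D1, hD1, h1⟩ := count_same hSU S (BA S C A) (ε / 2) hBA (by positivity)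
  obtain ⟨D2, hD2, h2⟩ := count_int hCNT hSU S (BA S C A) (ε / 2) hBA (by positivity)
  set c0 : ℝ := 1 / 2 + cS S + kS S with hc0
  have hcs := cS_nonneg S
  have hks := kS_nonneg S
  refine ⟨D1 * (D2 * Real.exp c0 * 2) + 1, by positivity, ?_⟩
  intro X P p q r M E col g t hX F hht hsame hcong hclose
  have hX1 : 0 ≤ X + 1 := by linarith
  have hexp1 : 1 ≤ Real.exp (ε * (X + 1)) := Real.one_le_exp (by positivity)
  rcases E.eq_empty_or_nonempty with rfl | ⟨x₀, hx₀⟩
  · rw [Finset.card_empty, Nat.cast_zero]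
    positivity
  set E' := E.erase x₀ with hE'
  have hcard : (E.card : ℝ) = (E'.card : ℝ) + 1 := by
    rw [hE', ← Finset.card_erase_add_one hx₀]
    push_cast
    ring
  have hmem : ∀ x ∈ E', x ∈ E ∧ t x₀ ≠ t x := by
    intro x hx
    rw [hE', Finset.mem_erase] at hx
    refine ⟨hx.2, fun h => hx.1 ?_⟩
    exact (F.inj hx₀ hx.2 (hsame x₀ hx₀ x hx.2).1 h).symm
  set f : Idl K := P x₀ r with hf0
  set u : K → K := fun x => gen ϖ (hf (P x₀ q)) * gen ϖ (hf (P x q)) / gen ϖ f with hu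
  set o : K := gen ϖ (od (P x₀ q)) with ho
  set k : K → K := fun x => (t x₀ - t x) * u x with hk
  set m : K → K := fun x => (g x₀ * t x₀ * t x - 1) * (o * u x) with hm
  set n : K → K := fun x => ((yy p q x₀ - 1) * (yy p q x - 1)) * (o * u x) ^ 2 with hn
  have hcore := fun x (hx : x ∈ E') =>
    core hU F.pq F.qr F.pr (F.pt x₀ hx₀).1 (F.pt x (hmem x hx).1).1 (F.pt x₀ hx₀).2.1
      (F.pt x (hmem x hx).1).2.1 (F.dat x₀ hx₀)
      (F.dat' hx₀ (hmem x hx).1 (hsame x₀ hx₀ x (hmem x hx).1).1)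
      (by
        have h3 := (hsame x₀ hx₀ x (hmem x hx).1).1
        unfold ck0 at h3
        rw [Prod.mk.injEq, Prod.mk.injEq] at h3
        exact h3.1.1)
      (by
        have h3 := (hsame x₀ hx₀ x (hmem x hx).1).1
        unfold ck0 at h3
        rw [Prod.mk.injEq, Prod.mk.injEq] at h3
        exact h3.1.2)
      (hmem x hx).2 (f := f) le_rfl (by rw [hf0, (hsame x₀ hx₀ x (hmem x hx).1).2])
      (hcong x₀ hx₀ x (hmem x hx).1) (hclose x₀ hx₀ x (hmem x hx).1 (hmem x hx).2)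
      (F.pt x₀ hx₀).2.2 (F.pt x (hmem x hx).1).2.2 (u := u x) (o := o) (k := k x) (m := m x)
      (n := n x) rfl rfl rfl rfl rfl
  have hBB := BB_le_BA S (A := A) hC hX
  have hPr : ∀ x ∈ E', (P x₀ r - f) + (P x r - f) = 0 := by
    intro x hx
    rw [hf0, ← (hsame x₀ hx₀ x (hmem x hx).1).2, tsub_self, add_zero]
  have hunz : ∀ x, u x ≠ 0 := by
    intro x
    exact div_ne_zero (mul_ne_zero (gen_ne hU _) (gen_ne hU _)) (gen_ne hU _)
  have honz : o ≠ 0 := gen_ne hU _
  have hinj : ∀ x ∈ E', ∀ x' ∈ E', k x = k x' → m x = m x' → x = x' := by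
    intro x hx x' hx' hkk hmm
    obtain ⟨hxE, hxt⟩ := hmem x hx
    obtain ⟨hxE', hxt'⟩ := hmem x' hx'
    have e1 : (g x₀ * t x₀ * t x - 1) * (t x₀ - t x') = (g x₀ * t x₀ * t x' - 1) * (t x₀ - t x) := by
      have e2 : (g x₀ * t x₀ * t x - 1) * (t x₀ - t x') * (o * u x * u x') =
          (g x₀ * t x₀ * t x' - 1) * (t x₀ - t x) * (o * u x * u x') := by
        have e3 : (g x₀ * t x₀ * t x - 1) * (t x₀ - t x') * (o * u x * u x') = m x * k x' := by
          simp only [hm, hk]; ring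
        have e4 : (g x₀ * t x₀ * t x' - 1) * (t x₀ - t x) * (o * u x * u x') = m x' * k x := by
          simp only [hm, hk]; ring
        rw [e3, e4, hkk, hmm]
      exact mul_right_cancel₀ (mul_ne_zero (mul_ne_zero honz (hunz x)) (hunz x')) e2
    have e5 : (g x₀ * t x₀ ^ 2 - 1) * (t x - t x') = 0 := by linear_combination e1
    have e6 : g x₀ * t x₀ ^ 2 - 1 ≠ 0 := by
      rw [← (F.dat x₀ hx₀).eq]
      exact yy_sub_ne (F.pt x₀ hx₀).1 F.pq F.qr F.pr
    have e7 : t x = t x' := sub_eq_zero.mp ((mul_eq_zero.mp e5).resolve_left e6)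
    refine F.inj hxE hxE' ?_ e7
    rw [← (hsame x₀ hx₀ x hxE).1, ← (hsame x₀ hx₀ x' hxE').1]
  have hfin : (E'.card : ℝ) ≤ (D1 * Real.exp (ε / 2 * (X + 1))) *
      ((D2 * Real.exp (ε / 2 * (X + 1) + (c0 - len (0 : Idl K)))) * 2) := by
    refine fib_le E' n _ _ (by positivity) ?_ ?_
    · refine h1 (X + 1) (E'.image n) 0 hX1 ?_
      intro w hw
      rw [Finset.mem_image] at hw
      obtain ⟨x, hx, rfl⟩ := hw
      obtain ⟨_, _, _, _, c5, c6, _, _, _⟩ := hcore x hx
      rw [hPr x hx] at c5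
      exact ⟨c5, fun v hv => (c6 v hv).trans hBB⟩
    · intro n₀ hn₀
      set E2 := E'.filter (fun x => n x = n₀) with hE2
      have hm2 : ∀ x ∈ E2, x ∈ E' ∧ n x = n₀ := fun x hx => Finset.mem_filter.mp hx
      refine fib_le E2 k _ _ (by positivity) ?_ ?_
      · refine h2 (X + 1) c0 0 (E2.image k) hX1 (fun v _ => rfl) ?_
        intro w hw
        rw [Finset.mem_image] at hw
        obtain ⟨x, hx, rfl⟩ := hw
        obtain ⟨hx1, _⟩ := hm2 x hx
        obtain ⟨c1, c2, c3, c4, _, _, _, _, _⟩ := hcore x hx1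
        refine ⟨c1, fun v hv => ?_, fun v hv => (c3 v hv).trans hBB, c4.trans ?_⟩
        · have := c2 v hv
          simpa using this
        · have g1 := len_hf_le (P x₀ p)
          have g2 := len_hf_le (P x q)
          have g3 := len_le (F.pt x₀ hx₀).1 (F.pt x₀ hx₀).2.1 p
          have g4 := len_le (F.pt x (hmem x hx1).1).1 (F.pt x (hmem x hx1).1).2.1 q
          have g5 := sum_lm (F.pt x₀ hx₀).1 (F.pt x₀ hx₀).2.1 r
          have g6 := (_root_.abs_le.mp (hht x (hmem x hx1).1 x₀ hx₀)).2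
          rw [hc0]
          linarith
      · intro k₀ hk₀
        rw [Finset.mem_image] at hk₀
        obtain ⟨x₁, hx₁, rfl⟩ := hk₀
        set E3 := E2.filter (fun x => k x = k x₁) with hE3
        have hm3 : ∀ x ∈ E3, x ∈ E' ∧ n x = n₀ ∧ k x = k x₁ := by
          intro x hx
          obtain ⟨a1, a2⟩ := Finset.mem_filter.mp hx
          exact ⟨(hm2 x a1).1, (hm2 x a1).2, a2⟩
        have hinj3 : Set.InjOn m E3 := by
          intro x hx x' hx' hmm
          obtain ⟨a1, a2, a3⟩ := hm3 x hx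
          obtain ⟨b1, b2, b3⟩ := hm3 x' hx'
          exact hinj x a1 x' b1 (a3.trans b3.symm) hmm
        rw [← Finset.card_image_of_injOn hinj3]
        have hsub : E3.image m ⊆ {m x₁, -(m x₁)} := by
          intro w hw
          rw [Finset.mem_image] at hw
          obtain ⟨x, hx, rfl⟩ := hw
          obtain ⟨a1, a2, a3⟩ := hm3 x hx
          obtain ⟨b1, b2⟩ := hm2 x₁ hx₁
          obtain ⟨c1, _, _, _, _, _, c7, _, _⟩ := hcore x a1
          obtain ⟨d1, _, _, _, _, _, d7, _, _⟩ := hcore x₁ b1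
          rw [a2, a3, ← d7, b2] at c7
          have e1 : n₀ - m x ^ 2 = n₀ - m x₁ ^ 2 := by
            field_simp at c7
            exact c7
          have e2 : (m x - m x₁) * (m x + m x₁) = 0 := by linear_combination -e1
          rw [Finset.mem_insert, Finset.mem_singleton]
          rcases mul_eq_zero.mp e2 with h | h
          · left; exact sub_eq_zero.mp h
          · right; exact eq_neg_of_add_eq_zero_left h
        have h3 := (Finset.card_le_card hsub).trans (Finset.card_insert_le _ _)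
        rw [Finset.card_singleton] at h3
        exact_mod_cast h3
  rw [hcard]
  have h0 : len (0 : Idl K) = 0 := by simp [len]
  rw [h0, sub_zero] at hfin
  have e1 : (D1 * Real.exp (ε / 2 * (X + 1))) * ((D2 * Real.exp (ε / 2 * (X + 1) + c0)) * 2) =
      D1 * (D2 * Real.exp c0 * 2) * Real.exp (ε * (X + 1)) := by
    have e2 : Real.exp (ε * (X + 1)) = Real.exp (ε / 2 * (X + 1)) * Real.exp (ε / 2 * (X + 1)) := by
      rw [← Real.exp_add]
      congr 1
      ring
    rw [Real.exp_add, e2]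
    ring
  rw [e1] at hfin
  nlinarith

end Pool.Agent.KS6_20.QB
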