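import Mathlib
import Pool.Agent.KS6_20.QB.Mult
import Pool.Agent.KS6_20.AE.Off

/-!
# The norm form bound for a cell of points
-/

set_option autoImplicit false
set_option linter.unusedSectionVars false
set_option linter.unusedVariables false

namespace Pool.Agent.KS6_20.QB

open NumberField IsDedekindDomain Finset Pool.Agent.H691R3 Pool.Agent.W223.AK
open Pool.Agent.W358.AK (fib_bound)
open Pool.Agent.KS6_20.AE (cs_off pairs_count)

variable {K : Type} [Field K] [NumberField K]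

/-- the vertices -/
abbrev VT (K : Type) [Field K] [NumberField K] (M : ℕ) : Type :=
  (((Idl K × Idl K) × Fin M) × Finset (Pl K)) × (Idl K × Finset (Pr K))

theorem len_ex (a : Idl K) (I : Set ℕ) : len (ex a I) ≤ len a := len_mono (ex_le a I)

/-- the number of pairs of vertices -/
theorem sa_count (hCNT : StmtCNT K) (hSU : StmtSU K) (hFAC : StmtFAC K) (hGCD : StmtGCD K)
    (hOMG : StmtOMG K) {S : Finset (Pr K)} (hS : SGood S 2) {ϖ : Pr K → K} {C : ℝ}
    (hU : Unif S ϖ C) (A ε : ℝ) (hA : 0 ≤ A) (hε : 0 < ε) (M : ℕ) :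
    ∃ D : ℝ, 0 < D ∧ ∀ (X : ℝ) (P : K → Fin 3 → Idl K) (p q r : Fin 3) (E : Finset K)
      (col : K → Fin M) (g t : K → K) (I I' : Set ℕ) (sp : K → Finset (Pl K))
      (sg sg' : K → Finset (Pr K)) (κ c cI : ℝ) (Q : Finset (VT K M × VT K M)),
      0 ≤ X → Fam S P p q r (A * (X + 1)) X E col g t →
      (∀ x, sp x ⊆ Spl S) → (∀ x ∈ E, ∀ x' ∈ E, ck0 P p q col x = ck0 P p q col x' →
        sp x = sp x' → t x ≠ t x' → ∀ v ∈ Spl S, ls v (t x - t x') ≤ ls v (t x) - lm v r x + kc v) →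
      (∀ x, sg x ⊆ (ex (P x r) I).support) →
      (∀ x ∈ E, ∀ x' ∈ E, ck0 P p q col x = ck0 P p q col x' → ex (P x r) I' = ex (P x' r) I' →
        sg' x = sg' x' → ∀ v, ex (P x r) I' v ≠ 0 →
        fv v (t x - t x') ≤ (Nv v) ^ (-(ex (P x r) I' v : ℤ))) →
      (∀ x, ex (P x r) I + ex (P x r) I' = P x r) →
      (∀ x ∈ E, rl (ex (P x r) I) ≤ cI) → (∀ x ∈ E, len (od (P x p)) + len (od (P x q)) ≤ c) →
      (∀ x ∈ E, ∀ y ∈ E, len (hf (P x p)) + len (hf (P y q)) - ∑ v ∈ Spl S, lm v r x -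
        len (ex (P x r) I') ≤ κ) →
      (∀ s ∈ Q, ∃ x ∈ E, ∃ x' ∈ E,
        s.1 = ((ck0 P p q col x, sp x), (ex (P x r) I, sg x)) ∧
        s.2 = ((ck0 P p q col x', sp x'), (ex (P x' r) I, sg x')) ∧
        ((ck0 P p q col x, sp x), (ex (P x r) I', sg' x)) =
          ((ck0 P p q col x', sp x'), (ex (P x' r) I', sg' x')) ∧
        ((ck0 P p q col x, sp x), (ex (P x r) I, sg x)) ≠
          ((ck0 P p q col x', sp x'), (ex (P x' r) I, sg x'))) →
      (Q.card : ℝ) ≤ D * Real.exp (ε * (X + 1)) * Real.exp (2 * cI + max κ (c / 2)) := by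
  classical
  have hC := hU.one_le
  have hBA := BA_nonneg S hC hA
  have hcs := cS_nonneg S
  obtain ⟨D1, hD1, h1⟩ := pairs hCNT hSU hFAC hGCD hOMG S hS (BA S C A) (ε / 3) hBA (by positivity)
  obtain ⟨D2, hD2, h2⟩ := hOMG 2 (ε / 3 / (1 + cS S)) (by norm_num) (by positivity)
  refine ⟨D1 * (2 * Real.exp (kS S)) * ((M + 1) * (2 : ℝ) ^ (Spl S).card * (D2 * D2)),
    by positivity, ?_⟩
  intro X P p q r E col g t I I' sp sg sg' κ c cI Q hX F hsp hclose hsg hcong hII hcI hc hκ hQ
  have hX1 : 0 ≤ X + 1 := by linarith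
  have hlen : ∀ x ∈ E, len (P x r) ≤ (1 + cS S) * (X + 1) := by
    intro x hx
    have h3 := len_le (F.pt x hx).1 (F.pt x hx).2.1 r
    have h4 := (F.pt x hx).2.2
    nlinarith [mul_nonneg hcs hX]
  have hlenA : ∀ x ∈ E, len (ex (P x r) I) ≤ BA S C A * (X + 1) := by
    intro x hx
    refine ((len_ex _ _).trans (hlen x hx)).trans (mul_le_mul_of_nonneg_right ?_ hX1)
    have h3 := kS_nonneg S
    unfold BA
    have h4 : 0 ≤ (((Spl S).card : ℝ) + 2) * (2 * A + kS S + (8 + 8 * C) * (1 + cS S)) := by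
      positivity
    linarith
  set pr : VT K M × VT K M → (Idl K × Idl K) × (Idl K × Idl K) :=
    fun s => (s.1.1.1.1, (s.1.2.1, s.2.2.1)) with hpr
  have h3 := h1 (X + 1) (κ + kS S) c cI (Q.image pr) hX1 ?_
  · have hfib : ∀ b ∈ Q.image pr, ((Q.filter (fun s => pr s = b)).card : ℝ) ≤
        (M + 1) * (2 : ℝ) ^ (Spl S).card * ((D2 * Real.exp (ε / 3 * (X + 1))) *
          (D2 * Real.exp (ε / 3 * (X + 1)))) := by
      intro b hb
      rw [Finset.mem_image] at hb
      obtain ⟨s₀, hs₀, rfl⟩ := hb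
      obtain ⟨x₀, hx₀, x₀', hx₀', e1, e2, e3, e4⟩ := hQ s₀ hs₀
      set T : Finset (Fin M × (Finset (Pl K) × (Finset (Pr K) × Finset (Pr K)))) :=
        Finset.univ ×ˢ ((Spl S).powerset ×ˢ
          ((ex (P x₀ r) I).support.powerset ×ˢ (ex (P x₀' r) I).support.powerset)) with hT
      set φ : VT K M × VT K M → Fin M × (Finset (Pl K) × (Finset (Pr K) × Finset (Pr K))) :=
        fun s => (s.1.1.1.2, (s.1.1.2, (s.1.2.2, s.2.2.2))) with hφ
      have hmaps : ∀ s ∈ Q.filter (fun s => pr s = pr s₀), φ s ∈ T := by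
        intro s hs
        obtain ⟨hsQ, hsp'⟩ := Finset.mem_filter.mp hs
        obtain ⟨x, hx, x', hx', f1, f2, f3, f4⟩ := hQ s hsQ
        rw [hpr] at hsp'
        simp only [e1, e2, f1, f2, Prod.mk.injEq] at hsp'
        obtain ⟨g1, g2, g3⟩ := hsp'
        rw [hT, hφ]
        simp only [f1, f2, Finset.mem_product, Finset.mem_univ, true_and, Finset.mem_powerset]
        refine ⟨hsp x, ?_, ?_⟩
        · rw [← g2]; exact hsg x
        · rw [← g3]; exact hsg x'
      have hinj : Set.InjOn φ (Q.filter (fun s => pr s = pr s₀)) := by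
        intro s hs s' hs' hss
        obtain ⟨hsQ, hsp'⟩ := Finset.mem_filter.mp (Finset.mem_coe.mp hs)
        obtain ⟨hsQ', hsp''⟩ := Finset.mem_filter.mp (Finset.mem_coe.mp hs')
        obtain ⟨x, hx, x', hx', f1, f2, f3, f4⟩ := hQ s hsQ
        obtain ⟨y, hy, y', hy', k1, k2, k3, k4⟩ := hQ s' hsQ'
        have h5 : pr s = pr s' := hsp'.trans hsp''.symm
        rw [hpr] at h5
        simp only [f1, f2, k1, k2, Prod.mk.injEq] at h5
        rw [hφ] at hss
        simp only [f1, f2, k1, k2, Prod.mk.injEq] at hss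
        obtain ⟨g1, g2, g3⟩ := h5
        obtain ⟨g4, g5, g6, g7⟩ := hss
        rw [Prod.mk.injEq, Prod.mk.injEq] at f3 k3
        obtain ⟨⟨l1, l2⟩, _⟩ := f3
        obtain ⟨⟨l3, l4⟩, _⟩ := k3
        have h6 : ck0 P p q col x = ck0 P p q col y := Prod.ext g1 g4
        refine Prod.ext ?_ ?_
        · rw [f1, k1, h6, g5, g2, g6]
        · rw [f2, k2, ← l1, ← l3, h6, ← l2, ← l4, g5, g3, g7]
      have h4 : (Q.filter (fun s => pr s = pr s₀)).card ≤ T.card :=
        Finset.card_le_card_of_injOn φ hmaps hinj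
      have h5 : (T.card : ℝ) = M * ((2 : ℝ) ^ (Spl S).card *
          ((2 : ℝ) ^ (ex (P x₀ r) I).support.card * (2 : ℝ) ^ (ex (P x₀' r) I).support.card)) := by
        rw [hT, Finset.card_product, Finset.card_product, Finset.card_product, Finset.card_univ,
          Fintype.card_fin, Finset.card_powerset, Finset.card_powerset, Finset.card_powerset]
        push_cast
        ring
      have h6 : ∀ x ∈ E, (2 : ℝ) ^ (ex (P x r) I).support.card ≤
          D2 * Real.exp (ε / 3 * (X + 1)) := by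
        intro x hx
        refine (h2 _).trans (mul_le_mul_of_nonneg_left (Real.exp_le_exp.mpr ?_) hD2.le)
        have h7 := mul_le_mul_of_nonneg_left ((len_ex (P x r) I).trans (hlen x hx))
          (by positivity : 0 ≤ ε / 3 / (1 + cS S))
        refine h7.trans (le_of_eq ?_)
        field_simp
      have h7 : ((Q.filter (fun s => pr s = pr s₀)).card : ℝ) ≤ T.card := by exact_mod_cast h4
      refine h7.trans ?_
      rw [h5]
      have h8 := mul_le_mul (h6 x₀ hx₀) (h6 x₀' hx₀') (by positivity) (by positivity)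
      have h9 : (M : ℝ) * ((2 : ℝ) ^ (Spl S).card * ((2 : ℝ) ^ (ex (P x₀ r) I).support.card *
          (2 : ℝ) ^ (ex (P x₀' r) I).support.card)) ≤ M * ((2 : ℝ) ^ (Spl S).card *
          ((D2 * Real.exp (ε / 3 * (X + 1))) * (D2 * Real.exp (ε / 3 * (X + 1))))) :=
        mul_le_mul_of_nonneg_left (mul_le_mul_of_nonneg_left h8 (by positivity)) (by positivity)
      refine h9.trans ?_
      have h10 : 0 ≤ (2 : ℝ) ^ (Spl S).card *
          ((D2 * Real.exp (ε / 3 * (X + 1))) * (D2 * Real.exp (ε / 3 * (X + 1)))) := by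
        positivity
      nlinarith
    have h4 := fib_bound Q pr _ hfib
    refine h4.trans ((mul_le_mul_of_nonneg_right h3 (by positivity)).trans ?_)
    have h5 : Real.exp (κ + kS S) + Real.exp (c / 2) ≤
        2 * Real.exp (kS S) * Real.exp (max κ (c / 2)) := by
      have h6 : Real.exp (κ + kS S) ≤ Real.exp (kS S) * Real.exp (max κ (c / 2)) := by
        rw [← Real.exp_add, Real.exp_le_exp]
        linarith [le_max_left κ (c / 2)]
      have h7 : Real.exp (c / 2) ≤ Real.exp (kS S) * Real.exp (max κ (c / 2)) := by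
        rw [← Real.exp_add, Real.exp_le_exp]
        linarith [le_max_right κ (c / 2), kS_nonneg S]
      linarith
    calc D1 * Real.exp (ε / 3 * (X + 1) + 2 * cI) * (Real.exp (κ + kS S) + Real.exp (c / 2)) *
          ((M + 1) * (2 : ℝ) ^ (Spl S).card * ((D2 * Real.exp (ε / 3 * (X + 1))) *
          (D2 * Real.exp (ε / 3 * (X + 1)))))
        ≤ D1 * Real.exp (ε / 3 * (X + 1) + 2 * cI) *
          (2 * Real.exp (kS S) * Real.exp (max κ (c / 2))) *
          ((M + 1) * (2 : ℝ) ^ (Spl S).card * ((D2 * Real.exp (ε / 3 * (X + 1))) *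
          (D2 * Real.exp (ε / 3 * (X + 1))))) := by
          refine mul_le_mul_of_nonneg_right (mul_le_mul_of_nonneg_left h5 (by positivity)) ?_
          positivity
      _ = D1 * (2 * Real.exp (kS S)) * ((M + 1) * (2 : ℝ) ^ (Spl S).card * (D2 * D2)) *
          (Real.exp (ε / 3 * (X + 1) + 2 * cI) * Real.exp (ε / 3 * (X + 1)) *
          Real.exp (ε / 3 * (X + 1)) * Real.exp (max κ (c / 2))) := by ring
      _ = _ := by
          have e1 : Real.exp (ε / 3 * (X + 1) + 2 * cI) * Real.exp (ε / 3 * (X + 1)) *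
              Real.exp (ε / 3 * (X + 1)) * Real.exp (max κ (c / 2)) =
              Real.exp (ε * (X + 1)) * Real.exp (2 * cI + max κ (c / 2)) := by
            rw [← Real.exp_add, ← Real.exp_add, ← Real.exp_add, ← Real.exp_add]
            congr 1
            ring
          rw [e1]
          ring
  · intro ω hω
    rw [Finset.mem_image] at hω
    obtain ⟨s, hs, rfl⟩ := hω
    obtain ⟨x, hx, x', hx', e1, e2, e3, e4⟩ := hQ s hs
    have e3' := e3
    simp only [Prod.mk.injEq] at e3'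
    obtain ⟨⟨f1, f2⟩, f3, f4⟩ := e3'
    have hf1 := f1
    unfold ck0 at hf1
    rw [Prod.mk.injEq, Prod.mk.injEq] at hf1
    have htt : t x ≠ t x' := by
      intro h
      apply e4
      have := F.inj hx hx' f1 h
      rw [this]
    have hcore := core hU F.pq F.qr F.pr (F.pt x hx).1 (F.pt x' hx').1 (F.pt x hx).2.1
      (F.pt x' hx').2.1 (F.dat x hx) (F.dat' hx hx' f1) hf1.1.1 hf1.1.2 htt
      (f := ex (P x r) I') (ex_le _ _) (by rw [f3]; exact ex_le _ _)
      (hcong x hx x' hx' f1 f3 f4) (hclose x hx x' hx' f1 f2 htt)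
      (F.pt x hx).2.2 (F.pt x' hx').2.2 rfl rfl rfl rfl rfl
    have hBB := BB_le_BA S (A := A) hC hX
    have g1 : P x r - ex (P x r) I' = ex (P x r) I := by
      conv_lhs => rw [← hII x]
      nth_rewrite 2 [← hII x]
      rw [add_tsub_cancel_right]
    have g2 : P x' r - ex (P x r) I' = ex (P x' r) I := by
      rw [f3]
      conv_lhs => rw [← hII x']
      nth_rewrite 2 [← hII x']
      rw [add_tsub_cancel_right]
    obtain ⟨c1, c2, c3, c4, c5, c6, c7, c8, c9⟩ := hcore
    rw [hpr]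
    simp only [e1, e2]
    refine ⟨⟨_, _, (g x * t x * t x' - 1) * (gen ϖ (od (P x q)) *
      (gen ϖ (hf (P x q)) * gen ϖ (hf (P x' q)) / gen ϖ (ex (P x r) I'))), c1, c2, fun v hv => (c3 v hv).trans hBB, c4.trans ?_, ?_,
      fun v hv => (c6 v hv).trans hBB, ?_, fun v hv => ?_⟩, ⟨hcI x hx, hlenA x hx⟩,
      ⟨hcI x' hx', hlenA x' hx'⟩, ?_⟩
    · have := hκ x hx x' hx'
      linarith
    · rw [g1, g2] at c5
      exact c5
    · rw [c7]
      exact c8
    · rw [c7]
      exact (c9 v hv).trans hBB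
    · show len (od (P x p) + od (P x q)) ≤ c
      rw [len_add]
      exact hc x hx

end Pool.Agent.KS6_20.QB
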