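import Mathlib
import Pool.Agent.KS6_20.QB.QBd
import Pool.Agent.KS6_20.AE.FIN

/-!
# The norm form bound for a cell of points: conclusion
-/

set_option autoImplicit false
set_option linter.unusedSectionVars false
set_option linter.unusedVariables false

namespace Pool.Agent.KS6_20.QB

open NumberField IsDedekindDomain Finset Pool.Agent.H691R3 Pool.Agent.W223.AK
open Pool.Agent.W358.AK (fib_bound)
open Pool.Agent.KS6_20.AE (cs_off pairs_count)

variable {K : Type} [Field K] [NumberField K]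

theorem rl_od (a : Idl K) : rl (od a) ≤ len (od a) := rl_le_len _

/-- the number of vertices -/
theorem v_count (hCNT : StmtCNT K) (hFAC : StmtFAC K) (hOMG : StmtOMG K) (S : Finset (Pr K))
    (ε : ℝ) (hε : 0 < ε) (M : ℕ) :
    ∃ D : ℝ, 0 < D ∧ ∀ (X : ℝ) (P : K → Fin 3 → Idl K) (p q r : Fin 3) (E : Finset K)
      (col : K → Fin M) (I : Set ℕ) (sp : K → Finset (Pl K))
      (sg : K → Finset (Pr K)) (c cI : ℝ) (V : Finset (VT K M)),
      0 ≤ X → (∀ x ∈ E, Pt x ∧ IsP S x (P x) ∧ ht x ≤ X) → (∀ x, sp x ⊆ Spl S) →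
      (∀ x, sg x ⊆ (ex (P x r) I).support) →
      (∀ x ∈ E, rl (ex (P x r) I) ≤ cI) → (∀ x ∈ E, len (od (P x p)) + len (od (P x q)) ≤ c) →
      (∀ s ∈ V, ∃ x ∈ E, s = ((ck0 P p q col x, sp x), (ex (P x r) I, sg x))) →
      (V.card : ℝ) ≤ D * Real.exp (ε * (X + 1)) * Real.exp (c + cI) := by
  classical
  have hcs := cS_nonneg S
  set ε' : ℝ := ε / 3 / (2 * (1 + cS S)) with hε'
  have hε'0 : 0 < ε' := by positivity
  obtain ⟨D1, hD1, h1⟩ := pairs_count hCNT hFAC ε' hε'0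
  obtain ⟨D2, hD2, h2⟩ := hCNT ε' hε'0
  obtain ⟨D3, hD3, h3⟩ := hOMG 2 ε' (by norm_num) hε'0
  refine ⟨D1 * (D2 * ((M + 1) * (2 : ℝ) ^ (Spl S).card * D3)), by positivity, ?_⟩
  intro X P p q r E col I sp sg c cI V hX hE hsp hsg hcI hc hVm
  have hX1 : 0 ≤ X + 1 := by linarith
  have hlen : ∀ x ∈ E, ∀ l, len (P x l) ≤ (1 + cS S) * (X + 1) := by
    intro x hx l
    have h4 := len_le (hE x hx).1 (hE x hx).2.1 l
    have h5 := (hE x hx).2.2
    nlinarith [mul_nonneg hcs hX]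
  set Y : ℝ := (1 + cS S) * (X + 1) with hY
  have hY0 : 0 ≤ Y := by positivity
  have hεY : ε' * (2 * Y) = ε / 3 * (X + 1) := by
    rw [hε', hY]
    field_simp
  have hεY' : ε' * Y ≤ ε / 3 * (X + 1) := by
    rw [← hεY]
    exact mul_le_mul_of_nonneg_left (by linarith) hε'0.le
  refine (fib_le V (fun s => s.1.1.1) (D1 * Real.exp (c + ε / 3 * (X + 1)))
    ((D2 * Real.exp (cI + ε / 3 * (X + 1))) * ((M + 1) * (2 : ℝ) ^ (Spl S).card *
      (D3 * Real.exp (ε / 3 * (X + 1))))) (by positivity) ?_ ?_).trans ?_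
  · refine (h1 (2 * Y) c _ (by positivity) ?_).trans (by rw [hεY])
    intro b hb
    rw [Finset.mem_image] at hb
    obtain ⟨s, hs, rfl⟩ := hb
    obtain ⟨x, hx, rfl⟩ := hVm s hs
    show rl (od (P x p) + od (P x q)) ≤ c ∧ len (od (P x p) + od (P x q)) ≤ 2 * Y
    have e1 := hc x hx
    have e2 := rl_le_len (od (P x p) + od (P x q))
    rw [len_add] at e2 ⊢
    have e3 := len_mono (od_le (P x p))
    have e4 := len_mono (od_le (P x q))
    have e5 := hlen x hx p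
    have e6 := hlen x hx q
    constructor <;> linarith
  · intro b hb
    set V2 := V.filter (fun s => s.1.1.1 = b) with hV2
    have hm2 : ∀ s ∈ V2, s ∈ V ∧ s.1.1.1 = b := fun s hs => Finset.mem_filter.mp hs
    refine fib_le V2 (fun s => s.2.1) _ _ (by positivity) ?_ ?_
    · refine (h2 Y cI _ hY0 ?_).trans (mul_le_mul_of_nonneg_left
        (Real.exp_le_exp.mpr (by linarith)) hD2.le)
      intro a ha
      rw [Finset.mem_image] at ha
      obtain ⟨s, hs, rfl⟩ := ha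
      obtain ⟨x, hx, rfl⟩ := hVm s (hm2 s hs).1
      exact ⟨hcI x hx, (len_ex _ _).trans (hlen x hx r)⟩
    · intro a ha
      rw [Finset.mem_image] at ha
      obtain ⟨s₀, hs₀, rfl⟩ := ha
      obtain ⟨x₀, hx₀, e0⟩ := hVm s₀ (hm2 s₀ hs₀).1
      set T : Finset (Fin M × (Finset (Pl K) × Finset (Pr K))) :=
        Finset.univ ×ˢ ((Spl S).powerset ×ˢ (ex (P x₀ r) I).support.powerset) with hT
      set φ : VT K M → Fin M × (Finset (Pl K) × Finset (Pr K)) :=
        fun s => (s.1.1.2, (s.1.2, s.2.2)) with hφ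
      have hmaps : ∀ s ∈ V2.filter (fun s => s.2.1 = s₀.2.1), φ s ∈ T := by
        intro s hs
        obtain ⟨hs1, hs2⟩ := Finset.mem_filter.mp hs
        obtain ⟨x, hx, e1⟩ := hVm s (hm2 s hs1).1
        rw [e1, e0] at hs2
        simp only at hs2
        rw [hT, hφ, e1]
        simp only [Finset.mem_product, Finset.mem_univ, true_and, Finset.mem_powerset]
        refine ⟨hsp x, ?_⟩
        rw [← hs2]
        exact hsg x
      have hinj : Set.InjOn φ (V2.filter (fun s => s.2.1 = s₀.2.1)) := by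
        intro s hs s' hs' hss
        obtain ⟨hs1, hs2⟩ := Finset.mem_filter.mp (Finset.mem_coe.mp hs)
        obtain ⟨hs1', hs2'⟩ := Finset.mem_filter.mp (Finset.mem_coe.mp hs')
        have h5 := (hm2 s hs1).2.trans (hm2 s' hs1').2.symm
        have h6 := hs2.trans hs2'.symm
        rw [hφ] at hss
        simp only [Prod.mk.injEq] at hss
        obtain ⟨g1, g2, g3⟩ := hss
        exact Prod.ext (Prod.ext (Prod.ext h5 g1) g2) (Prod.ext h6 g3)
      have h4 : (V2.filter (fun s => s.2.1 = s₀.2.1)).card ≤ T.card :=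
        Finset.card_le_card_of_injOn φ hmaps hinj
      have h5 : (T.card : ℝ) = M * ((2 : ℝ) ^ (Spl S).card *
          (2 : ℝ) ^ (ex (P x₀ r) I).support.card) := by
        rw [hT, Finset.card_product, Finset.card_product, Finset.card_univ,
          Fintype.card_fin, Finset.card_powerset, Finset.card_powerset]
        push_cast
        ring
      have h6 : (2 : ℝ) ^ (ex (P x₀ r) I).support.card ≤ D3 * Real.exp (ε / 3 * (X + 1)) := by
        refine (h3 _).trans (mul_le_mul_of_nonneg_left (Real.exp_le_exp.mpr ?_) hD3.le)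
        exact (mul_le_mul_of_nonneg_left ((len_ex (P x₀ r) I).trans (hlen x₀ hx₀ r))
          hε'0.le).trans hεY'
      have h7 : ((V2.filter (fun s => s.2.1 = s₀.2.1)).card : ℝ) ≤ T.card := by exact_mod_cast h4
      refine h7.trans ?_
      rw [h5]
      have h9 : (M : ℝ) * ((2 : ℝ) ^ (Spl S).card * (2 : ℝ) ^ (ex (P x₀ r) I).support.card) ≤
          M * ((2 : ℝ) ^ (Spl S).card * (D3 * Real.exp (ε / 3 * (X + 1)))) :=
        mul_le_mul_of_nonneg_left (mul_le_mul_of_nonneg_left h6 (by positivity)) (by positivity)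
      refine h9.trans ?_
      have h10 : 0 ≤ (2 : ℝ) ^ (Spl S).card * (D3 * Real.exp (ε / 3 * (X + 1))) := by
        positivity
      nlinarith
  · refine le_of_eq ?_
    have e1 : Real.exp (c + ε / 3 * (X + 1)) * Real.exp (cI + ε / 3 * (X + 1)) *
        Real.exp (ε / 3 * (X + 1)) = Real.exp (ε * (X + 1)) * Real.exp (c + cI) := by
      rw [← Real.exp_add, ← Real.exp_add, ← Real.exp_add]
      congr 1
      ring
    linear_combination (D1 * (D2 * ((M + 1) * (2 : ℝ) ^ (Spl S).card * D3))) * e1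

/-- the conclusion of the norm form bound -/
def StmtQB (S : Finset (Pr K)) (ε D : ℝ) : Prop :=
    ∀ (X : ℝ) (E : Finset K) (P : K → Fin 3 → Idl K) (p q r : Fin 3) (J : Set ℕ)
      (c cA cB κA κB : ℝ),
    0 ≤ X → (∀ x ∈ E, Pt x ∧ IsP S x (P x) ∧ ht x ≤ X) → p ≠ q → q ≠ r → p ≠ r →
    (∀ x ∈ E, ∀ y ∈ E, |ht x - ht y| ≤ 1) →
    (∀ x ∈ E, ∀ y ∈ E, ∀ l, ∀ v ∈ Spl S, |lm v l x - lm v l y| ≤ 1) →
    (∀ x ∈ E, len (od (P x p)) + len (od (P x q)) ≤ c) →
    (∀ x ∈ E, rl (ex (P x r) J) ≤ cA) → (∀ x ∈ E, rl (ex (P x r) Jᶜ) ≤ cB) →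
    (∀ x ∈ E, ∀ y ∈ E, len (hf (P x p)) + len (hf (P y q)) - ∑ v ∈ Spl S, lm v r x -
      len (ex (P x r) Jᶜ) ≤ κA) →
    (∀ x ∈ E, ∀ y ∈ E, len (hf (P x p)) + len (hf (P y q)) - ∑ v ∈ Spl S, lm v r x -
      len (ex (P x r) J) ≤ κB) →
    (E.card : ℝ) ≤ D * Real.exp (ε * X + max (c + cB)
      (1 / 2 * ((2 * cA + max κA (c / 2)) + max (c + cB) (2 * cB + max κB (c / 2)))))

theorem qb1 (hCNT : StmtCNT K) (hSU : StmtSU K) (hFAC : StmtFAC K) (hGCD : StmtGCD K)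
    (hOMG : StmtOMG K) (hCS : StmtCS) {S : Finset (Pr K)} (hS : SGood S 2) {ϖ : Pr K → K} {C : ℝ}
    (hU : Unif S ϖ C) (p q : Fin 3) (ε : ℝ) (hε : 0 < ε) :
    ∃ D : ℝ, 0 < D ∧ 
    ∀ (X : ℝ) (E : Finset K) (P : K → Fin 3 → Idl K) (r : Fin 3) (J : Set ℕ)
      (c cA cB κA κB : ℝ),
    0 ≤ X → (∀ x ∈ E, Pt x ∧ IsP S x (P x) ∧ ht x ≤ X) → p ≠ q → q ≠ r → p ≠ r →
    (∀ x ∈ E, ∀ y ∈ E, |ht x - ht y| ≤ 1) →
    (∀ x ∈ E, ∀ y ∈ E, ∀ l, ∀ v ∈ Spl S, |lm v l x - lm v l y| ≤ 1) →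
    (∀ x ∈ E, len (od (P x p)) + len (od (P x q)) ≤ c) →
    (∀ x ∈ E, rl (ex (P x r) J) ≤ cA) → (∀ x ∈ E, rl (ex (P x r) Jᶜ) ≤ cB) →
    (∀ x ∈ E, ∀ y ∈ E, len (hf (P x p)) + len (hf (P y q)) - ∑ v ∈ Spl S, lm v r x -
      len (ex (P x r) Jᶜ) ≤ κA) →
    (∀ x ∈ E, ∀ y ∈ E, len (hf (P x p)) + len (hf (P y q)) - ∑ v ∈ Spl S, lm v r x -
      len (ex (P x r) J) ≤ κB) →
    (E.card : ℝ) ≤ D * Real.exp (ε * X + max (c + cB)
      (1 / 2 * ((2 * cA + max κA (c / 2)) + max (c + cB) (2 * cB + max κB (c / 2))))) := by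
  classical
  obtain ⟨M, A, hA, hcl⟩ := classes hU p q
  obtain ⟨D1, hD1, h1⟩ := sa_count hCNT hSU hFAC hGCD hOMG hS hU A (ε / 2) hA (by positivity) M
  obtain ⟨D2, hD2, h2⟩ := v_count hCNT hFAC hOMG S (ε / 2) (by positivity) M
  obtain ⟨D3, hD3, h3⟩ := mult hCNT hSU hU A (ε / 2) hA (by positivity)
  refine ⟨3 * (D1 + D2) * D3 * Real.exp ε, by positivity, ?_⟩
  intro X E P r J c cA cB κA κB hX hE hpq hqr hpr hht hlm hc hcA hcB hκA hκB
  have hX1 : 0 ≤ X + 1 := by linarith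
  obtain ⟨col, g, t, hdat, hsame⟩ := hcl X E P hX hE
  have F : Fam S P p q r (A * (X + 1)) X E col g t := ⟨hpq, hqr, hpr, hE, hdat, hsame, hlm⟩
  obtain ⟨sp, hsp, hclose⟩ := exists_sp F
  obtain ⟨sgA, hsgA, hcgA⟩ := exists_sg hS F J
  obtain ⟨sgB, hsgB, hcgB⟩ := exists_sg hS F Jᶜ
  set VA : K → VT K M := fun x => ((ck0 P p q col x, sp x), (ex (P x r) J, sgA x)) with hVA
  set VB : K → VT K M := fun x => ((ck0 P p q col x, sp x), (ex (P x r) Jᶜ, sgB x)) with hVB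
  set SA : Finset (VT K M × VT K M) :=
    ((E ×ˢ E).filter (fun s => VB s.1 = VB s.2 ∧ VA s.1 ≠ VA s.2)).image
      (fun s => (VA s.1, VA s.2)) with hSA
  set SB : Finset (VT K M × VT K M) :=
    ((E ×ˢ E).filter (fun s => VA s.1 = VA s.2 ∧ VB s.1 ≠ VB s.2)).image
      (fun s => (VB s.1, VB s.2)) with hSB
  set a : ℝ := 2 * cA + max κA (c / 2) with ha
  set b : ℝ := 2 * cB + max κB (c / 2) with hb
  have hSAc := h1 X P p q r E col g t J Jᶜ sp sgA sgB κA c cA SA hX F hsp hclose hsgA hcgB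
    (fun x => ex_add_compl _ _) hcA hc hκA (by
      intro s hs
      rw [hSA, Finset.mem_image] at hs
      obtain ⟨y, hy, rfl⟩ := hs
      rw [Finset.mem_filter, Finset.mem_product] at hy
      exact ⟨y.1, hy.1.1, y.2, hy.1.2, rfl, rfl, hy.2.1, hy.2.2⟩)
  have hSBc := h1 X P p q r E col g t Jᶜ J sp sgB sgA κB c cB SB hX F hsp hclose hsgB hcgA
    (fun x => by rw [add_comm]; exact ex_add_compl _ _) hcB hc hκB (by
      intro s hs
      rw [hSB, Finset.mem_image] at hs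
      obtain ⟨y, hy, rfl⟩ := hs
      rw [Finset.mem_filter, Finset.mem_product] at hy
      exact ⟨y.1, hy.1.1, y.2, hy.1.2, rfl, rfl, hy.2.1, hy.2.2⟩)
  have hBc := h2 X P p q r E col Jᶜ sp sgB c cB (E.image VB) hX hE hsp hsgB hcB hc (by
    intro s hs
    rw [Finset.mem_image] at hs
    obtain ⟨x, hx, rfl⟩ := hs
    exact ⟨x, hx, rfl⟩)
  have hfin := cs_off hCS (E.image (fun x => (VA x, VB x))) SA SB (E.image VB) ?_ ?_ ?_
    ((D1 + D2) * Real.exp (ε / 2 * (X + 1))) (c + cB) a b (by positivity) ?_ ?_ ?_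
  rotate_left
  · intro t ht t' ht' htt hne
    rw [Finset.mem_image] at ht ht'
    obtain ⟨x, hx, rfl⟩ := ht
    obtain ⟨x', hx', rfl⟩ := ht'
    rw [hSA, Finset.mem_image]
    exact ⟨(x, x'), Finset.mem_filter.mpr ⟨Finset.mem_product.mpr ⟨hx, hx'⟩, htt, hne⟩, rfl⟩
  · intro t ht t' ht' htt hne
    rw [Finset.mem_image] at ht ht'
    obtain ⟨x, hx, rfl⟩ := ht
    obtain ⟨x', hx', rfl⟩ := ht'
    rw [hSB, Finset.mem_image]
    exact ⟨(x, x'), Finset.mem_filter.mpr ⟨Finset.mem_product.mpr ⟨hx, hx'⟩, htt, hne⟩, rfl⟩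
  · intro t ht
    rw [Finset.mem_image] at ht
    obtain ⟨x, hx, rfl⟩ := ht
    exact Finset.mem_image.mpr ⟨x, hx, rfl⟩
  · refine hBc.trans ?_
    refine mul_le_mul_of_nonneg_right (mul_le_mul_of_nonneg_right (by linarith)
      (Real.exp_pos _).le) (Real.exp_pos _).le
  · refine hSAc.trans ?_
    refine mul_le_mul_of_nonneg_right (mul_le_mul_of_nonneg_right (by linarith)
      (Real.exp_pos _).le) (Real.exp_pos _).le
  · refine hSBc.trans ?_
    refine mul_le_mul_of_nonneg_right (mul_le_mul_of_nonneg_right (by linarith)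
      (Real.exp_pos _).le) (Real.exp_pos _).le
  have hfib : ∀ y ∈ E.image (fun x => (VA x, VB x)),
      ((E.filter (fun x => (VA x, VB x) = y)).card : ℝ) ≤ D3 * Real.exp (ε / 2 * (X + 1)) := by
    intro y hy
    set E' := E.filter (fun x => (VA x, VB x) = y) with hE'
    have hsub : E' ⊆ E := Finset.filter_subset _ _
    have hpair : ∀ x ∈ E', ∀ x' ∈ E', VA x = VA x' ∧ VB x = VB x' := by
      intro x hx x' hx'
      have e1 := (Finset.mem_filter.mp hx).2.trans (Finset.mem_filter.mp hx').2.symm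
      exact Prod.mk.inj e1
    have hparts : ∀ x ∈ E', ∀ x' ∈ E', ck0 P p q col x = ck0 P p q col x' ∧ sp x = sp x' ∧
        ex (P x r) J = ex (P x' r) J ∧ sgA x = sgA x' ∧ ex (P x r) Jᶜ = ex (P x' r) Jᶜ ∧
        sgB x = sgB x' := by
      intro x hx x' hx'
      obtain ⟨e1, e2⟩ := hpair x hx x' hx'
      simp only [hVA, hVB, Prod.mk.injEq] at e1 e2
      exact ⟨e1.1.1, e1.1.2, e1.2.1, e1.2.2, e2.2.1, e2.2.2⟩
    refine h3 X P p q r M E' col g t hX (F.mono hsub)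
      (fun x hx y hy => hht x (hsub hx) y (hsub hy)) ?_ ?_ ?_
    · intro x hx x' hx'
      obtain ⟨e1, e2, e3, e4, e5, e6⟩ := hparts x hx x' hx'
      refine ⟨e1, ?_⟩
      rw [← ex_add_compl (P x r) J, ← ex_add_compl (P x' r) J, e3, e5]
    · intro x hx x' hx' v hv
      obtain ⟨e1, e2, e3, e4, e5, e6⟩ := hparts x hx x' hx'
      by_cases hJ : ex (P x r) J v = 0
      · have hJ' : ex (P x r) Jᶜ v ≠ 0 := by
          have e7 : (ex (P x r) J + ex (P x r) Jᶜ) v = P x r v := by rw [ex_add_compl]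
          rw [Finsupp.add_apply, hJ, zero_add] at e7
          rw [e7]
          exact hv
        have e8 := hcgB x (hsub hx) x' (hsub hx') e1 e5 e6 v hJ'
        rwa [ex_eq_of_ne hJ'] at e8
      · have e8 := hcgA x (hsub hx) x' (hsub hx') e1 e3 e4 v hJ
        rwa [ex_eq_of_ne hJ] at e8
    · intro x hx x' hx' htt v hv
      obtain ⟨e1, e2, e3, e4, e5, e6⟩ := hparts x hx x' hx'
      exact hclose x (hsub hx) x' (hsub hx') e1 e2 htt v hv
  refine (fib_bound E (fun x => (VA x, VB x)) _ hfib).trans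
    ((mul_le_mul_of_nonneg_right hfin (by positivity)).trans (le_of_eq ?_))
  have e1 : Real.exp (ε / 2 * (X + 1)) * Real.exp (max (c + cB) (1 / 2 * (a + max (c + cB) b))) *
      Real.exp (ε / 2 * (X + 1)) =
      Real.exp ε * Real.exp (ε * X + max (c + cB) (1 / 2 * (a + max (c + cB) b))) := by
    rw [← Real.exp_add, ← Real.exp_add, ← Real.exp_add]
    congr 1
    ring
  linear_combination (3 * (D1 + D2) * D3) * e1

theorem qb (hCNT : StmtCNT K) (hSU : StmtSU K) (hFAC : StmtFAC K) (hGCD : StmtGCD K)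
    (hOMG : StmtOMG K) (hCS : StmtCS) {S : Finset (Pr K)} (hS : SGood S 2) {ϖ : Pr K → K} {C : ℝ}
    (hU : Unif S ϖ C) (ε : ℝ) (hε : 0 < ε) : ∃ D : ℝ, 0 < D ∧ StmtQB S ε D := by
  classical
  have h := fun p q => qb1 hCNT hSU hFAC hGCD hOMG hCS hS hU p q ε hε
  choose D hD h using h
  refine ⟨∑ p, ∑ q, D p q, Finset.sum_pos (fun p _ => Finset.sum_pos (fun q _ => hD p q)
    Finset.univ_nonempty) Finset.univ_nonempty, ?_⟩
  intro X E P p q r J c cA cB κA κB hX hE hpq hqr hpr hht hlm hc hcA hcB hκA hκB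
  refine (h p q X E P r J c cA cB κA κB hX hE hpq hqr hpr hht hlm hc hcA hcB hκA hκB).trans ?_
  refine mul_le_mul_of_nonneg_right ?_ (Real.exp_pos _).le
  have e1 : D p q ≤ ∑ q, D p q :=
    Finset.single_le_sum (f := fun q => D p q) (fun q _ => (hD p q).le) (Finset.mem_univ q)
  have e2 : ∑ q, D p q ≤ ∑ p, ∑ q, D p q :=
    Finset.single_le_sum (f := fun p => ∑ q, D p q)
      (fun p _ => Finset.sum_nonneg fun q _ => (hD p q).le) (Finset.mem_univ p)
  exact e1.trans e2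

/-- the norm form bound holds -/
theorem qb_all (K : Type) [Field K] [NumberField K] (S : Finset (Pr K)) (w : Pr K → K) (C : ℝ)
    (hU : Unif S w C) (hS : SGood S 2) (ε : ℝ) (hε : 0 < ε) :
    ∃ D : ℝ, 0 < D ∧ StmtQB S ε D :=
  qb Pool.Agent.W52.AK.cnt Pool.Agent.W822.AK.su Pool.Agent.W52.AK.fac Pool.Agent.W52.AK.gcdsum
    Pool.Agent.W52.AK.omg Pool.Agent.W375.AK.cs hS hU ε hε

end Pool.Agent.KS6_20.QB
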