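import Mathlib
import Pool.Agent.KS6_20.QB.QBf

/-!
# The certificate with the norm form bound, and the corresponding case for a cell
-/

set_option autoImplicit false
set_option linter.unusedSectionVars false
set_option linter.unusedVariables false

namespace Pool.Agent.KS6_20.QB

open NumberField IsDedekindDomain Finset Pool.Agent.H691R3 Pool.Agent.W223.AK
open Pool.Agent.R365.AK
open Pool.Agent.KS6_20.AE (Op EV ex_Un_compl)

/-- the classes of odd exponents -/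
def oS (N : ℕ) : Finset (Fin (N + 1)) := univ.filter fun i => (i : ℕ) < N ∧ (i : ℕ) % 2 = 0

/-- the classes of odd exponents and the last class -/
def oH (N : ℕ) : Finset (Fin (N + 1)) := univ.filter fun i => (i : ℕ) = N ∨ (i : ℕ) % 2 = 0

/-- the size of the odd parts -/
noncomputable def cc {N : ℕ} (v : Fin 3 → Fin (N + 1) → ℝ) (p q : Fin 3) : ℝ :=
  V v p (oH N) + V v q (oH N)

/-- the size of the coefficient -/
noncomputable def kp {N : ℕ} (v : Fin 3 → Fin (N + 1) → ℝ) (w s : Fin 3 → ℝ) (p q r : Fin 3)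
    (A : Finset (Fin (N + 1))) : ℝ :=
  W v w r A - (s p + s q) / 2 - (V v p (oS N) + V v q (oS N)) / 2

/-- the value of the norm form bound -/
noncomputable def QV {N : ℕ} (v : Fin 3 → Fin (N + 1) → ℝ) (w s : Fin 3 → ℝ) (p q r : Fin 3)
    (A : Finset (Fin (N + 1))) : ℝ :=
  max (cc v p q + V v r Aᶜ) (1 / 2 * ((2 * V v r A + max (kp v w s p q r A) (cc v p q / 2)) +
    max (cc v p q + V v r Aᶜ) (2 * V v r Aᶜ + max (kp v w s p q r Aᶜ) (cc v p q / 2))))

/-- one of the five bounds is good, for all cells of points with `rad ≤ lam * h` -/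
def Cert5 (N : ℕ) (lam e : ℝ) : Prop :=
  ∃ C : ℝ, 0 ≤ C ∧ ∀ (X η : ℝ) (v : Fin 3 → Fin (N + 1) → ℝ) (w s : Fin 3 → ℝ),
    0 ≤ X → 0 ≤ η → (∀ l i, 0 ≤ v l i) → (∀ l, ((N : ℝ) + 1) * v l (Fin.last N) ≤ w l) →
    (∀ l, -η ≤ s l) → (∀ l, |W v w l univ + s l - X| ≤ η) →
    (V v 0 univ + V v 1 univ + V v 2 univ ≤ lam * X + η) →
    (∃ (p q r : Fin 3) (k : ℕ) (I : Fin 3 → Finset (Fin (N + 1))), p ≠ q ∧ q ≠ r ∧ p ≠ r ∧
      1 ≤ k ∧ k ≤ N ∧ (∀ i, i ∉ I p → k = 1 ∨ ((i : ℕ) < N ∧ k ∣ (i : ℕ) + 1)) ∧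
      (∀ i, i ∉ I q → k = 1 ∨ ((i : ℕ) < N ∧ k ∣ (i : ℕ) + 1)) ∧
      V v p (I p) + V v q (I q) + V v r (I r) +
        max 0 (2 * X / k - ((W v w p (I p) + s p) + (W v w q (I q) + s q)) / k -
          (W v w r (I r) + s r)) ≤ e * X + C * η) ∨
    (∃ (p q r : Fin 3) (F : Finset (Fin (N + 1))), p ≠ q ∧ q ≠ r ∧ p ≠ r ∧
      V v r F + 1 / 2 * (V v p univ + max 0 (3 / 2 * V v p univ - (W v w r F + s r))) +
        1 / 2 * (V v q univ + max 0 (3 / 2 * V v q univ - (W v w r F + s r))) ≤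
        e * X + C * η) ∨
    (∃ (p q r : Fin 3) (i : Fin (N + 1)), p ≠ q ∧ q ≠ r ∧ p ≠ r ∧ 1 ≤ (i : ℕ) ∧ (i : ℕ) < N ∧
      V v p {i}ᶜ + V v q univ ≤ e * X + C * η ∧
      (V v p {i}ᶜ + V v q univ) / 2 + V v r univ ≤ e * X + C * η) ∨
    (∃ (p q r : Fin 3) (F : Finset (Fin (N + 1))) (op oq : Op N), p ≠ q ∧ q ≠ r ∧ p ≠ r ∧
      op.Valid ∧ oq.Valid ∧ EV v w s p q r F op oq ≤ e * X + C * η) ∨
    (∃ (p q r : Fin 3) (A : Finset (Fin (N + 1))), p ≠ q ∧ q ≠ r ∧ p ≠ r ∧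
      QV v w s p q r A ≤ e * X + C * η)

variable {K : Type} [Field K] [NumberField K] {N : ℕ}

theorem len_od_eq (a : Idl K) : len (od a) = rl (ex a {m | m % 2 = 1}) := by
  classical
  have h1 : (ex a {m | m % 2 = 1}).support ⊆ a.support := by
    intro v hv
    rw [Finsupp.mem_support_iff] at hv ⊢
    intro h
    have := ex_le a {m | m % 2 = 1} v
    omega
  rw [rl_eq_sum_ite _ h1]
  have h2 : (od a).support ⊆ a.support := by
    intro v hv
    rw [Finsupp.mem_support_iff] at hv ⊢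
    intro h
    have := od_le a v
    omega
  unfold len
  rw [Finset.sum_subset h2 (fun v _ hv => by
    rw [Finsupp.notMem_support_iff.mp hv]; simp)]
  refine Finset.sum_congr rfl fun v _ => ?_
  rw [od_apply, ex_apply]
  by_cases h3 : a v % 2 = 1
  · have h4 : a v ∈ {m | m % 2 = 1} := h3
    have h5 : a v ≠ 0 := by omega
    rw [if_pos h4, if_neg h5, h3]
    simp
  · have h4 : a v ∉ {m : ℕ | m % 2 = 1} := h3
    have h5 : a v % 2 = 0 := by omega
    rw [if_neg h4, if_pos rfl, h5]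
    simp

theorem rl_ex_mono (a : Idl K) {F G : Set ℕ} (h : ∀ m, 1 ≤ m → m ∈ F → m ∈ G) :
    rl (ex a F) ≤ rl (ex a G) := by
  classical
  refine rl_mono fun v hv => ?_
  rw [ex_support] at hv ⊢
  exact ⟨hv.1, h _ (Nat.one_le_iff_ne_zero.mpr hv.1) hv.2⟩

theorem od_hi (a : Idl K) : len (od a) ≤ rl (ex a (Un (oH N))) := by
  rw [len_od_eq]
  refine rl_ex_mono a fun m h1 h2 => ?_
  have h3 : m % 2 = 1 := h2
  refine ⟨⟨min (m - 1) N, by omega⟩, ?_, h1, rfl⟩
  unfold oH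
  rw [Finset.mem_filter]
  refine ⟨Finset.mem_univ _, ?_⟩
  show min (m - 1) N = N ∨ min (m - 1) N % 2 = 0
  omega

theorem od_lo (a : Idl K) : rl (ex a (Un (oS N))) ≤ len (od a) := by
  rw [len_od_eq]
  refine rl_ex_mono a fun m h1 h2 => ?_
  obtain ⟨i, hi, h3, h4⟩ := h2
  unfold oS at hi
  rw [Finset.mem_filter] at hi
  show m % 2 = 1
  omega

section Cases

variable {S : Finset (Pr K)} {n : ℕ} {lam c₀ Y : ℝ} {E : Finset K} {P : K → Fin 3 → Idl K} {x₀ : K}

/-- the case of the norm form bound -/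
lemma case_Q (hn : N + 1 ≤ n) (h : IsCell N S n lam c₀ Y E P x₀)
    (hcl : ∀ x ∈ E, ∀ y ∈ E, Close N S n P x y) {ε D : ℝ} (hD : 0 ≤ D)
    (hQB : StmtQB S ε D) {p q r : Fin 3} {A : Finset (Fin (N + 1))} (hpq : p ≠ q) (hqr : q ≠ r)
    (hpr : p ≠ r) {R : ℝ}
    (hR : QV (fun l i => rl (ex (P x₀ l) (cls N i))) (fun l => len (ex (P x₀ l) (cls N (Fin.last N))))
      (fun l => ∑ v ∈ Spl S, lm v l x₀) p q r A ≤ R) :
    (E.card : ℝ) ≤ D * Real.exp (ε * Y + R + (3 * bU N n + bL N + ((Spl S).card + 2))) := by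
  have hY := h.Y_nonneg
  have hbU := bU_nonneg N n
  have hbL := bL_nonneg N
  set G : ℝ := ((Spl S).card : ℝ) with hG
  have hG0 : 0 ≤ G := Nat.cast_nonneg _
  unfold QV kp cc at hR
  simp only [V_eq, W_eq] at hR
  set s : Fin 3 → ℝ := fun l => ∑ v ∈ Spl S, lm v l x₀ with hs
  have hsl : ∀ l, ∑ v ∈ Spl S, lm v l x₀ = s l := fun l => rfl
  simp only [hsl] at hR
  set c : ℝ := rl (ex (P x₀ p) (Un (oH N))) + rl (ex (P x₀ q) (Un (oH N))) with hc
  have hcompl : ∀ a : Idl K, ex a (Un A)ᶜ = ex a (Un Aᶜ) := by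
    intro a
    rw [← ex_Un_compl a Aᶜ, compl_compl]
  have hκ : ∀ (B : Finset (Fin (N + 1))) (F : Set ℕ), (∀ a : Idl K, ex a F + ex a (Un B) = a) →
      ∀ x ∈ E, ∀ y ∈ E, len (hf (P x p)) + len (hf (P y q)) - ∑ v ∈ Spl S, lm v r x -
        len (ex (P x r) F) ≤ (len (ex (P x₀ r) (Un B)) - (s p + s q) / 2 -
        (rl (ex (P x₀ p) (Un (oS N))) + rl (ex (P x₀ q) (Un (oS N)))) / 2) +
        (bU N n + bL N + (G + 2)) := by
    intro B F hF x hx y hy
    have e1 := len_od (P x p)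
    have e2 := len_od (P y q)
    have e3 := od_lo (N := N) (P x p)
    have e4 := od_lo (N := N) (P y q)
    have e5 := (abs_le.mp (close_rl_Un hn (h.close x hx) p (oS N))).1
    have e6 := (abs_le.mp (close_rl_Un hn (h.close y hy) q (oS N))).1
    have e7 := sum_lm (h.pt x hx).1 (h.pt x hx).2.1 p
    have e8 := sum_lm (h.pt y hy).1 (h.pt y hy).2.1 q
    have e9 := sum_lm (h.pt x hx).1 (h.pt x hx).2.1 r
    have e10 := (abs_le.mp (close_sum_lm (h.close x hx) p)).1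
    have e11 := (abs_le.mp (close_sum_lm (h.close y hy) q)).1
    have e12 := (abs_le.mp (close_len_Un hn (h.close x hx) r B)).2
    have e13 := congrArg len (hF (P x r))
    rw [len_add] at e13
    have e14 := abs_le.mp (h.close x hx).hht
    have e15 := abs_le.mp (h.close y hy).hht
    rw [hsl] at e10 e11
    linarith [e14.1, e14.2, e15.1, e15.2]
  have hmain := hQB Y E P p q r (Un A) (c + 2 * bU N n)
    (rl (ex (P x₀ r) (Un A)) + bU N n) (rl (ex (P x₀ r) (Un Aᶜ)) + bU N n)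
    ((len (ex (P x₀ r) (Un A)) - (s p + s q) / 2 -
        (rl (ex (P x₀ p) (Un (oS N))) + rl (ex (P x₀ q) (Un (oS N)))) / 2) +
        (bU N n + bL N + (G + 2)))
    ((len (ex (P x₀ r) (Un Aᶜ)) - (s p + s q) / 2 -
        (rl (ex (P x₀ p) (Un (oS N))) + rl (ex (P x₀ q) (Un (oS N)))) / 2) +
        (bU N n + bL N + (G + 2)))
    hY h.pt hpq hqr hpr
    (fun x hx y hy => (hcl x hx y hy).hht)
    (fun x hx y hy l v hv => (hcl x hx y hy).hlm l v hv)
    (fun x hx => by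
      have e1 := od_hi (N := N) (P x p)
      have e2 := od_hi (N := N) (P x q)
      have e3 := h.rl_le hn hx p (oH N)
      have e4 := h.rl_le hn hx q (oH N)
      linarith)
    (fun x hx => h.rl_le hn hx r A)
    (fun x hx => by
      rw [hcompl]
      exact h.rl_le hn hx r Aᶜ)
    (hκ A (Un A)ᶜ (fun a => by rw [add_comm]; exact ex_add_compl _ _))
    (hκ Aᶜ (Un A) (fun a => by rw [← hcompl]; exact ex_add_compl _ _))
  refine hmain.trans (mul_le_mul_of_nonneg_left (Real.exp_le_exp.mpr ?_) hD)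
  set cA : ℝ := rl (ex (P x₀ r) (Un A))
  set cB : ℝ := rl (ex (P x₀ r) (Un Aᶜ))
  set kA : ℝ := len (ex (P x₀ r) (Un A)) - (s p + s q) / 2 -
        (rl (ex (P x₀ p) (Un (oS N))) + rl (ex (P x₀ q) (Un (oS N)))) / 2
  set kB : ℝ := len (ex (P x₀ r) (Un Aᶜ)) - (s p + s q) / 2 -
        (rl (ex (P x₀ p) (Un (oS N))) + rl (ex (P x₀ q) (Un (oS N)))) / 2
  set u := bU N n
  set l := bL N
  have m1 : max (kA + (u + l + (G + 2))) ((c + 2 * u) / 2) ≤ max kA (c / 2) +
      (u + l + (G + 2)) := by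
    have a1 := le_max_left kA (c / 2)
    have a2 := le_max_right kA (c / 2)
    refine max_le ?_ ?_ <;> linarith
  have m2 : max (kB + (u + l + (G + 2))) ((c + 2 * u) / 2) ≤ max kB (c / 2) +
      (u + l + (G + 2)) := by
    have a1 := le_max_left kB (c / 2)
    have a2 := le_max_right kB (c / 2)
    refine max_le ?_ ?_ <;> linarith
  have m3 : max (c + 2 * u + (cB + u)) (2 * (cB + u) +
      max (kB + (u + l + (G + 2))) ((c + 2 * u) / 2)) ≤
      max (c + cB) (2 * cB + max kB (c / 2)) + (3 * u + l + (G + 2)) := by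
    have a1 := le_max_left (c + cB) (2 * cB + max kB (c / 2))
    have a2 := le_max_right (c + cB) (2 * cB + max kB (c / 2))
    refine max_le ?_ ?_ <;> linarith
  have m4 : max (c + 2 * u + (cB + u)) (1 / 2 * (2 * (cA + u) +
      max (kA + (u + l + (G + 2))) ((c + 2 * u) / 2) + max (c + 2 * u + (cB + u)) (2 * (cB + u) +
      max (kB + (u + l + (G + 2))) ((c + 2 * u) / 2)))) ≤
      max (c + cB) (1 / 2 * ((2 * cA + max kA (c / 2)) +
        max (c + cB) (2 * cB + max kB (c / 2)))) + (3 * u + l + (G + 2)) := by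
    have a1 := le_max_left (c + cB) (1 / 2 * ((2 * cA + max kA (c / 2)) +
        max (c + cB) (2 * cB + max kB (c / 2))))
    have a2 := le_max_right (c + cB) (1 / 2 * ((2 * cA + max kA (c / 2)) +
        max (c + cB) (2 * cB + max kB (c / 2))))
    refine max_le ?_ ?_ <;> linarith
  linarith

end Cases

end Pool.Agent.KS6_20.QB
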