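import Mathlib
import Pool.Agent.KS6_20.AE.Run
import Pool.Agent.KS6_20.QB.Cell

set_option autoImplicit false
set_option linter.unusedVariables false

/-!
# The run of a certificate with the norm form bound, and its soundness
-/

namespace Pool.Agent.KS6_20.QB

open Finset Pool.Agent.R365.AK Pool.Agent.R365.Chk Pool.Agent.R365.Chk.Fm
open Pool.Agent.KS6_20.AE (WE VCo rep_WE rep_VCo valid4 pcs4 Fails4 node_sound4 fails4_perm Op EV)

/-- the mask of the odd classes -/
def oSm (N : ℕ) : ℕ := Nat.mod 341 (Nat.pow 2 N)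

/-- the mask of the odd classes and the last class -/
def oHm (N : ℕ) : ℕ := Nat.add (oSm N) (Nat.pow 2 N)

/-- the forms of a part -/
def partQ (f g h c : Fm) : List Fm :=
  [sub (add (mul 2520 f) (mul 1260 g)) h, add (mul 2520 f) (mul 630 c)]

/-- the forms of the norm form bound, scaled by `2520` -/
def pQ (N p q r A : ℕ) : List Fm :=
  let c := add (VF N p (oHm N)) (VF N q (oHm N))
  let ss := add (un (Nat.add (Nat.add (Nat.mul 3 (Nat.succ N)) 3) p))
    (un (Nat.add (Nat.add (Nat.mul 3 (Nat.succ N)) 3) q))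
  let h := sub (mul 630 (add ss (add (VF N p (oSm N)) (VF N q (oSm N))))) (mul 1260 (uE N))
  let v := mul 1260 (add c (VCo N r A))
  let a := partQ (VF N r A) (WE N r A) h c
  let b := partQ (VCo N r A) (sub (WE N r (fm N)) (WE N r A)) h c
  mul 2 v :: (a.map (fun x => add x v) ++ a.flatMap fun x => b.map fun y => add x y)

section pieces

variable {N : ℕ} {v : Fin 3 → Fin (N + 1) → ℝ} {w s : Fin 3 → ℝ} {X Y η : ℝ}

theorem st_oSm (hN : N ≤ 9) : st N (oSm N) = oS N := by
  unfold st oS
  ext i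
  rw [Finset.mem_filter, Finset.mem_filter]
  have h1 := i.2
  simp only [mem_univ, true_and]
  unfold bt oSm
  generalize (i : ℕ) = a at h1
  interval_cases N <;> interval_cases a <;> decide

theorem st_oHm (hN : N ≤ 9) : st N (oHm N) = oH N := by
  unfold st oH
  ext i
  rw [Finset.mem_filter, Finset.mem_filter]
  have h1 := i.2
  simp only [mem_univ, true_and]
  unfold bt oHm oSm
  generalize (i : ℕ) = a at h1
  interval_cases N <;> interval_cases a <;> decide

theorem W_co (v : Fin 3 → Fin (N + 1) → ℝ) (w : Fin 3 → ℝ) (l : Fin 3)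
    (I : Finset (Fin (N + 1))) : W v w l Iᶜ = W v w l univ - W v w l I := by
  unfold W
  rw [eq_sub_iff_add_eq, add_comm, Finset.sum_add_sum_compl]

theorem part_cov {f g h c : Fm} {x y z u : ℝ} {xs : ℕ → ℝ} (hf : Rep xs f x) (hg : Rep xs g y)
    (hh : Rep xs h (630 * z)) (hc : Rep xs c u) :
    ∃ k ∈ partQ f g h c, Rep xs k (1260 * (2 * x + max (y - z / 2) (u / 2))) := by
  unfold partQ
  rcases le_total (y - z / 2) (u / 2) with h' | h'
  · rw [max_eq_right h']
    refine ⟨_, List.mem_cons_of_mem _ List.mem_cons_self,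
      rep_congr (rep_add (rep_mul 2520 hf) (rep_mul 630 hc)) ?_⟩
    push_cast
    ring
  · rw [max_eq_left h']
    refine ⟨_, List.mem_cons_self,
      rep_congr (rep_sub (rep_add (rep_mul 2520 hf) (rep_mul 1260 hg)) hh) ?_⟩
    push_cast
    ring

theorem cov_Q (hN : N ≤ 9) {p q r A : ℕ} (hp : p < 3) (hq : q < 3) (hr : r < 3)
    {t : ℝ} (ht : t < QV v w s (fz p) (fz q) (fz r) (st N A)) :
    ∃ y, t < y ∧ ∃ f ∈ pQ N p q r A, Rep (xx N v w s X Y η) f (2520 * y) := by
  refine ⟨_, ht, ?_⟩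
  have vp := rep_VF (v := v) (w := w) (s := s) (X := X) (Y := Y) (η := η) hN p (oHm N) hp
  have vq := rep_VF (v := v) (w := w) (s := s) (X := X) (Y := Y) (η := η) hN q (oHm N) hq
  have up := rep_VF (v := v) (w := w) (s := s) (X := X) (Y := Y) (η := η) hN p (oSm N) hp
  have uq := rep_VF (v := v) (w := w) (s := s) (X := X) (Y := Y) (η := η) hN q (oSm N) hq
  rw [st_oHm hN] at vp vq
  rw [st_oSm hN] at up uq
  have c := rep_add vp vq
  have sp := rep_un (x := xx N v w s X Y η) (3 * (N + 1) + 3 + p) (by omega)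
  rw [xx_s p hp] at sp
  have sq := rep_un (x := xx N v w s X Y η) (3 * (N + 1) + 3 + q) (by omega)
  rw [xx_s q hq] at sq
  have hE := rep_E (v := v) (w := w) (s := s) (X := X) (Y := Y) (η := η) hN
  have f := rep_VF (v := v) (w := w) (s := s) (X := X) (Y := Y) (η := η) hN r A hr
  have f' := rep_VCo (v := v) (w := w) (s := s) (X := X) (Y := Y) (η := η) hN r A hr
  have g := rep_WE (v := v) (w := w) (s := s) (X := X) (Y := Y) (η := η) hN r A hr
  have gu := rep_WE (v := v) (w := w) (s := s) (X := X) (Y := Y) (η := η) hN r (fm N) hr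
  rw [st_fm hN] at gu
  have g' := rep_congr (rep_sub gu g) (W_co v w (fz r) (st N A)).symm
  have h := rep_congr (rep_sub (rep_mul 630 (rep_add (rep_add sp sq) (rep_add up uq)))
    (rep_mul 1260 hE)) (show _ = 630 * ((s (fz p) + s (fz q)) +
      (V v (fz p) (oS N) + V v (fz q) (oS N))) by push_cast; ring)
  have vv := rep_mul 1260 (rep_add c f')
  obtain ⟨a, ha, hra⟩ := part_cov f g h c
  obtain ⟨b, hb, hrb⟩ := part_cov f' g' h c
  unfold QV kp cc
  have k1 : ∀ I : Finset (Fin (N + 1)), W v w (fz r) I - ((s (fz p) + s (fz q)) +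
      (V v (fz p) (oS N) + V v (fz q) (oS N))) / 2 = W v w (fz r) I - (s (fz p) + s (fz q)) / 2 -
      (V v (fz p) (oS N) + V v (fz q) (oS N)) / 2 := fun I => by ring
  rw [k1] at hra hrb
  set x := 2 * V v (fz r) (st N A) + max (W v w (fz r) (st N A) - (s (fz p) + s (fz q)) / 2 -
      (V v (fz p) (oS N) + V v (fz q) (oS N)) / 2)
      ((V v (fz p) (oH N) + V v (fz q) (oH N)) / 2) with hx
  set y := 2 * V v (fz r) (st N A)ᶜ + max (W v w (fz r) (st N A)ᶜ - (s (fz p) + s (fz q)) / 2 -
      (V v (fz p) (oS N) + V v (fz q) (oS N)) / 2)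
      ((V v (fz p) (oH N) + V v (fz q) (oH N)) / 2) with hy
  set z := V v (fz p) (oH N) + V v (fz q) (oH N) + V v (fz r) (st N A)ᶜ with hz
  unfold pQ
  rcases le_total z (1 / 2 * (x + max z y)) with e1 | e1
  · rw [max_eq_right e1]
    rcases le_total z y with e2 | e2
    · rw [max_eq_right e2]
      refine ⟨_, List.mem_cons_of_mem _ (List.mem_append_right _ (List.mem_flatMap.mpr
        ⟨a, ha, List.mem_map.mpr ⟨b, hb, rfl⟩⟩)), rep_congr (rep_add hra hrb) ?_⟩
      push_cast
      ring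
    · rw [max_eq_left e2]
      refine ⟨_, List.mem_cons_of_mem _ (List.mem_append_left _ (List.mem_map.mpr
        ⟨a, ha, rfl⟩)), rep_congr (rep_add hra vv) ?_⟩
      push_cast
      ring
  · rw [max_eq_left e1]
    refine ⟨_, List.mem_cons_self, rep_congr (rep_mul 2 vv) ?_⟩
    push_cast
    ring

end pieces

/-! ### the run -/

def valid5 (N kd m : ℕ) : Bool :=
  bif Nat.beq kd 5 then perm (dg m 0) (dg m 1) (dg m 2) else valid4 N kd m

def pcs5 (N kd m : ℕ) : List Fm :=
  bif Nat.beq kd 5 then pQ N (dg m 0) (dg m 1) (dg m 2) (dg m 3) else pcs4 N kd m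

/-- the run of a certificate: a list of codes against a stack of goals -/
def run5 (P : Prm) : List ℕ → List (List Fm) → Bool
  | [], gs => gs.isEmpty
  | n :: ns, gs => match gs with
    | [] => false
    | g :: gs => bif Nat.beq (Nat.mod n 8) 0 then leafOk (baseR P) g (Nat.div n 8) && run5 P ns gs
      else valid5 P.N (Nat.mod n 8) (Nat.div n 8) &&
        run5 P ns (expand P g gs (pcs5 P.N (Nat.mod n 8) (Nat.div n 8)))

/-- all the bounds fail -/
structure Fails5 {N : ℕ} (t X : ℝ) (v : Fin 3 → Fin (N + 1) → ℝ) (w s : Fin 3 → ℝ) : Prop where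
  F : Fails4 t X v w s
  Q : ∀ (p q r : Fin 3) (A : Finset (Fin (N + 1))), p ≠ q → q ≠ r → p ≠ r →
    t < QV v w s p q r A

section sound

variable {N : ℕ} {v : Fin 3 → Fin (N + 1) → ℝ} {w s : Fin 3 → ℝ} {X Y η t : ℝ}

theorem node_sound5 (hN : N ≤ 9) (h01 : V v 0 univ ≤ V v 1 univ) (h12 : V v 1 univ ≤ V v 2 univ)
    (hf : Fails5 t X v w s) (kd m : ℕ) (h : valid5 N kd m = true) :
    ∃ y, t < y ∧ ∃ f ∈ pcs5 N kd m, Rep (xx N v w s X Y η) f (2520 * y) := by
  unfold valid5 at h
  unfold pcs5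
  cases h1 : Nat.beq kd 5
  · rw [h1] at h
    simp only [cond_false] at h ⊢
    exact node_sound4 hN h01 h12 hf.F kd m h
  · rw [h1] at h
    simp only [cond_true] at h ⊢
    obtain ⟨hp, hq, hr, n1, n2, n3⟩ := perm_of h
    exact cov_Q hN hp hq hr (hf.Q _ _ _ (st N (dg m 3)) n1 n2 n3)

theorem run_sound5 (P : Prm) (hN : P.N ≤ 9) (hd : 0 < P.den) {v : Fin 3 → Fin (P.N + 1) → ℝ}
    {lam : ℝ} (hx : ∀ j, 0 ≤ xx P.N v w s X (lam * X) η j)
    (h01 : V v 0 univ ≤ V v 1 univ) (h12 : V v 1 univ ≤ V v 2 univ)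
    (hb : ∀ f ∈ baseR P, ∃ r, Rep (xx P.N v w s X (lam * X) η) f r ∧ 0 ≤ r)
    (hf : Fails5 (P.th lam * X + 10000 * η) X v w s) : ∀ (ns : List ℕ) (gs : List (List Fm)),
    run5 P ns gs = true → ∀ g ∈ gs, Goal (xx P.N v w s X (lam * X) η) g := by
  intro ns
  induction ns with
  | nil =>
    intro gs h g hg
    have h' : gs.isEmpty = true := h
    rw [List.isEmpty_iff] at h'
    rw [h'] at hg
    exact absurd hg List.not_mem_nil
  | cons n ns ih =>
    intro gs h g hg
    cases gs with
    | nil => exact absurd hg List.not_mem_nil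
    | cons g₀ gs =>
      have h' : (bif Nat.beq (Nat.mod n 8) 0 then
          leafOk (baseR P) g₀ (Nat.div n 8) && run5 P ns gs
        else valid5 P.N (Nat.mod n 8) (Nat.div n 8) &&
          run5 P ns (expand P g₀ gs (pcs5 P.N (Nat.mod n 8) (Nat.div n 8)))) = true := h
      cases hk : Nat.beq (Nat.mod n 8) 0
      · rw [hk, cond_false, Bool.and_eq_true] at h'
        obtain ⟨h1, h2⟩ := h'
        have h3 := ih _ h2
        rcases List.mem_cons.1 hg with rfl | hg'
        · intro hrows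
          obtain ⟨y, hy, f, hfm, hrep⟩ := node_sound5 (Y := lam * X) (η := η) hN h01 h12 hf _ _ h1
          refine h3 _ (expand_mem P g gs _ f hfm) ?_
          intro f' hf'
          rcases List.mem_cons.1 hf' with rfl | hf''
          · refine ⟨_, rep_sub (rep_mul P.den hrep) (rep_tf P hN hd), ?_⟩
            have hd' : (0 : ℝ) < P.den := by exact_mod_cast hd
            nlinarith
          · exact hrows f' hf''
        · exact h3 g (expand_mem' P g₀ gs _ g hg')
      · rw [hk, cond_true, Bool.and_eq_true] at h'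
        obtain ⟨h1, h2⟩ := h'
        rcases List.mem_cons.1 hg with rfl | hg'
        · intro hrows
          exact leafOk_sound hx _ _ _ hb hrows h1
        · exact ih gs h2 g hg'

theorem fails5_perm {N : ℕ} {t X : ℝ} {v : Fin 3 → Fin (N + 1) → ℝ} {w s : Fin 3 → ℝ}
    (hF : Fails5 t X v w s) (π : Equiv.Perm (Fin 3)) :
    Fails5 t X (fun l => v (π l)) (fun l => w (π l)) (fun l => s (π l)) := by
  have hinj : ∀ {a b : Fin 3}, a ≠ b → π a ≠ π b := fun h h' => h (π.injective h')
  refine ⟨fails4_perm hF.F π, ?_⟩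
  intro p q r A hpq hqr hpr
  exact hF.Q (π p) (π q) (π r) A (hinj hpq) (hinj hqr) (hinj hpr)

/-- a successful run gives the certificate -/
theorem cert_of_run5 (P : Prm) (ns : List ℕ) (hrun : run5 P ns [[]] = true) (hN : P.N ≤ 9)
    (hd : 0 < P.den) (lam : ℝ) (hl : 0 ≤ lam) (hlo : (P.lon : ℝ) ≤ P.lod * lam)
    (hhi : P.hid * lam ≤ P.hin) : Cert5 P.N lam (P.th lam) := by
  refine ⟨10000, by norm_num, ?_⟩
  intro X η v w s hX hη hv hw hs hW hV
  by_contra hcon
  push Not at hcon
  obtain ⟨hM, hS, hD, hE, hQ⟩ := hcon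
  have hF : Fails5 (P.th lam * X + 10000 * η) X v w s := by
    refine ⟨⟨⟨?_, ?_, ?_⟩, ?_⟩, ?_⟩
    · intro p q r k I hpq hqr hpr hk1 hkN hp hq
      exact hM p q r k I hpq hqr hpr hk1 hkN hp hq
    · intro p q r F hpq hqr hpr
      exact hS p q r F hpq hqr hpr
    · intro p q r i hpq hqr hpr hi1 hiN
      by_cases h : V v p {i}ᶜ + V v q univ ≤ P.th lam * X + 10000 * η
      · right
        exact hD p q r i hpq hqr hpr hi1 hiN h
      · left
        exact not_le.mp h
    · intro p q r F op oq hpq hqr hpr hop hoq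
      exact hE p q r F op oq hpq hqr hpr hop hoq
    · intro p q r A hpq hqr hpr
      exact hQ p q r A hpq hqr hpr
  set π := Tuple.sort fun l => V v l univ with hπ
  have hmono := Tuple.monotone_sort fun l => V v l univ
  have h01 : V v (π 0) univ ≤ V v (π 1) univ := hmono (by decide : (0 : Fin 3) ≤ 1)
  have h12 : V v (π 1) univ ≤ V v (π 2) univ := hmono (by decide : (1 : Fin 3) ≤ 2)
  have hsum : V v (π 0) univ + V v (π 1) univ + V v (π 2) univ ≤ lam * X + η := by
    have h1 : ∑ l : Fin 3, V v (π l) univ = ∑ l : Fin 3, V v l univ :=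
      Equiv.sum_comp π fun l => V v l univ
    rw [Fin.sum_univ_three, Fin.sum_univ_three] at h1
    rw [h1]
    exact hV
  exact run_sound5 P hN hd (v := fun l => v (π l)) (w := fun l => w (π l)) (s := fun l => s (π l))
    (xx_nonneg hX (by positivity) hη (fun l i => hv _ _) (fun l => hw _) (fun l => hs _))
    h01 h12
    (base_sound P hN hX (fun l => hW (π l)) hsum h01 h12 hlo hhi)
    (fails5_perm hF π) ns [[]] hrun [] List.mem_cons_self (fun f hf => absurd hf List.not_mem_nil)

end sound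

end Pool.Agent.KS6_20.QB
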