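import Mathlib
import Pool.Graph.R_seed8.W223.AK.Final
import Pool.Agent.KS6_20.QB.FIN
import Pool.Agent.KS6_20.QB.Run
import Pool.Agent.KS6_20.QB.B1
import Pool.Agent.KS6_20.QB.B2
import Pool.Agent.KS6_20.QB.B3
import Pool.Agent.KS6_20.QB.B4
import Pool.Agent.KS6_20.QB.B5
import Pool.Agent.KS6_20.QB.B6

set_option autoImplicit false

/-!
# The count of the points with `rad ≤ lam * h`, for `3 / 2 ≤ lam ≤ 2`
-/

namespace Pool.Agent.KS6_20.QB

open NumberField IsDedekindDomain Finset Pool.Agent.H691R3 Pool.Agent.W223.AK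
open Pool.Agent.R365.AK

open Pool.Agent.R365.Chk

/-- the exponent -/
noncomputable def eQ (l : ℝ) : ℝ :=
  if l ≤ 461 / 300 then 5 / 6
  else if l ≤ 33 / 20 then (100 * l + 13) / 200
  else if l ≤ 17 / 10 then (140 * l - 53) / 200
  else if l ≤ 31 / 18 then (14 * l - 9) / 16
  else if l ≤ 314 / 177 then (21 * l - 5) / 33
  else (l + 8) / 10

theorem fin_seg (K : Type) [Field K] [NumberField K] (P : Prm) (ns : List ℕ)
    (hrun : run5 P ns [[]] = true) (hN : P.N ≤ 9) (hN1 : 1 ≤ P.N)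
    (hd : 0 < P.den) (lam : ℝ) (hl : 0 ≤ lam) (hlo : (P.lon : ℝ) ≤ P.lod * lam)
    (hhi : P.hid * lam ≤ P.hin) {e : ℝ} (he : P.th lam = e) (he0 : 0 ≤ e) : Fin3 K lam e :=
  main5 K P.N hN1 lam e he0 (he ▸ cert_of_run5 P ns hrun hN hd lam hl hlo hhi)

/-- the count -/
theorem main6 (K : Type) [Field K] [NumberField K] (lam : ℝ) (h1 : 3 / 2 ≤ lam) (h2 : lam ≤ 2) :
    Fin3 K lam (eQ lam) := by
  unfold eQ
  split_ifs with g1 g2 g3 g4 g5
  · refine fin_seg K B1.prm B1.dat B1.run_ok (by norm_num [B1.prm]) (by norm_num [B1.prm])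
      (by norm_num [B1.prm]) lam (by linarith) (by simp only [B1.prm]; push_cast; linarith)
      (by simp only [B1.prm]; push_cast; linarith) ?_ (by norm_num)
    simp [Prm.th, B1.prm]
  · refine fin_seg K B2.prm B2.dat B2.run_ok (by norm_num [B2.prm]) (by norm_num [B2.prm])
      (by norm_num [B2.prm]) lam (by linarith) (by simp only [B2.prm]; push_cast; linarith)
      (by simp only [B2.prm]; push_cast; linarith) ?_ (by linarith)
    simp [Prm.th, B2.prm]
  · refine fin_seg K B3.prm B3.dat B3.run_ok (by norm_num [B3.prm]) (by norm_num [B3.prm])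
      (by norm_num [B3.prm]) lam (by linarith) (by simp only [B3.prm]; push_cast; linarith)
      (by simp only [B3.prm]; push_cast; linarith) ?_ (by linarith)
    simp [Prm.th, B3.prm]
  · refine fin_seg K B4.prm B4.dat B4.run_ok (by norm_num [B4.prm]) (by norm_num [B4.prm])
      (by norm_num [B4.prm]) lam (by linarith) (by simp only [B4.prm]; push_cast; linarith)
      (by simp only [B4.prm]; push_cast; linarith) ?_ (by linarith)
    simp [Prm.th, B4.prm]
  · refine fin_seg K B5.prm B5.dat B5.run_ok (by norm_num [B5.prm]) (by norm_num [B5.prm])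
      (by norm_num [B5.prm]) lam (by linarith) (by simp only [B5.prm]; push_cast; linarith)
      (by simp only [B5.prm]; push_cast; linarith) ?_ (by linarith)
    simp [Prm.th, B5.prm]
  · refine fin_seg K B6.prm B6.dat B6.run_ok (by norm_num [B6.prm]) (by norm_num [B6.prm])
      (by norm_num [B6.prm]) lam (by linarith) (by simp only [B6.prm]; push_cast; linarith)
      (by simp only [B6.prm]; push_cast; linarith) ?_ (by linarith)
    simp [Prm.th, B6.prm]

variable {K : Type} [Field K] [NumberField K]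

/-- the final form, for finite sets of coordinate vectors with distinct quotients -/
theorem final3 {lam e : ℝ} (hl : 0 ≤ lam) (hF : Fin3 K lam e) (T : Set (Pr K)) (hT : T.Finite)
    (c₀ δ : ℝ) (hδ : 0 < δ) : ∃ D : ℝ, 0 < D ∧ ∀ (X : ℝ) (F : Finset (Fin 3 → K)), 0 ≤ X →
      (∀ x ∈ F, x 0 ≠ 0 ∧ x 1 ≠ 0 ∧ x 2 ≠ 0 ∧ x 0 + x 1 + x 2 = 0 ∧ H3 x ≤ X ∧
        R3 T x ≤ lam * H3 x + c₀) →
      (∀ x ∈ F, ∀ y ∈ F, x 0 / x 1 = y 0 / y 1 → x = y) →
      (F.card : ℝ) ≤ D * Real.exp ((e + δ) * X) := by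
  classical
  set T' : Finset (Pr K) := hT.toFinset with hT'
  have hmem : ∀ v, v ∈ T' ↔ v ∈ T := fun v => Set.Finite.mem_toFinset _
  obtain ⟨D, hD, h⟩ := hF T' (lam * lossK K + c₀) δ hδ
  refine ⟨D, hD, fun X F hX hF1 hF2 => ?_⟩
  have hcard : (F.image fun x => x 0 / x 1).card = F.card :=
    Finset.card_image_of_injOn fun x hx y hy hxy => hF2 x hx y hy hxy
  rw [← hcard]
  refine h X _ hX ?_
  intro t ht
  obtain ⟨x, hx, rfl⟩ := Finset.mem_image.mp ht
  obtain ⟨h0, h1, h2, hs, hH, hR⟩ := hF1 x hx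
  have hb := H3_bounds h1 hs
  have hPt : Pt (x 0 / x 1) := by
    refine ⟨div_ne_zero h0 h1, ?_⟩
    intro h3
    apply h2
    have h4 : x 0 / x 1 * x 1 = x 0 := div_mul_cancel₀ _ h1
    have h5 : x 0 / x 1 = -1 := by linear_combination h3
    rw [h5] at h4
    linear_combination hs + h4
  obtain ⟨P, hP⟩ := exists_isP T' hPt
  refine ⟨hPt, hb.1.trans hH, P, hP, ?_⟩
  rw [← R3_eq hmem h1 hs hP]
  have h3 := mul_le_mul_of_nonneg_left hb.2 hl
  linarith [hb.2]

end Pool.Agent.KS6_20.QB
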